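import Pool.Agent.CPC.PtBasic

/-!
# A basis adapted to the blocks (helper50)

For `κ ∈ KK F al` let `E_κ = {v : (∀ i, mu i v = 0) ∧ ∀ i, ¬(al i ≠ 0 ∧ kA F al i = κ) → p i v = 0}`
and `E_r = {v : ∀ i, al i ≠ 0 → p i v = 0}`.
* Splitting: for `i` and `v` the vector `w` with `w i = p i v` and `w j = 0` for `j ≠ i` is tangent
  and orthogonal to `n` (`p_tan`, `p_orth`), so there is a linear map `π_i : E → E`,
  `π_i = P.Ainv ∘ (Pi.single i ∘ p i)`, with `A (π_i v) = w`; hence `mu j (π_i v) = 0`,
  `p i (π_i v) = p i v`, `p j (π_i v) = 0` for `j ≠ i`.  For `κ ∈ KK` let `π_κ` be the sum of the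
  `π_i` over `{i : al i ≠ 0 ∧ kA i = κ}`, and `π_r = 1 - ∑_κ π_κ`; these are projections with
  `π_κ π_κ' = 0`, images `E_κ` and `E_r`.  So `E` is the internal direct sum of `E_r` and the `E_κ`
  (indexed by `Option (KK F al)`, `none` for `E_r`).
* Dimension: `v ↦ (p i v)_i` is an isomorphism of `E_κ` onto the product over
  `{i : al i ≠ 0 ∧ kA i = κ}` of `{w ∈ W i : k B(x i, w) = 0 ∧ B(n i, w) = 0}` (onto by `surj`), and
  the dimension of the latter is `finrank W i - 1` if `k = 0` (the functional `B(n i, ·)` is nonzero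
  since `B(n i, n i) = al i ≠ 0`) and `finrank W i - 2` if `k ≠ 0` (`B(x i, ·)`, `B(n i, ·)` are
  linearly independent: `k B(x,x) = 1`, `k B(x, n) = 0`, `B(n,n) ≠ 0`).  So `finrank E_κ = dm F al κ`.
* `S`: `mu i (S v) = 0`, `p i (S v) = -q i v` (`mu_S`, `p_S`), and `q i v = 0` if `al i = 0`; so
  `π_r (S v) = 0`.
* `D` with `a i = 1` for `al i = 0`: `p i (D v) = a i p i v + b i q i v`, `mu i (D v) = mu i v`, so
  by `ext_pmu` `π_κ (D v) = a κ π_κ v - b κ π_κ (S v)` and `π_r (D v) = π_r v`.
* Take the basis collected from bases of `E_r`, `E_κ` (`DirectSum.IsInternal.collectedBasis`, index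
  type `(o : Option (KK F al)) × Fin (finrank ..)`), `blk = Sigma.fst`.  The row `r` of the matrix of
  a map `L` is the coordinate `r` of `π_(blk r) (L e_c)`.
-/

namespace Pool.Agent.CPC

open scoped BigOperators

variable {ι : Type*} [Fintype ι] {W : ι → Type*} [∀ i, NormedAddCommGroup (W i)]
  [∀ i, NormedSpace ℝ (W i)] [∀ i, FiniteDimensional ℝ (W i)] {E : Type*} [NormedAddCommGroup E]
  [NormedSpace ℝ E] [FiniteDimensional ℝ E] {F : ∀ i, SF (W i)} {al : ι → ℝ}

private theorem ad_Ainv (P : PtData F al E) (v : E) : P.Ainv (P.A v) = v :=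
  LinearMap.congr_fun (LinearMap.exists_leftInverse_of_injective P.A
    (LinearMap.ker_eq_bot.2 P.inj)).choose_spec v

private theorem ad_mu (P : PtData F al E) {u : E} {i : ι}
    (h : (F i).B (P.n i) (P.A u i) = 0) : P.mu i u = 0 := by
  unfold PtData.mu
  rw [LinearMap.smul_apply, LinearMap.comp_apply, LinearMap.comp_apply, LinearMap.proj_apply,
    ContinuousLinearMap.coe_coe, h, smul_zero]

private theorem ad_p (P : PtData F al E) {u : E} {i : ι}
    (h : (F i).B (P.n i) (P.A u i) = 0) : P.p i u = P.A u i := by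
  rw [P.p_apply, ad_mu P h, zero_smul, sub_zero]

private theorem ad_ex (P : PtData F al E) {w : ∀ i, W i}
    (h1 : ∀ i, (F i).k * (F i).B (P.x i) (w i) = 0) (h2 : ∀ i, (F i).B (P.n i) (w i) = 0) :
    P.A (P.Ainv w) = w ∧ (∀ i, P.mu i (P.Ainv w) = 0) ∧ ∀ i, P.p i (P.Ainv w) = w i := by
  obtain ⟨v, rfl⟩ := P.surj w h1 (by
    unfold ip
    exact Finset.sum_eq_zero fun i _ => h2 i)
  rw [ad_Ainv]
  exact ⟨rfl, fun i => ad_mu P (h2 i), fun i => ad_p P (h2 i)⟩

open Classical in
/-- The projection to the blocks in `s`. -/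
private noncomputable def PS (P : PtData F al E) (s : Finset ι) : E →ₗ[ℝ] E :=
  P.Ainv ∘ₗ LinearMap.pi (fun i => if i ∈ s then P.p i else 0)

open Classical in
private theorem PS_spec (P : PtData F al E) (s : Finset ι) (v : E) :
    (∀ i, P.mu i (PS P s v) = 0) ∧ ∀ i, P.p i (PS P s v) = if i ∈ s then P.p i v else 0 := by
  have h : ∀ i, (LinearMap.pi (fun i => if i ∈ s then P.p i else 0) v : ∀ i, W i) i =
      if i ∈ s then P.p i v else 0 := by
    intro i
    rw [LinearMap.pi_apply]
    split_ifs <;> simp
  have := ad_ex P (w := LinearMap.pi (fun i => if i ∈ s then P.p i else 0) v) (by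
    intro i
    rw [h]
    split_ifs
    · exact P.p_tan i v
    · rw [map_zero, mul_zero]) (by
    intro i
    rw [h]
    split_ifs
    · exact P.p_orth i v
    · rw [map_zero])
  refine ⟨this.2.1, fun i => ?_⟩
  rw [← h]
  exact this.2.2 i

private theorem ad_KK {i : ι} (h : al i ≠ 0) : kA F al i ∈ KK F al := by
  classical
  unfold KK
  exact Finset.mem_image.2 ⟨i, Finset.mem_filter.2 ⟨Finset.mem_univ i, h⟩, rfl⟩

open Classical in
private noncomputable def bl (F : ∀ i, SF (W i)) (al : ι → ℝ) (κ : ℝ) : Finset ι :=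
  Finset.univ.filter (fun i => al i ≠ 0 ∧ kA F al i = κ)

private theorem mem_bl {i : ι} {κ : ℝ} : i ∈ bl F al κ ↔ al i ≠ 0 ∧ kA F al i = κ := by
  unfold bl
  rw [Finset.mem_filter]
  exact and_iff_right (Finset.mem_univ i)

open Classical in
private noncomputable def ro (al : ι → ℝ) : Finset ι := Finset.univ.filter (fun i => al i ≠ 0)

private theorem mem_ro {i : ι} : i ∈ ro al ↔ al i ≠ 0 := by
  unfold ro
  rw [Finset.mem_filter]
  exact and_iff_right (Finset.mem_univ i)

/-- The projections. -/
private noncomputable def pj (P : PtData F al E) : Option (KK F al) → (E →ₗ[ℝ] E)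
  | none => LinearMap.id - PS P (ro al)
  | some κ => PS P (bl F al κ)

private theorem mu_some (P : PtData F al E) (κ : KK F al) (v : E) (i : ι) :
    P.mu i (pj P (some κ) v) = 0 := (PS_spec P _ v).1 i

private theorem p_some (P : PtData F al E) (κ : KK F al) (v : E) {i : ι} (h : al i ≠ 0)
    (hk : kA F al i = κ) : P.p i (pj P (some κ) v) = P.p i v := by
  classical
  have h1 := (PS_spec P (bl F al κ) v).2 i
  rw [if_pos (mem_bl.2 ⟨h, hk⟩)] at h1
  exact h1

private theorem p_some' (P : PtData F al E) (κ : KK F al) (v : E) {i : ι}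
    (h : ¬(al i ≠ 0 ∧ kA F al i = κ)) : P.p i (pj P (some κ) v) = 0 := by
  classical
  have h1 := (PS_spec P (bl F al κ) v).2 i
  rw [if_neg (fun hh => h (mem_bl.1 hh))] at h1
  exact h1

private theorem mu_none (P : PtData F al E) (v : E) (i : ι) :
    P.mu i (pj P none v) = P.mu i v := by
  unfold pj
  rw [LinearMap.sub_apply, LinearMap.id_apply, map_sub, (PS_spec P _ v).1 i, sub_zero]

private theorem p_none (P : PtData F al E) (v : E) {i : ι} (h : al i ≠ 0) :
    P.p i (pj P none v) = 0 := by
  classical
  unfold pj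
  rw [LinearMap.sub_apply, LinearMap.id_apply, map_sub, (PS_spec P _ v).2 i,
    if_pos (mem_ro.2 h), sub_self]

private theorem p_none' (P : PtData F al E) (v : E) {i : ι} (h : al i = 0) :
    P.p i (pj P none v) = P.p i v := by
  classical
  unfold pj
  rw [LinearMap.sub_apply, LinearMap.id_apply, map_sub, (PS_spec P _ v).2 i,
    if_neg (fun hh => mem_ro.1 hh h), sub_zero]

private theorem pj_sum (P : PtData F al E) (v : E) : ∑ o, pj P o v = v := by
  classical
  rw [Fintype.sum_option]
  refine P.ext_pmu ?_ ?_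
  · intro i
    rw [map_add, map_sum]
    by_cases h : al i = 0
    · rw [p_none' P v h, Finset.sum_eq_zero, add_zero]
      intro κ _
      exact p_some' P κ v (fun hh => hh.1 h)
    · rw [p_none P v h, zero_add, Finset.sum_eq_single (⟨kA F al i, ad_KK h⟩ : KK F al)]
      · exact p_some P _ v h rfl
      · intro κ _ hκ
        exact p_some' P κ v (fun hh => hκ (Subtype.ext hh.2.symm))
      · intro hn
        exact (hn (Finset.mem_univ _)).elim
  · intro i
    rw [map_add, map_sum, mu_none, Finset.sum_eq_zero, add_zero]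
    intro κ _
    exact mu_some P κ v i

private theorem pj_self (P : PtData F al E) (o : Option (KK F al)) (v : E) :
    pj P o (pj P o v) = pj P o v := by
  refine P.ext_pmu ?_ ?_
  · intro i
    rcases o with _ | κ
    · by_cases h : al i = 0
      · rw [p_none' P _ h]
      · rw [p_none P _ h, p_none P _ h]
    · by_cases h : al i ≠ 0 ∧ kA F al i = κ
      · rw [p_some P κ _ h.1 h.2]
      · rw [p_some' P κ _ h, p_some' P κ _ h]
  · intro i
    rcases o with _ | κ
    · rw [mu_none]
    · rw [mu_some, mu_some]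

private theorem pj_ne (P : PtData F al E) {o o' : Option (KK F al)} (ho : o ≠ o') (v : E) :
    pj P o (pj P o' v) = 0 := by
  refine P.ext_pmu ?_ ?_
  · intro i
    rw [map_zero]
    rcases o with _ | κ
    · rcases o' with _ | κ'
      · exact (ho rfl).elim
      · by_cases h : al i = 0
        · rw [p_none' P _ h, p_some' P κ' _ (fun hh => hh.1 h)]
        · rw [p_none P _ h]
    · by_cases h : al i ≠ 0 ∧ kA F al i = κ
      · rw [p_some P κ _ h.1 h.2]
        rcases o' with _ | κ'
        · rw [p_none P _ h.1]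
        · refine p_some' P κ' _ (fun hh => ho ?_)
          congr 1
          exact Subtype.ext (h.2.symm.trans hh.2)
      · rw [p_some' P κ _ h]
  · intro i
    rw [map_zero]
    rcases o with _ | κ
    · rcases o' with _ | κ'
      · exact (ho rfl).elim
      · rw [mu_none, mu_some]
    · rw [mu_some]

/-- The decomposition of `E`. -/
private noncomputable def dec (P : PtData F al E) :
    E ≃ₗ[ℝ] (∀ o : Option (KK F al), LinearMap.range (pj P o)) where
  toFun v o := ⟨pj P o v, LinearMap.mem_range_self _ v⟩
  map_add' v w := by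
    funext o
    exact Subtype.ext (map_add (pj P o) v w)
  map_smul' k v := by
    funext o
    exact Subtype.ext (map_smul (pj P o) k v)
  invFun u := ∑ o, (u o : E)
  left_inv v := pj_sum P v
  right_inv u := by
    funext o
    apply Subtype.ext
    show pj P o (∑ o', (u o' : E)) = u o
    rw [map_sum, Finset.sum_eq_single o]
    · obtain ⟨v, hv⟩ := (u o).2
      rw [← hv, pj_self]
    · intro o' _ ho'
      obtain ⟨v, hv⟩ := (u o').2
      rw [← hv, pj_ne P ho'.symm]
    · intro hn
      exact (hn (Finset.mem_univ _)).elim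

/-- The two functionals which define the tangent part orthogonal to the normal. -/
private noncomputable def LL (P : PtData F al E) (i : ι) : W i →ₗ[ℝ] ℝ × ℝ :=
  ((F i).k • ((F i).B (P.x i)).toLinearMap).prod ((F i).B (P.n i)).toLinearMap

private theorem mem_LL (P : PtData F al E) (i : ι) (w : W i) :
    w ∈ LinearMap.ker (LL P i) ↔
      (F i).k * (F i).B (P.x i) w = 0 ∧ (F i).B (P.n i) w = 0 := by
  rw [LinearMap.mem_ker]
  unfold LL
  rw [LinearMap.prod_apply, Prod.mk_eq_zero]
  rfl

private theorem finrank_LL (P : PtData F al E) {i : ι} (h : al i ≠ 0) :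
    Module.finrank ℝ (LinearMap.ker (LL P i)) =
      Module.finrank ℝ (W i) - if (F i).k = 0 then 1 else 2 := by
  have h1 := LinearMap.finrank_range_add_finrank_ker (LL P i)
  have hnn := P.nn i
  by_cases hk : (F i).k = 0
  · rw [if_pos hk]
    have h2 : Module.finrank ℝ (LinearMap.range (LL P i)) = 1 := by
      have h3 : LinearMap.range (LL P i) = Submodule.span ℝ {((0 : ℝ), (1 : ℝ))} := by
        apply le_antisymm
        · rintro _ ⟨w, rfl⟩
          rw [Submodule.mem_span_singleton]
          refine ⟨(F i).B (P.n i) w, ?_⟩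
          unfold LL
          rw [LinearMap.prod_apply]
          ext
          · show (F i).B (P.n i) w * 0 = (F i).k * (F i).B (P.x i) w
            rw [hk, mul_zero, zero_mul]
          · show (F i).B (P.n i) w * 1 = (F i).B (P.n i) w
            rw [mul_one]
        · rw [Submodule.span_singleton_le_iff_mem]
          refine ⟨(al i)⁻¹ • P.n i, ?_⟩
          unfold LL
          rw [LinearMap.prod_apply]
          ext
          · show (F i).k * (F i).B (P.x i) ((al i)⁻¹ • P.n i) = 0
            rw [hk, zero_mul]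
          · show (F i).B (P.n i) ((al i)⁻¹ • P.n i) = 1
            rw [map_smul, hnn, smul_eq_mul, inv_mul_cancel₀ h]
      rw [h3]
      exact finrank_span_singleton (by
        intro h0
        have := congrArg Prod.snd h0
        exact one_ne_zero this)
    omega
  · rw [if_neg hk]
    have hxx := P.pt i hk
    have hxn : (F i).B (P.x i) (P.n i) = 0 := by
      have := P.tan i
      exact (mul_eq_zero.1 this).resolve_left hk
    have hnx : (F i).B (P.n i) (P.x i) = 0 := by rw [(F i).symm, hxn]
    have h2 : Module.finrank ℝ (LinearMap.range (LL P i)) = 2 := by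
      have h3 : LinearMap.range (LL P i) = ⊤ := by
        rw [eq_top_iff]
        rintro ⟨a, b⟩ -
        refine ⟨a • P.x i + ((al i)⁻¹ * b) • P.n i, ?_⟩
        unfold LL
        rw [LinearMap.prod_apply]
        ext
        · show (F i).k * (F i).B (P.x i) (a • P.x i + ((al i)⁻¹ * b) • P.n i) = a
          rw [map_add, map_smul, map_smul, hxn, smul_zero, add_zero, smul_eq_mul]
          rw [show (F i).k * (a * (F i).B (P.x i) (P.x i)) =
            a * ((F i).k * (F i).B (P.x i) (P.x i)) by ring, hxx, mul_one]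
        · show (F i).B (P.n i) (a • P.x i + ((al i)⁻¹ * b) • P.n i) = b
          rw [map_add, map_smul, map_smul, hnx, hnn, smul_zero, zero_add, smul_eq_mul]
          field_simp
      rw [h3, finrank_top, Module.finrank_prod, Module.finrank_self]
    omega

private theorem finrank_some (P : PtData F al E) (κ : KK F al) :
    Module.finrank ℝ (LinearMap.range (pj P (some κ))) = dm F al κ := by
  classical
  have hmem : ∀ (v : LinearMap.range (pj P (some κ))) (i : bl F al κ),
      P.p i (v : E) ∈ LinearMap.ker (LL P (i : ι)) := fun v i =>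
    (mem_LL P _ _).2 ⟨P.p_tan _ _, P.p_orth _ _⟩
  let f : LinearMap.range (pj P (some κ)) →ₗ[ℝ]
      (∀ i : bl F al κ, LinearMap.ker (LL P (i : ι))) :=
    { toFun := fun v i => ⟨P.p i (v : E), hmem v i⟩
      map_add' := fun v w => by
        funext i
        exact Subtype.ext (map_add (P.p i) _ _)
      map_smul' := fun k v => by
        funext i
        exact Subtype.ext (map_smul (P.p i) _ _) }
  have hf : Function.Bijective f := by
    constructor
    · intro v w hvw
      obtain ⟨v, v', rfl⟩ := v
      obtain ⟨w, w', rfl⟩ := w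
      apply Subtype.ext
      refine P.ext_pmu ?_ ?_
      · intro i
        by_cases h : al i ≠ 0 ∧ kA F al i = κ
        · exact congrArg Subtype.val (congrFun hvw ⟨i, mem_bl.2 h⟩)
        · show P.p i (pj P (some κ) v') = P.p i (pj P (some κ) w')
          rw [p_some' P κ _ h, p_some' P κ _ h]
      · intro i
        show P.mu i (pj P (some κ) v') = P.mu i (pj P (some κ) w')
        rw [mu_some, mu_some]
    · intro u
      let w : ∀ i, W i := fun i => if h : i ∈ bl F al κ then (u ⟨i, h⟩ : W i) else 0
      have hw : ∀ i (h : i ∈ bl F al κ), w i = (u ⟨i, h⟩ : W i) := fun i h => dif_pos h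
      have hw' : ∀ i (h : i ∉ bl F al κ), w i = 0 := fun i h => dif_neg h
      have h1 := ad_ex P (w := w) (by
        intro i
        by_cases h : i ∈ bl F al κ
        · rw [hw i h]
          exact ((mem_LL P _ _).1 (u ⟨i, h⟩).2).1
        · rw [hw' i h, map_zero, mul_zero]) (by
        intro i
        by_cases h : i ∈ bl F al κ
        · rw [hw i h]
          exact ((mem_LL P _ _).1 (u ⟨i, h⟩).2).2
        · rw [hw' i h, map_zero])
      have h2 : pj P (some κ) (P.Ainv w) = P.Ainv w := by
        refine P.ext_pmu ?_ ?_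
        · intro i
          by_cases h : al i ≠ 0 ∧ kA F al i = κ
          · rw [p_some P κ _ h.1 h.2]
          · rw [p_some' P κ _ h, h1.2.2, hw' i (fun hh => h (mem_bl.1 hh))]
        · intro i
          rw [mu_some, h1.2.1]
      refine ⟨⟨P.Ainv w, P.Ainv w, h2⟩, ?_⟩
      funext i
      apply Subtype.ext
      show P.p i (P.Ainv w) = u i
      rw [h1.2.2, hw i i.2]
  rw [(LinearEquiv.ofBijective f hf).finrank_eq, Module.finrank_pi_fintype]
  rw [show dm F al κ = ∑ i ∈ bl F al κ,
    (Module.finrank ℝ (W i) - if (F i).k = 0 then 1 else 2) from rfl]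
  exact (Finset.sum_congr rfl fun (i : bl F al κ) _ => finrank_LL P (mem_bl.1 i.2).1).trans
    (Finset.sum_coe_sort (bl F al κ)
      (fun i => Module.finrank ℝ (W i) - if (F i).k = 0 then 1 else 2))

private theorem pj_S (P : PtData F al E) {S : E →ₗ[ℝ] E} (hS : ∀ v i, P.A (S v) i = -P.q i v)
    (v : E) : pj P none (S v) = 0 := by
  refine P.ext_pmu ?_ ?_
  · intro i
    rw [map_zero]
    by_cases h : al i = 0
    · rw [p_none' P _ h, P.p_S hS, P.q_zero h, neg_zero]
    · rw [p_none P _ h]
  · intro i
    rw [map_zero, mu_none, P.mu_S hS]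

private theorem pj_D_none (P : PtData F al E) (a b : ℝ → ℝ) (v : E) :
    pj P none (P.D (fun i => if al i = 0 then 1 else a (kA F al i)) (fun i => b (kA F al i)) v) =
      pj P none v := by
  refine P.ext_pmu ?_ ?_
  · intro i
    by_cases h : al i = 0
    · rw [p_none' P _ h, p_none' P _ h, P.p_D, P.q_zero h, smul_zero, add_zero, if_pos h, one_smul]
    · rw [p_none P _ h, p_none P _ h]
  · intro i
    rw [mu_none, mu_none, P.mu_D]

private theorem pj_D_some (P : PtData F al E) {S : E →ₗ[ℝ] E}
    (hS : ∀ v i, P.A (S v) i = -P.q i v) (a b : ℝ → ℝ) (κ : KK F al) (v : E) :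
    pj P (some κ)
      (P.D (fun i => if al i = 0 then 1 else a (kA F al i)) (fun i => b (kA F al i)) v) =
      a κ • pj P (some κ) v - b κ • pj P (some κ) (S v) := by
  refine P.ext_pmu ?_ ?_
  · intro i
    rw [map_sub, map_smul, map_smul]
    by_cases h : al i ≠ 0 ∧ kA F al i = κ
    · rw [p_some P κ _ h.1 h.2, p_some P κ _ h.1 h.2, p_some P κ _ h.1 h.2, P.p_D, P.p_S hS,
        if_neg h.1, h.2, smul_neg, sub_neg_eq_add]
    · rw [p_some' P κ _ h, p_some' P κ _ h, p_some' P κ _ h, smul_zero, smul_zero, sub_zero]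
  · intro i
    rw [map_sub, map_smul, map_smul, mu_some, mu_some, mu_some, smul_zero, smul_zero, sub_zero]

theorem adapted (P : PtData F al E) (S : E →ₗ[ℝ] E) (hS : ∀ v i, P.A (S v) i = -P.q i v) :
    ∃ (R : Type) (_ : Fintype R) (_ : DecidableEq R) (blk : R → Option (KK F al))
      (bas : Module.Basis R ℝ E),
      (∀ κ : KK F al, (Finset.univ.filter (fun r => blk r = some κ)).card = dm F al κ) ∧
      (∀ r c, blk r = none → LinearMap.toMatrix bas bas S r c = 0) ∧
      (∀ (a b : ℝ → ℝ) (r c : R),
        LinearMap.toMatrix bas bas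
          (P.D (fun i => if al i = 0 then 1 else a (kA F al i)) (fun i => b (kA F al i))) r c =
        (blk r).elim (if r = c then 1 else 0)
          (fun κ => a κ * (if r = c then 1 else 0) - b κ * LinearMap.toMatrix bas bas S r c)) := by
  classical
  let s : ∀ o : Option (KK F al),
      Module.Basis (Fin (Module.finrank ℝ (LinearMap.range (pj P o)))) ℝ
        (LinearMap.range (pj P o)) := fun o => Module.finBasis ℝ _
  let bas : Module.Basis (Σ o : Option (KK F al), Fin (Module.finrank ℝ (LinearMap.range (pj P o))))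
      ℝ E := (Pi.basis s).map (dec P).symm
  have hrep : ∀ (v : E) (r : Σ o : Option (KK F al),
      Fin (Module.finrank ℝ (LinearMap.range (pj P o)))),
      bas.repr v r = (s r.1).repr ⟨pj P r.1 v, LinearMap.mem_range_self _ v⟩ r.2 := by
    intro v r
    show ((Pi.basis s).map (dec P).symm).repr v r = _
    rw [Module.Basis.map_repr, LinearEquiv.trans_apply, Pi.basis_repr]
    rfl
  refine ⟨_, inferInstance, inferInstance, Sigma.fst, bas, ?_, ?_, ?_⟩
  · intro κ
    rw [← finrank_some P κ]
    have h : (Finset.univ.filter (fun r : Σ o : Option (KK F al),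
        Fin (Module.finrank ℝ (LinearMap.range (pj P o))) => r.1 = some κ)) =
        Finset.univ.map (Function.Embedding.sigmaMk (some κ)) := by
      ext r
      rw [Finset.mem_filter, Finset.mem_map]
      constructor
      · rintro ⟨-, hr⟩
        obtain ⟨o, j⟩ := r
        obtain rfl : o = some κ := hr
        exact ⟨j, Finset.mem_univ _, rfl⟩
      · rintro ⟨j, -, rfl⟩
        exact ⟨Finset.mem_univ _, rfl⟩
    rw [h, Finset.card_map, Finset.card_univ, Fintype.card_fin]
  · rintro ⟨o, j⟩ c hr
    obtain rfl : o = none := hr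
    rw [LinearMap.toMatrix_apply, hrep]
    have h0 : (⟨pj P none (S (bas c)), LinearMap.mem_range_self _ _⟩ :
        LinearMap.range (pj P none)) = 0 := Subtype.ext (pj_S P hS _)
    show (s none).repr ⟨pj P none (S (bas c)), LinearMap.mem_range_self _ _⟩ j = 0
    rw [h0, map_zero, Finsupp.zero_apply]
  · rintro a b ⟨o, j⟩ c
    have hself : bas.repr (bas c) ⟨o, j⟩ = if (⟨o, j⟩ : Σ o : Option (KK F al),
        Fin (Module.finrank ℝ (LinearMap.range (pj P o)))) = c then 1 else 0 := by
      rw [Module.Basis.repr_self, Finsupp.single_apply]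
      by_cases h : c = ⟨o, j⟩
      · rw [if_pos h, if_pos h.symm]
      · rw [if_neg h, if_neg (fun hh => h hh.symm)]
    rw [LinearMap.toMatrix_apply, LinearMap.toMatrix_apply, ← hself, hrep, hrep, hrep]
    rcases o with _ | κ
    · show (s none).repr ⟨pj P none _, LinearMap.mem_range_self _ _⟩ j =
        (s none).repr ⟨pj P none _, LinearMap.mem_range_self _ _⟩ j
      congr 2
      exact Subtype.ext (pj_D_none P a b _)
    · show (s (some κ)).repr ⟨pj P (some κ) _, LinearMap.mem_range_self _ _⟩ j =
        a κ * (s (some κ)).repr ⟨pj P (some κ) _, LinearMap.mem_range_self _ _⟩ j -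
        b κ * (s (some κ)).repr ⟨pj P (some κ) _, LinearMap.mem_range_self _ _⟩ j
      have h1 : (⟨pj P (some κ) (P.D (fun i => if al i = 0 then 1 else a (kA F al i))
          (fun i => b (kA F al i)) (bas c)), LinearMap.mem_range_self _ _⟩ :
          LinearMap.range (pj P (some κ))) =
          a κ • ⟨pj P (some κ) (bas c), LinearMap.mem_range_self _ _⟩ -
          b κ • ⟨pj P (some κ) (S (bas c)), LinearMap.mem_range_self _ _⟩ :=
        Subtype.ext (pj_D_some P hS a b κ _)
      rw [h1, map_sub, map_smul, map_smul, Finsupp.sub_apply, Finsupp.smul_apply,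
        Finsupp.smul_apply, smul_eq_mul, smul_eq_mul]

end Pool.Agent.CPC
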