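import Mathlib

/-!
# Hypersurfaces with constant principal curvatures in products of space forms: definitions (helper50)

A space form is modelled by a hyperquadric: `SF W` is a curvature `k` and a symmetric bilinear form
`B` on a finite-dimensional space `W`; points are the `x` in `W` with `k * B x x = 1` (no condition
if `k = 0`), the tangent space at `x` is `{v : k * B x v = 0}`, on which `B` is positive definite.
For `k > 0` this is the sphere, for `k < 0` hyperbolic space (in Minkowski space), for `k = 0`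
Euclidean space.  The Levi-Civita derivative is `D_v Y + k * B (Y, v) x`.
-/

namespace Pool.Agent.CPC

open scoped BigOperators ContDiff

/-- Model of a space form of curvature `k` in the vector space `W`. -/
structure SF (W : Type*) [NormedAddCommGroup W] [NormedSpace ℝ W] where
  /-- the curvature -/
  k : ℝ
  /-- the bilinear form -/
  B : W →L[ℝ] W →L[ℝ] ℝ
  symm : ∀ x y, B x y = B y x
  pos : ∀ x, (k ≠ 0 → k * B x x = 1) → ∀ v, k * B x v = 0 → v ≠ 0 → 0 < B v v

section
variable {ι : Type*} [Fintype ι] {W : ι → Type*} [∀ i, NormedAddCommGroup (W i)]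
  [∀ i, NormedSpace ℝ (W i)] {E : Type*} [NormedAddCommGroup E] [NormedSpace ℝ E]

/-- `x` is a point of the product of the space forms. -/
def IsPt (F : ∀ i, SF (W i)) (x : ∀ i, W i) : Prop :=
  ∀ i, (F i).k ≠ 0 → (F i).k * (F i).B (x i) (x i) = 1

/-- `w` is tangent to the product at `x`. -/
def IsTan (F : ∀ i, SF (W i)) (x w : ∀ i, W i) : Prop :=
  ∀ i, (F i).k * (F i).B (x i) (w i) = 0

/-- the metric of the product. -/
noncomputable def ip (F : ∀ i, SF (W i)) (w z : ∀ i, W i) : ℝ := ∑ i, (F i).B (w i) (z i)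

/-- `X : E → ∏ W i` restricted to the open set `U` is a parametrised hypersurface of the product of
the space forms `F i`, with unit normal field `ξ`. -/
structure IsHyp (F : ∀ i, SF (W i)) (U : Set E) (X ξ : E → ∀ i, W i) : Prop where
  op : IsOpen U
  smX : ContDiffOn ℝ ∞ X U
  smN : ContDiffOn ℝ ∞ ξ U
  pt : ∀ u ∈ U, IsPt F (X u)
  inj : ∀ u ∈ U, Function.Injective (fderiv ℝ X u)
  tan : ∀ u ∈ U, IsTan F (X u) (ξ u)
  unit : ∀ u ∈ U, ip F (ξ u) (ξ u) = 1
  orth : ∀ u ∈ U, ∀ v, ip F (ξ u) (fderiv ℝ X u v) = 0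
  codim : ∀ u ∈ U, ∀ w, IsTan F (X u) w → ip F (ξ u) w = 0 → ∃ v, fderiv ℝ X u v = w

/-- `S` is the shape operator at `u`: `dX (S v) = -(covariant derivative of ξ along v)`. -/
def IsShape (F : ∀ i, SF (W i)) (X ξ : E → ∀ i, W i) (u : E) (S : E →ₗ[ℝ] E) : Prop :=
  ∀ v i, fderiv ℝ X u (S v) i =
    -(fderiv ℝ ξ u v i + ((F i).k * (F i).B (ξ u i) (fderiv ℝ X u v i)) • X u i)

/-- Constant principal curvatures: the characteristic polynomial of the shape operator is the same
at all points. -/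
def ConstPC [FiniteDimensional ℝ E] (F : ∀ i, SF (W i)) (U : Set E) (X ξ : E → ∀ i, W i) : Prop :=
  ∃ P : Polynomial ℝ, ∀ u ∈ U, ∃ S : E →ₗ[ℝ] E, IsShape F X ξ u S ∧ S.charpoly = P

/-- Constant angles: the lengths of the components of the normal in the factors are constant. -/
def ConstAngle (F : ∀ i, SF (W i)) (U : Set E) (ξ : E → ∀ i, W i) : Prop :=
  ∀ i, ∀ u ∈ U, ∀ u' ∈ U, (F i).B (ξ u i) (ξ u i) = (F i).B (ξ u' i) (ξ u' i)

/-- the solution of `c'' = -κ c`, `c(0) = 1`, `c'(0) = 0`. -/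
noncomputable def cF (κ t : ℝ) : ℝ :=
  if 0 < κ then Real.cos (Real.sqrt κ * t)
  else if κ < 0 then Real.cosh (Real.sqrt (-κ) * t) else 1

/-- the solution of `s'' = -κ s`, `s(0) = 0`, `s'(0) = 1`. -/
noncomputable def sF (κ t : ℝ) : ℝ :=
  if 0 < κ then Real.sin (Real.sqrt κ * t) / Real.sqrt κ
  else if κ < 0 then Real.sinh (Real.sqrt (-κ) * t) / Real.sqrt (-κ) else t

/-- `k_i |ξ_i|²`. -/
noncomputable def kap (F : ∀ i, SF (W i)) (ξ : E → ∀ i, W i) (u : E) (i : ι) : ℝ :=
  (F i).k * (F i).B (ξ u i) (ξ u i)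

/-- the parallel hypersurface at distance `t`: `exp (t ξ)` (the geodesic of the factor `i` starting
at `x` with velocity `v` is `cF (k |v|²) t x + sF (k |v|²) t v`). -/
noncomputable def parX (F : ∀ i, SF (W i)) (X ξ : E → ∀ i, W i) (t : ℝ) : E → ∀ i, W i :=
  fun u i => cF (kap F ξ u i) t • X u i + sF (kap F ξ u i) t • ξ u i

/-- the normal of the parallel hypersurface: the velocity of the normal geodesics. -/
noncomputable def parN (F : ∀ i, SF (W i)) (X ξ : E → ∀ i, W i) (t : ℝ) : E → ∀ i, W i :=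
  fun u i => (-(kap F ξ u i * sF (kap F ξ u i) t)) • X u i + cF (kap F ξ u i) t • ξ u i

/-- Isoparametric: the hypersurface and all its nearby parallel hypersurfaces have constant mean
curvature (`h t` is the mean curvature of the parallel hypersurface at distance `t`). -/
def Isoparametric (F : ∀ i, SF (W i)) (U : Set E) (X ξ : E → ∀ i, W i) : Prop :=
  ∃ h : ℝ → ℝ, ∀ u₀ ∈ U, ∃ ε > 0, ∀ᶠ u in nhds u₀, ∀ t : ℝ, |t| < ε →
    Function.Injective (fderiv ℝ (parX F X ξ t) u) ∧
    ∃ S : E →ₗ[ℝ] E, IsShape F (parX F X ξ t) (parN F X ξ t) u S ∧ LinearMap.trace ℝ E S = h t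

/-! ### Linear algebra at one point (not used in the statement of the theorem) -/

/-- First order data of a hypersurface with constant angles at one point: position `x`, normal `n`,
`A = dX`, `N = dξ`; `al i = |n i|²`. -/
structure PtData (F : ∀ i, SF (W i)) (al : ι → ℝ) (E : Type*) [NormedAddCommGroup E]
    [NormedSpace ℝ E] where
  x : ∀ i, W i
  n : ∀ i, W i
  A : E →ₗ[ℝ] (∀ i, W i)
  N : E →ₗ[ℝ] (∀ i, W i)
  pt : IsPt F x
  tan : IsTan F x n
  unit : ∑ i, al i = 1
  nn : ∀ i, (F i).B (n i) (n i) = al i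
  Atan : ∀ v, IsTan F x (A v)
  cross : ∀ v i, (F i).k * ((F i).B (n i) (A v i) + (F i).B (x i) (N v i)) = 0
  ang : ∀ v i, (F i).B (n i) (N v i) = 0
  zero : ∀ i, al i = 0 → ∀ v, N v i = 0
  orth : ∀ v, ip F n (A v) = 0
  inj : Function.Injective A
  surj : ∀ w, IsTan F x w → ip F n w = 0 → ∃ v, A v = w
  selfadj : ∀ v w, ip F (N v) (A w) = ip F (N w) (A v)

/-- `κ i = k i * |n i|²`. -/
noncomputable def kA (F : ∀ i, SF (W i)) (al : ι → ℝ) (i : ι) : ℝ := (F i).k * al i

namespace PtData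
variable {F : ∀ i, SF (W i)} {al : ι → ℝ}

/-- the coefficient of `n i` in `A v i`. -/
noncomputable def mu (P : PtData F al E) (i : ι) : E →ₗ[ℝ] ℝ :=
  (al i)⁻¹ • (((F i).B (P.n i)).toLinearMap ∘ₗ (LinearMap.proj i ∘ₗ P.A))

/-- the part of `A v i` orthogonal to `n i`. -/
noncomputable def p (P : PtData F al E) (i : ι) : E →ₗ[ℝ] W i :=
  LinearMap.proj i ∘ₗ P.A - (P.mu i).smulRight (P.n i)

/-- `N v i + k B(n i, A v i) x i`, minus the `i`-th component of the shape operator. -/
noncomputable def q (P : PtData F al E) (i : ι) : E →ₗ[ℝ] W i :=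
  LinearMap.proj i ∘ₗ P.N + (kA F al i • P.mu i).smulRight (P.x i)

/-- `T a b v i = a i p_i v + b i q_i v + mu_i v n_i`. -/
noncomputable def T (P : PtData F al E) (a b : ι → ℝ) : E →ₗ[ℝ] (∀ i, W i) :=
  LinearMap.pi fun i => a i • P.p i + b i • P.q i + (P.mu i).smulRight (P.n i)

/-- a left inverse of `A`. -/
noncomputable def Ainv (P : PtData F al E) : (∀ i, W i) →ₗ[ℝ] E :=
  (LinearMap.exists_leftInverse_of_injective P.A (LinearMap.ker_eq_bot.2 P.inj)).choose

/-- the operator `D a b` of `E` with `A (D a b v) = T a b v`. -/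
noncomputable def D (P : PtData F al E) (a b : ι → ℝ) : E →ₗ[ℝ] E := P.Ainv ∘ₗ P.T a b

/-- `det D`, the arguments being functions of `κ` (and `a = 1` where `al i = 0`). -/
noncomputable def G (P : PtData F al E) (a b : ℝ → ℝ) : ℝ :=
  LinearMap.det (P.D (fun i => if al i = 0 then 1 else a (kA F al i)) (fun i => b (kA F al i)))

end PtData

open Classical in
/-- the set of the `κ i` with `al i ≠ 0`. -/
noncomputable def KK (F : ∀ i, SF (W i)) (al : ι → ℝ) : Finset ℝ :=
  (Finset.univ.filter (fun i => al i ≠ 0)).image (kA F al)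

open Classical in
/-- the dimension of the block `κ`. -/
noncomputable def dm (F : ∀ i, SF (W i)) (al : ι → ℝ) (κ : ℝ) : ℕ :=
  ∑ i ∈ Finset.univ.filter (fun i => al i ≠ 0 ∧ kA F al i = κ),
    (Module.finrank ℝ (W i) - if (F i).k = 0 then 1 else 2)

open Classical in
/-- the total weight of the block `κ`. -/
noncomputable def Aw (F : ∀ i, SF (W i)) (al : ι → ℝ) (κ : ℝ) : ℝ :=
  ∑ i ∈ Finset.univ.filter (fun i => al i ≠ 0 ∧ kA F al i = κ), al i

end

/-! ### The polynomials (not used in the statement of the theorem) -/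

/-- a square root of `-κ`, positive for `κ < 0`, in the upper half plane for `κ > 0`. -/
noncomputable def om (κ : ℝ) : ℂ :=
  if κ < 0 then ((Real.sqrt (-κ) : ℝ) : ℂ) else Complex.I * ((Real.sqrt κ : ℝ) : ℂ)

/-- first weight coordinate. -/
noncomputable def u1 (κ a b : ℝ) : ℂ := if κ = 0 then (b : ℂ) else (a : ℂ) + om κ * b

/-- second weight coordinate. -/
noncomputable def u2 (κ a b : ℝ) : ℂ := if κ = 0 then (a : ℂ) else (a : ℂ) - om κ * b

/-- multihomogeneous polynomial of multidegree `d` with coefficients `h` in weight coordinates. -/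
noncomputable def Pol (K : Finset ℝ) (d : ℝ → ℕ) (h : (K → ℕ) → ℂ) (a b : ℝ → ℝ) : ℂ :=
  ∑ β ∈ Fintype.piFinset (fun κ : K => Finset.range (d κ + 1)),
    h β * ∏ κ : K, (u1 κ (a κ) (b κ) ^ β κ * u2 κ (a κ) (b κ) ^ (d κ - β κ))

/-- first component of the rotation `R_τ`. -/
noncomputable def rotA (τ a b : ℝ → ℝ) : ℝ → ℝ :=
  fun κ => cF κ (τ κ) * a κ - κ * sF κ (τ κ) * b κ

/-- second component of the rotation `R_τ`. -/
noncomputable def rotB (τ a b : ℝ → ℝ) : ℝ → ℝ :=
  fun κ => sF κ (τ κ) * a κ + cF κ (τ κ) * b κ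

/-- `h` solves the linear identity `P (R_τ (lam, 1)) = χ lam * P (R_τ (1, 0))` for `τ` in the
hyperplane orthogonal to the weights `w`, with `P (1, 0) = 1`. -/
def Sol (K : Finset ℝ) (d : ℝ → ℕ) (w : ℝ → ℝ) (χ : ℝ → ℂ) (h : (K → ℕ) → ℂ) : Prop :=
  Pol K d h (fun _ => 1) (fun _ => 0) = 1 ∧
  ∀ τ : ℝ → ℝ, (∑ κ ∈ K, τ κ * w κ = 0) → ∀ᶠ s : ℝ in nhds 0, ∀ lam : ℝ,
    Pol K d h (rotA (fun κ => s * τ κ) (fun _ => lam) (fun _ => 1))
        (rotB (fun κ => s * τ κ) (fun _ => lam) (fun _ => 1)) =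
      χ lam * Pol K d h (rotA (fun κ => s * τ κ) (fun _ => 1) (fun _ => 0))
        (rotB (fun κ => s * τ κ) (fun _ => 1) (fun _ => 0))

end Pool.Agent.CPC
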