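import Mathlib

/-!
# Independence of exponential polynomials, generic vectors (helper50)

* `exp_ind`: the sum is an entire (analytic) function of `s`, zero near `0` on the real line, so it is
  zero for all real `s` (and complex `s`).  Induction on `∑_{μ ∈ T} (natDegree (p μ) + 1)`: if some
  `p μ₀ ≠ 0`, multiply by `exp (-μ₀ s)` and differentiate: the polynomial of `μ₀` becomes its
  derivative (degree drops, or it disappears), the polynomial of `μ ≠ μ₀` becomes
  `(μ - μ₀) p μ + (p μ)'`, which has the same degree and is nonzero iff `p μ ≠ 0`.  (All values of the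
  derivative are again zero near `0`.)
* `exists_generic`: the kernels of the finitely many nonzero real-linear maps are proper subspaces of
  a real vector space (infinite field), so their union is not everything
  (`Subspace.biUnion_ne_univ_of_top_notMem` or similar).
-/

namespace Pool.Agent.CPC

open scoped BigOperators

/-- the measure of a polynomial -/
private noncomputable def ms (q : Polynomial ℂ) : ℕ := by
  classical exact if q = 0 then 0 else q.natDegree + 1

private lemma ms_zero : ms 0 = 0 := by simp [ms]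

private lemma ms_pos {q : Polynomial ℂ} (h : q ≠ 0) : ms q = q.natDegree + 1 := by simp [ms, h]

private lemma ms_derivative_le (q : Polynomial ℂ) : ms (Polynomial.derivative q) ≤ ms q - 1 := by
  by_cases hq : q = 0
  · subst hq; simp [ms_zero]
  by_cases hd : Polynomial.derivative q = 0
  · rw [hd, ms_zero]; exact Nat.zero_le _
  · rw [ms_pos hq, ms_pos hd]
    have : q.natDegree ≠ 0 := by
      intro h0
      rw [Polynomial.natDegree_eq_zero] at h0
      obtain ⟨c, rfl⟩ := h0
      simp at hd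
    have := Polynomial.natDegree_derivative_lt this
    omega

private lemma deg_twist {c : ℂ} (hc : c ≠ 0) {q : Polynomial ℂ} (hq : q ≠ 0) :
    (Polynomial.C c * q + Polynomial.derivative q).degree = q.degree := by
  rw [Polynomial.degree_add_eq_left_of_degree_lt, Polynomial.degree_C_mul hc]
  rw [Polynomial.degree_C_mul hc]
  exact Polynomial.degree_derivative_lt hq

private lemma twist_ne {c : ℂ} (hc : c ≠ 0) {q : Polynomial ℂ} (hq : q ≠ 0) :
    Polynomial.C c * q + Polynomial.derivative q ≠ 0 := by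
  intro h
  have := deg_twist hc hq
  rw [h, Polynomial.degree_zero] at this
  exact hq (Polynomial.degree_eq_bot.1 this.symm)

private lemma ms_twist {c : ℂ} (hc : c ≠ 0) (q : Polynomial ℂ) :
    ms (Polynomial.C c * q + Polynomial.derivative q) = ms q := by
  by_cases hq : q = 0
  · subst hq; simp [ms_zero]
  · rw [ms_pos hq, ms_pos (twist_ne hc hq), Polynomial.natDegree_eq_of_degree_eq (deg_twist hc hq)]

private lemma hasDeriv_term (c : ℂ) (q : Polynomial ℂ) (s : ℝ) :
    HasDerivAt (fun s : ℝ => Complex.exp (c * s) * q.eval (s : ℂ))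
      (Complex.exp (c * s) * (Polynomial.C c * q + Polynomial.derivative q).eval (s : ℂ)) s := by
  have h1 : HasDerivAt (fun z : ℂ => Complex.exp (c * z)) (Complex.exp (c * s) * (c * 1)) (s : ℂ) :=
    ((hasDerivAt_id (s : ℂ)).const_mul c).cexp
  have h2 := h1.mul (q.hasDerivAt (s : ℂ))
  have h3 := h2.comp_ofReal
  refine h3.congr_deriv ?_
  simp only [Polynomial.eval_add, Polynomial.eval_mul, Polynomial.eval_C]
  ring

private lemma exp_ind_aux (T : Finset ℂ) : ∀ (N : ℕ) (p : ℂ → Polynomial ℂ),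
    ∑ μ ∈ T, ms (p μ) = N →
    (∀ᶠ s : ℝ in nhds 0, ∑ μ ∈ T, Complex.exp (μ * s) * (p μ).eval (s : ℂ) = 0) →
    ∀ μ ∈ T, p μ = 0 := by
  intro N
  induction N using Nat.strong_induction_on with
  | _ N ih =>
  intro p hN h
  by_contra hcon
  push Not at hcon
  obtain ⟨μ₀, hμ₀, hp₀⟩ := hcon
  set q : ℂ → Polynomial ℂ := fun μ => Polynomial.C (μ - μ₀) * p μ + Polynomial.derivative (p μ)
    with hq
  -- the shifted sum is eventually zero
  have hF : (fun s : ℝ => ∑ μ ∈ T, Complex.exp ((μ - μ₀) * s) * (p μ).eval (s : ℂ))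
      =ᶠ[nhds 0] fun _ => (0 : ℂ) := by
    filter_upwards [h] with s hs
    have : ∑ μ ∈ T, Complex.exp ((μ - μ₀) * s) * (p μ).eval (s : ℂ)
        = Complex.exp (-μ₀ * s) * ∑ μ ∈ T, Complex.exp (μ * s) * (p μ).eval (s : ℂ) := by
      rw [Finset.mul_sum]
      refine Finset.sum_congr rfl fun μ _ => ?_
      rw [← mul_assoc, ← Complex.exp_add]
      congr 2
      ring
    rw [this, hs, mul_zero]
  have hD : ∀ s : ℝ, deriv (fun s : ℝ => ∑ μ ∈ T, Complex.exp ((μ - μ₀) * s) * (p μ).eval (s : ℂ)) s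
      = ∑ μ ∈ T, Complex.exp ((μ - μ₀) * s) * (q μ).eval (s : ℂ) := by
    intro s
    exact (HasDerivAt.fun_sum fun μ _ => hasDeriv_term (μ - μ₀) (p μ) s).deriv
  have hF' := hF.deriv
  have hq0 : ∀ᶠ s : ℝ in nhds 0, ∑ μ ∈ T, Complex.exp (μ * s) * (q μ).eval (s : ℂ) = 0 := by
    filter_upwards [hF'] with s hs
    rw [hD s, deriv_const] at hs
    have : ∑ μ ∈ T, Complex.exp (μ * s) * (q μ).eval (s : ℂ)
        = Complex.exp (μ₀ * s) * ∑ μ ∈ T, Complex.exp ((μ - μ₀) * s) * (q μ).eval (s : ℂ) := by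
      rw [Finset.mul_sum]
      refine Finset.sum_congr rfl fun μ _ => ?_
      rw [← mul_assoc, ← Complex.exp_add]
      congr 2
      ring
    rw [this, hs, mul_zero]
  have hle : ∀ μ ∈ T, ms (q μ) ≤ ms (p μ) := by
    intro μ _
    by_cases hμ : μ = μ₀
    · have : q μ = Polynomial.derivative (p μ) := by simp [hq, hμ]
      rw [this]
      exact (ms_derivative_le _).trans (Nat.sub_le _ _)
    · exact (ms_twist (sub_ne_zero.2 hμ) (p μ)).le
  have hlt : ms (q μ₀) < ms (p μ₀) := by
    have : q μ₀ = Polynomial.derivative (p μ₀) := by simp [hq]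
    rw [this]
    have h1 := ms_derivative_le (p μ₀)
    have h2 := ms_pos hp₀
    omega
  have hsum : ∑ μ ∈ T, ms (q μ) < N := by
    rw [← hN]
    exact Finset.sum_lt_sum hle ⟨μ₀, hμ₀, hlt⟩
  have hall := ih _ hsum q rfl hq0
  have hother : ∀ μ ∈ T, μ ≠ μ₀ → p μ = 0 := by
    intro μ hμ hne
    by_contra hp
    exact twist_ne (sub_ne_zero.2 hne) hp (hall μ hμ)
  have hd0 : Polynomial.derivative (p μ₀) = 0 := by
    have := hall μ₀ hμ₀
    simpa [hq] using this
  obtain ⟨c, hc⟩ : ∃ c, p μ₀ = Polynomial.C c :=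
    ⟨_, Polynomial.eq_C_of_derivative_eq_zero hd0⟩
  have h0 := h.self_of_nhds
  rw [Finset.sum_eq_single μ₀] at h0
  · rw [hc] at h0
    simp at h0
    apply hp₀
    rw [hc, h0, Polynomial.C_0]
  · intro μ hμ hne
    rw [hother μ hμ hne]
    simp
  · intro hn
    exact absurd hμ₀ hn

theorem exp_ind (T : Finset ℂ) (p : ℂ → Polynomial ℂ)
    (h : ∀ᶠ s : ℝ in nhds 0, ∑ μ ∈ T, Complex.exp (μ * s) * (p μ).eval (s : ℂ) = 0) :
    ∀ μ ∈ T, p μ = 0 :=
  exp_ind_aux T _ p rfl h

theorem exists_generic {V J : Type*} [AddCommGroup V] [Module ℝ V] (s : Finset J)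
    (f : J → V →ₗ[ℝ] ℂ) (hf : ∀ j ∈ s, f j ≠ 0) : ∃ v, ∀ j ∈ s, f j v ≠ 0 := by
  classical
  have hs : (⊤ : Submodule ℝ V) ∉ s.image (fun j => LinearMap.ker (f j)) := by
    intro h
    rw [Finset.mem_image] at h
    obtain ⟨j, hj, hk⟩ := h
    exact hf j hj (LinearMap.ker_eq_top.1 hk)
  have h := Subspace.biUnion_ne_univ_of_top_notMem hs
  by_contra hcon
  push Not at hcon
  apply h
  rw [Set.eq_univ_iff_forall]
  intro v
  obtain ⟨j, hj, hv⟩ := hcon v
  rw [Set.mem_iUnion₂]
  exact ⟨LinearMap.ker (f j), Finset.mem_image_of_mem _ hj, hv⟩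

end Pool.Agent.CPC
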