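import Pool.Agent.CPC.Def

/-!
# Point data of a hypersurface with constant angles (helper50)

Put `x = X u`, `n = ξ u`, `A = fderiv ℝ X u`, `N = fderiv ℝ ξ u` (as linear maps).  All fields are
obtained by differentiating identities which hold on the open set `U` (`X`, `ξ` are smooth on `U`,
`B` is a continuous bilinear map, evaluation at `i` is continuous linear):
* `pt`, `tan`, `orth`, `inj`, `surj`: fields of `IsHyp`; `unit`: `h.unit`, `ha`; `nn`: `ha`.
* `Atan`: if `k ≠ 0` differentiate `k B(X, X) = 1`: `2 k B(X, dX v) = 0`; if `k = 0` trivial.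
* `cross`: differentiate `k B(X, ξ) = 0` (`h.tan`).
* `ang`: differentiate `B(ξ_i, ξ_i) = al i`.
* `zero`: if `al i = 0` then `ξ u' i = 0` for all `u' ∈ U` (otherwise `pos` gives `B(ξ,ξ) > 0`), so
  the derivative of `ξ_i` is zero.
* `selfadj`: for a constant vector `w` the function `u ↦ ∑ B(ξ_i, (fderiv X u w)_i)` vanishes on `U`
  (`h.orth`); differentiating in direction `v`:
  `∑ B((dξ v)_i, (dX w)_i) + ∑ B(ξ_i, (D²X (v, w))_i) = 0`, and `D²X` is symmetric
  (`second_derivative_symmetric` / `ContDiffAt.isSymmSndFDerivAt`).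
-/

namespace Pool.Agent.CPC

open scoped BigOperators

variable {ι : Type*} [Fintype ι] {W : ι → Type*} [∀ i, NormedAddCommGroup (W i)]
  [∀ i, NormedSpace ℝ (W i)] {E : Type*} [NormedAddCommGroup E] [NormedSpace ℝ E]
  {F : ∀ i, SF (W i)}

omit [Fintype ι] in
/-- the derivative of a bilinear expression which is locally constant -/
theorem bil_const {V : Type*} [NormedAddCommGroup V] [NormedSpace ℝ V] (B : V →L[ℝ] V →L[ℝ] ℝ)
    {f g : E → V} {f' g' : E →L[ℝ] V} {u : E} (hf : HasFDerivAt f f' u) (hg : HasFDerivAt g g' u)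
    {k c : ℝ} (hc : ∀ᶠ u' in nhds u, k * B (f u') (g u') = c) (v : E) :
    k * (B (f' v) (g u) + B (f u) (g' v)) = 0 := by
  have h1 := (B.hasFDerivAt_of_bilinear hf hg).const_mul k
  have h2 : (fun u' => k * B (f u') (g u')) =ᶠ[nhds u] fun _ => c := hc
  have h3 := h1.congr_of_eventuallyEq h2.symm
  have h4 := h3.unique (hasFDerivAt_const c u)
  have h5 := congrArg (fun T : E →L[ℝ] ℝ => T v) h4
  simp only [ContinuousLinearMap.smul_apply, ContinuousLinearMap.add_apply,
    ContinuousLinearMap.precompR_apply, ContinuousLinearMap.precompL_apply, smul_eq_mul,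
    ContinuousLinearMap.zero_apply] at h5
  rw [add_comm] at h5
  exact h5

theorem hyp_comp {X : E → ∀ i, W i} {u : E} (hX : DifferentiableAt ℝ X u) (i : ι) :
    HasFDerivAt (fun u' => X u' i)
      ((ContinuousLinearMap.proj (R := ℝ) (φ := W) i).comp (fderiv ℝ X u)) u :=
  (ContinuousLinearMap.proj (R := ℝ) (φ := W) i).hasFDerivAt.comp u hX.hasFDerivAt

theorem hyp_selfadj {U : Set E} {X ξ : E → ∀ i, W i} (h : IsHyp F U X ξ) {u : E} (hu : u ∈ U)
    (v w : E) : ip F (fderiv ℝ ξ u v) (fderiv ℝ X u w) +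
      ip F (ξ u) (fderiv ℝ (fderiv ℝ X) u v w) = 0 := by
  have hU : U ∈ nhds u := h.op.mem_nhds hu
  have hN : DifferentiableAt ℝ ξ u := (h.smN.contDiffAt hU).differentiableAt (by simp)
  have hX2 : DifferentiableAt ℝ (fderiv ℝ X) u := by
    have h1 : ContDiffAt ℝ 1 (fderiv ℝ X) u :=
      (h.smX.contDiffAt hU).fderiv_right (m := 1) (by
        show ((2 : ℕ∞) : WithTop ℕ∞) ≤ _
        exact WithTop.coe_le_coe.2 le_top)
    exact h1.differentiableAt one_ne_zero
  have hg : ∀ i, HasFDerivAt (fun u' => fderiv ℝ X u' w i)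
      ((ContinuousLinearMap.proj (R := ℝ) (φ := W) i).comp
        ((ContinuousLinearMap.apply ℝ (∀ i, W i) w).comp (fderiv ℝ (fderiv ℝ X) u))) u := by
    intro i
    exact (ContinuousLinearMap.proj (R := ℝ) (φ := W) i).hasFDerivAt.comp u
      ((ContinuousLinearMap.apply ℝ (∀ i, W i) w).hasFDerivAt.comp u hX2.hasFDerivAt)
  have h1 : HasFDerivAt (fun u' => ∑ i, (F i).B (ξ u' i) (fderiv ℝ X u' w i))
      (∑ i, ((F i).B.precompR E (ξ u i) ((ContinuousLinearMap.proj (R := ℝ) (φ := W) i).comp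
        ((ContinuousLinearMap.apply ℝ (∀ i, W i) w).comp (fderiv ℝ (fderiv ℝ X) u))) +
        (F i).B.precompL E ((ContinuousLinearMap.proj (R := ℝ) (φ := W) i).comp
          (fderiv ℝ ξ u)) (fderiv ℝ X u w i))) u :=
    HasFDerivAt.fun_sum fun i _ => (F i).B.hasFDerivAt_of_bilinear (hyp_comp hN i) (hg i)
  have h2 : (fun u' => ∑ i, (F i).B (ξ u' i) (fderiv ℝ X u' w i)) =ᶠ[nhds u] fun _ => (0 : ℝ) := by
    filter_upwards [hU] with u' hu'
    exact h.orth u' hu' w
  have h3 := h1.congr_of_eventuallyEq h2.symm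
  have h4 := h3.unique (hasFDerivAt_const (0 : ℝ) u)
  have h5 := congrArg (fun T : E →L[ℝ] ℝ => T v) h4
  simp only [ContinuousLinearMap.sum_apply, ContinuousLinearMap.add_apply,
    ContinuousLinearMap.precompR_apply, ContinuousLinearMap.precompL_apply,
    ContinuousLinearMap.zero_apply, Finset.sum_add_distrib, ContinuousLinearMap.comp_apply,
    ContinuousLinearMap.proj_apply, ContinuousLinearMap.apply_apply] at h5
  rw [add_comm] at h5
  exact h5

theorem ptData_of_hyp {U : Set E} {X ξ : E → ∀ i, W i} (h : IsHyp F U X ξ) (al : ι → ℝ)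
    (ha : ∀ u ∈ U, ∀ i, (F i).B (ξ u i) (ξ u i) = al i) (u : E) (hu : u ∈ U) :
    ∃ P : PtData F al E, P.x = X u ∧ P.n = ξ u ∧ (∀ v, P.A v = fderiv ℝ X u v) ∧
      (∀ v, P.N v = fderiv ℝ ξ u v) := by
  have hU : U ∈ nhds u := h.op.mem_nhds hu
  have hX : DifferentiableAt ℝ X u := (h.smX.contDiffAt hU).differentiableAt (by simp)
  have hN : DifferentiableAt ℝ ξ u := (h.smN.contDiffAt hU).differentiableAt (by simp)
  have hsymm : ∀ v w, fderiv ℝ (fderiv ℝ X) u v w = fderiv ℝ (fderiv ℝ X) u w v := by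
    intro v w
    have h1 : IsSymmSndFDerivAt ℝ X u :=
      (h.smX.contDiffAt hU).isSymmSndFDerivAt (by
        rw [minSmoothness_of_isRCLikeNormedField]
        show ((2 : ℕ∞) : WithTop ℕ∞) ≤ _
        exact WithTop.coe_le_coe.2 le_top)
    exact h1.eq v w
  refine ⟨
    { x := X u
      n := ξ u
      A := (fderiv ℝ X u).toLinearMap
      N := (fderiv ℝ ξ u).toLinearMap
      pt := h.pt u hu
      tan := h.tan u hu
      unit := ?_
      nn := ha u hu
      Atan := ?_
      cross := ?_
      ang := ?_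
      zero := ?_
      orth := h.orth u hu
      inj := h.inj u hu
      surj := h.codim u hu
      selfadj := ?_ }, rfl, rfl, fun _ => rfl, fun _ => rfl⟩
  · rw [← h.unit u hu]
    exact Finset.sum_congr rfl fun i _ => (ha u hu i).symm
  · intro v i
    show (F i).k * (F i).B (X u i) (fderiv ℝ X u v i) = 0
    by_cases hk : (F i).k = 0
    · rw [hk, zero_mul]
    · have h1 := bil_const (F i).B (hyp_comp hX i) (hyp_comp hX i) (k := (F i).k) (c := 1) (by
        filter_upwards [hU] with u' hu'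
        exact h.pt u' hu' i hk) v
      simp only [ContinuousLinearMap.comp_apply, ContinuousLinearMap.proj_apply] at h1
      rw [(F i).symm (fderiv ℝ X u v i) (X u i)] at h1
      linarith
  · intro v i
    show (F i).k * ((F i).B (ξ u i) (fderiv ℝ X u v i) + (F i).B (X u i) (fderiv ℝ ξ u v i)) = 0
    have h1 := bil_const (F i).B (hyp_comp hX i) (hyp_comp hN i) (k := (F i).k) (c := 0) (by
      filter_upwards [hU] with u' hu'
      exact h.tan u' hu' i) v
    simp only [ContinuousLinearMap.comp_apply, ContinuousLinearMap.proj_apply] at h1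
    rw [(F i).symm (fderiv ℝ X u v i) (ξ u i)] at h1
    exact h1
  · intro v i
    show (F i).B (ξ u i) (fderiv ℝ ξ u v i) = 0
    have h1 := bil_const (F i).B (hyp_comp hN i) (hyp_comp hN i) (k := 1) (c := al i) (by
      filter_upwards [hU] with u' hu'
      rw [one_mul]
      exact ha u' hu' i) v
    simp only [ContinuousLinearMap.comp_apply, ContinuousLinearMap.proj_apply] at h1
    rw [(F i).symm (fderiv ℝ ξ u v i) (ξ u i)] at h1
    linarith
  · intro i hi v
    show fderiv ℝ ξ u v i = 0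
    have h1 : (fun u' => ξ u' i) =ᶠ[nhds u] fun _ => 0 := by
      filter_upwards [hU] with u' hu'
      by_contra hne
      have := (F i).pos (X u' i) (h.pt u' hu' i) (ξ u' i) (h.tan u' hu' i) hne
      rw [ha u' hu' i, hi] at this
      exact lt_irrefl _ this
    have h3 := (hyp_comp hN i).congr_of_eventuallyEq h1.symm
    have h4 := h3.unique (hasFDerivAt_const (0 : W i) u)
    exact congrArg (fun T : E →L[ℝ] W i => T v) h4
  · intro v w
    show ip F (fderiv ℝ ξ u v) (fderiv ℝ X u w) = ip F (fderiv ℝ ξ u w) (fderiv ℝ X u v)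
    have h1 := hyp_selfadj h hu v w
    have h2 := hyp_selfadj h hu w v
    rw [hsymm v w] at h1
    linarith

end Pool.Agent.CPC
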