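import Pool.Agent.CPC.PtBasic
import Pool.Agent.CPC.PtOf

/-!
# The vector field of a flat direction (helper50)

Let `u ∈ U`, `P` the point data at `u` (`ptData_of_hyp`).  The vector `w i = τ i • ξ u i` is tangent
(`tan`) and orthogonal to `n`: `∑ B(n i, τ i n i) = ∑ τ i al i = 0`; so there is a unique `v(u)` with
`dX v(u) = w`.  Then `mu i v = τ i` if `al i ≠ 0` (`n i = 0` if `al i = 0`), so `p i v = 0` for all
`i`, so `q i v = 0` (`shape_ker`), i.e. `dξ v i = -(kA i * mu i v) x i = -(kA i * τ i) x i` (`kA i = 0`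
if `al i = 0`).
Smoothness near `u₀`: let `L₀ : (∏ W i) →L E` be a left inverse of the injective map
`A₀ = fderiv ℝ X u₀` (finite dimension of `E`; e.g. `ContinuousLinearMap.exists_leftInverse_of_injective`
or a projection).  `u ↦ L₀ ∘ fderiv ℝ X u ∈ E →L E` is smooth near `u₀` and equal to `1` at `u₀`, so
near `u₀` it is invertible and `u ↦ (L₀ ∘ fderiv ℝ X u)⁻¹ (L₀ (fun i => τ i • ξ u i))` is smooth at
`u₀` (`contDiffAt_map_inverse` / `ContinuousLinearMap.inverse`); define `v` by this formula; for `u`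
near `u₀` it is the `v(u)` above, because `L₀ dX (v(u)) = L₀ w`.
-/

namespace Pool.Agent.CPC

open scoped BigOperators ContDiff

variable {ι : Type*} [Fintype ι] {W : ι → Type*} [∀ i, NormedAddCommGroup (W i)]
  [∀ i, NormedSpace ℝ (W i)] [∀ i, FiniteDimensional ℝ (W i)] {E : Type*} [NormedAddCommGroup E]
  [NormedSpace ℝ E] [FiniteDimensional ℝ E] {F : ∀ i, SF (W i)}

theorem flow_field {U : Set E} {X ξ : E → ∀ i, W i} (h : IsHyp F U X ξ) (al : ι → ℝ)
    (ha : ∀ u ∈ U, ∀ i, (F i).B (ξ u i) (ξ u i) = al i) (u₀ : E) (hu : u₀ ∈ U)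
    (τ : ι → ℝ) (hτ : ∑ i, τ i * al i = 0) :
    ∃ v : E → E, ContDiffAt ℝ ∞ v u₀ ∧ ∀ᶠ u in nhds u₀, u ∈ U ∧
      (∀ i, fderiv ℝ X u (v u) i = τ i • ξ u i) ∧
      (∀ i, fderiv ℝ ξ u (v u) i = (-(kA F al i * τ i)) • X u i) := by
  have hcomp : CompleteSpace E := FiniteDimensional.complete ℝ E
  -- a left inverse of the differential at `u₀`
  obtain ⟨L, hL⟩ := LinearMap.exists_leftInverse_of_injective
    ((fderiv ℝ X u₀ : E →L[ℝ] (∀ i, W i)) : E →ₗ[ℝ] (∀ i, W i))
    (LinearMap.ker_eq_bot.2 (h.inj u₀ hu))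
  obtain ⟨L₀, hL₀⟩ : ∃ L₀ : (∀ i, W i) →L[ℝ] E, ∀ w, L₀ w = L w :=
    ⟨LinearMap.toContinuousLinearMap L, fun _ => rfl⟩
  have hXs : ContDiffAt ℝ ∞ X u₀ := h.smX.contDiffAt (h.op.mem_nhds hu)
  have hNs : ContDiffAt ℝ ∞ ξ u₀ := h.smN.contDiffAt (h.op.mem_nhds hu)
  have hdX : ContDiffAt ℝ ∞ (fderiv ℝ X) u₀ := hXs.fderiv_right (by simp)
  obtain ⟨M, hM⟩ : ∃ M : E → (E →L[ℝ] E), M = fun u => L₀.comp (fderiv ℝ X u) := ⟨_, rfl⟩
  have hMs : ContDiffAt ℝ ∞ M u₀ := by
    rw [hM]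
    exact contDiffAt_const.clm_comp hdX
  have hM0 : M u₀ = ((ContinuousLinearEquiv.refl ℝ E : E ≃L[ℝ] E) : E →L[ℝ] E) := by
    rw [hM]
    ext x
    show L₀ (fderiv ℝ X u₀ x) = x
    rw [hL₀]
    exact LinearMap.congr_fun hL x
  obtain ⟨v, hv⟩ : ∃ v : E → E, v = fun u =>
    ContinuousLinearMap.inverse (M u) (L₀ (fun i => τ i • ξ u i)) := ⟨_, rfl⟩
  refine ⟨v, ?_, ?_⟩
  · rw [hv]
    have h1 : ContDiffAt ℝ ∞ (fun u => ContinuousLinearMap.inverse (M u)) u₀ := by
      have h2 : ContDiffAt ℝ ∞ (ContinuousLinearMap.inverse (R := ℝ) (M := E) (M₂ := E)) (M u₀) := by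
        rw [hM0]
        exact contDiffAt_map_inverse _
      exact h2.comp u₀ hMs
    have h3 : ContDiffAt ℝ ∞ (fun u => L₀ (fun i => τ i • ξ u i)) u₀ := by
      refine L₀.contDiff.contDiffAt.comp u₀ ?_
      rw [contDiffAt_pi]
      intro i
      exact contDiffAt_const.smul (contDiffAt_pi.1 hNs i)
    exact h1.clm_apply h3
  · have hev : ∀ᶠ u in nhds u₀, M u ∈ Set.range ((↑) : (E ≃L[ℝ] E) → E →L[ℝ] E) := by
      have h1 : Set.range ((↑) : (E ≃L[ℝ] E) → E →L[ℝ] E) ∈ nhds (M u₀) := by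
        rw [hM0]
        exact ContinuousLinearEquiv.nhds _
      exact hMs.continuousAt h1
    filter_upwards [hev, h.op.mem_nhds hu] with u hu1 hu2
    refine ⟨hu2, ?_⟩
    obtain ⟨P, hPx, hPn, hPA, hPN⟩ := ptData_of_hyp h al ha u hu2
    -- the vector `v(u)`
    obtain ⟨v', hv'⟩ : ∃ v', fderiv ℝ X u v' = fun i => τ i • ξ u i := by
      refine h.codim u hu2 _ ?_ ?_
      · intro i
        have h1 := h.tan u hu2 i
        rw [map_smul, smul_eq_mul]
        calc (F i).k * (τ i * (F i).B (X u i) (ξ u i))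
            = τ i * ((F i).k * (F i).B (X u i) (ξ u i)) := by ring
          _ = 0 := by rw [h1, mul_zero]
      · unfold ip
        rw [← hτ]
        refine Finset.sum_congr rfl fun i _ => ?_
        rw [map_smul, smul_eq_mul, ha u hu2 i]
    have hvu : v u = v' := by
      obtain ⟨e, he⟩ := hu1
      have h1 : L₀ (fun i => τ i • ξ u i) = M u v' := by
        rw [hM, ← hv']
        rfl
      rw [hv]
      show ContinuousLinearMap.inverse (M u) (L₀ (fun i => τ i • ξ u i)) = v'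
      rw [h1, ← he, ContinuousLinearMap.inverse_equiv]
      simp
    rw [hvu]
    have hA : ∀ i, P.A v' i = τ i • P.n i := by
      intro i
      rw [hPA, hv', hPn]
    have hmu : ∀ i, al i ≠ 0 → P.mu i v' = τ i := by
      intro i hi
      have h1 := P.al_mu i v'
      rw [hA, map_smul, smul_eq_mul, P.nn] at h1
      have h2 : al i * (P.mu i v' - τ i) = 0 := by linarith
      rcases mul_eq_zero.1 h2 with h3 | h3
      · exact absurd h3 hi
      · linarith
    have hp : ∀ i, P.p i v' = 0 := by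
      intro i
      rw [P.p_apply, hA]
      by_cases hi : al i = 0
      · rw [P.n_zero hi, smul_zero, smul_zero, sub_zero]
      · rw [hmu i hi, sub_self]
    refine ⟨fun i => ?_, fun i => ?_⟩
    · rw [hv']
    · have h1 := P.shape_ker hp i
      rw [P.q_apply, hPN, hPx] at h1
      have h2 : kA F al i * P.mu i v' = kA F al i * τ i := by
        by_cases hi : al i = 0
        · unfold kA
          rw [hi]
          ring
        · rw [hmu i hi]
      rw [h2] at h1
      rw [neg_smul]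
      exact eq_neg_of_add_eq_zero_left h1

end Pool.Agent.CPC
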