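import Pool.Agent.CPC.Trig
import Pool.Agent.CPC.FlowField

/-!
# Moving along a flat direction (helper50)

Let `v` be the vector field of `flow_field` at `u₀`, valid on an open neighbourhood `O ⊆ U` of `u₀` on
which `v` is smooth.  Solve the autonomous ODE `(u, Ψ)' = (v u, (fderiv ℝ v u) ∘ Ψ)` in
`E × (E →L[ℝ] E)` with initial value `(u₀, 1)` (Picard-Lindelof:
`exists_forall_hasDerivAt_Ioo_eq_of_contDiffAt`, the right hand side is `C¹` near the initial value);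
for `|s| < ε` the curve `γ(s) = u` stays in `O`.
* `X_i(γ(s))' = τ i ξ_i(γ(s))`, `ξ_i(γ(s))' = -(κ i τ i) X_i(γ(s))` (chain rule and `flow_field`).
* For fixed `w : E` put `V_i(s) = (fderiv X (γ s) (Ψ(s) w))_i`, `Ξ_i(s) = (fderiv ξ (γ s) (Ψ(s) w))_i`.
  Then `V' = D²X (v, Ψ w) + dX (Dv (Ψ w))`; differentiating `dX_u (v u) = τ ξ_u` on `O` in the
  direction `Ψ w`: `D²X (Ψ w, v) + dX (Dv (Ψ w)) = τ dξ (Ψ w)`; `D²X` is symmetric, so
  `V_i' = τ i Ξ_i`; in the same way from `dξ_u (v u) = -κ τ X_u`: `Ξ_i' = -(κ i τ i) V_i`.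
* `rot_ode` for each pair gives all four formulas (`kA F al i = κ i`).
The conclusion is asked for `s` near `0` only.
-/

namespace Pool.Agent.CPC

open scoped BigOperators ContDiff

variable {ι : Type*} [Fintype ι] {W : ι → Type*} [∀ i, NormedAddCommGroup (W i)]
  [∀ i, NormedSpace ℝ (W i)] [∀ i, FiniteDimensional ℝ (W i)] {E : Type*} [NormedAddCommGroup E]
  [NormedSpace ℝ E] [FiniteDimensional ℝ E] {F : ∀ i, SF (W i)}

private theorem key {E G : Type*} [NormedAddCommGroup E] [NormedSpace ℝ E] [NormedAddCommGroup G]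
    [NormedSpace ℝ G] {A R : E → G} {v : E → E} {γ : ℝ → E} {Ψ : ℝ → E →L[ℝ] E} {s : ℝ}
    (hA : ContDiffAt ℝ 2 A (γ s)) (hv : DifferentiableAt ℝ v (γ s))
    (hR : ∀ᶠ u in nhds (γ s), fderiv ℝ A u (v u) = R u)
    (hγ : HasDerivAt γ (v (γ s)) s)
    (hΨ : HasDerivAt Ψ ((fderiv ℝ v (γ s)).comp (Ψ s)) s) (w : E) :
    HasDerivAt (fun s => fderiv ℝ A (γ s) (Ψ s w)) (fderiv ℝ R (γ s) (Ψ s w)) s := by
  have hA1 : DifferentiableAt ℝ (fderiv ℝ A) (γ s) :=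
    (hA.fderiv_right (m := 1) (by norm_num)).differentiableAt (by norm_num)
  have hsymm : IsSymmSndFDerivAt ℝ A (γ s) := hA.isSymmSndFDerivAt (by simp)
  have h1 : HasDerivAt (fun s => fderiv ℝ A (γ s))
      (fderiv ℝ (fderiv ℝ A) (γ s) (v (γ s))) s :=
    hA1.hasFDerivAt.comp_hasDerivAt s hγ
  have h2 : HasDerivAt (fun s => Ψ s w) (fderiv ℝ v (γ s) (Ψ s w)) s := by
    have := hΨ.clm_apply (hasDerivAt_const s w)
    simpa using this
  have h3 := h1.clm_apply h2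
  have h4 : fderiv ℝ R (γ s) (Ψ s w) = fderiv ℝ (fderiv ℝ A) (γ s) (Ψ s w) (v (γ s)) +
      fderiv ℝ A (γ s) (fderiv ℝ v (γ s) (Ψ s w)) := by
    have h5 : fderiv ℝ R (γ s) = fderiv ℝ (fun u => fderiv ℝ A u (v u)) (γ s) :=
      (Filter.EventuallyEq.fderiv_eq hR).symm
    rw [h5]
    have h6 := (hA1.hasFDerivAt.clm_apply hv.hasFDerivAt).fderiv
    rw [h6]
    simp [add_comm]
  rw [h4, hsymm.eq (Ψ s w) (v (γ s))]
  exact h3

private theorem field_contDiffAt {E : Type*} [NormedAddCommGroup E] [NormedSpace ℝ E]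
    {v : E → E} {u₀ : E} (hv : ContDiffAt ℝ 2 v u₀) (Ψ₀ : E →L[ℝ] E) :
    ContDiffAt ℝ 1 (fun q : E × (E →L[ℝ] E) => (v q.1, (fderiv ℝ v q.1).comp q.2)) (u₀, Ψ₀) := by
  have h1 : ContDiffAt ℝ 1 (fun q : E × (E →L[ℝ] E) => v q.1) (u₀, Ψ₀) :=
    ContDiffAt.comp (u₀, Ψ₀) (g := v) (f := Prod.fst) (hv.of_le (by norm_num)) contDiffAt_fst
  have h2 : ContDiffAt ℝ 1 (fun q : E × (E →L[ℝ] E) => fderiv ℝ v q.1) (u₀, Ψ₀) :=
    ContDiffAt.comp (u₀, Ψ₀) (g := fderiv ℝ v) (f := Prod.fst)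
      (hv.fderiv_right (m := 1) (by norm_num)) contDiffAt_fst
  exact h1.prodMk (h2.clm_comp contDiffAt_snd)

theorem flow {U : Set E} {X ξ : E → ∀ i, W i} (h : IsHyp F U X ξ) (al : ι → ℝ)
    (ha : ∀ u ∈ U, ∀ i, (F i).B (ξ u i) (ξ u i) = al i) (u₀ : E) (hu : u₀ ∈ U)
    (τ : ι → ℝ) (hτ : ∑ i, τ i * al i = 0) :
    ∀ᶠ s : ℝ in nhds 0, ∃ u' ∈ U, ∃ Ψ : E →ₗ[ℝ] E,
      (∀ i, X u' i = cF (kA F al i) (s * τ i) • X u₀ i + sF (kA F al i) (s * τ i) • ξ u₀ i) ∧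
      (∀ i, ξ u' i = (-(kA F al i * sF (kA F al i) (s * τ i))) • X u₀ i +
        cF (kA F al i) (s * τ i) • ξ u₀ i) ∧
      (∀ v i, fderiv ℝ X u' (Ψ v) i = cF (kA F al i) (s * τ i) • fderiv ℝ X u₀ v i +
        sF (kA F al i) (s * τ i) • fderiv ℝ ξ u₀ v i) ∧
      (∀ v i, fderiv ℝ ξ u' (Ψ v) i = (-(kA F al i * sF (kA F al i) (s * τ i))) •
        fderiv ℝ X u₀ v i + cF (kA F al i) (s * τ i) • fderiv ℝ ξ u₀ v i) := by
  have : CompleteSpace E := FiniteDimensional.complete ℝ E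
  obtain ⟨v, hv, hev⟩ := flow_field h al ha u₀ hu τ hτ
  have hv2 : ContDiffAt ℝ 2 v u₀ := hv.of_le (WithTop.coe_le_coe.2 le_top)
  have hv2' : ∀ᶠ u in nhds u₀, ContDiffAt ℝ 2 v u := hv2.eventually (by simp)
  have hO := eventually_eventually_nhds.2 (hev.and hv2')
  obtain ⟨α, hα0, ε, hε, hα⟩ :=
    (field_contDiffAt hv2
      (ContinuousLinearMap.id ℝ E)).exists_forall_mem_closedBall_exists_eq_forall_mem_Ioo_hasDerivAt₀ 0
  -- the two components
  have hγ : ∀ s ∈ Set.Ioo (0 - ε) (0 + ε), HasDerivAt (fun s => (α s).1) (v (α s).1) s :=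
    fun s hs => (ContinuousLinearMap.fst ℝ E (E →L[ℝ] E)).hasFDerivAt.comp_hasDerivAt s (hα s hs)
  have hΨ : ∀ s ∈ Set.Ioo (0 - ε) (0 + ε), HasDerivAt (fun s => (α s).2)
      ((fderiv ℝ v (α s).1).comp (α s).2) s :=
    fun s hs => (ContinuousLinearMap.snd ℝ E (E →L[ℝ] E)).hasFDerivAt.comp_hasDerivAt s (hα s hs)
  have h0mem : (0 : ℝ) ∈ Set.Ioo (0 - ε) (0 + ε) := ⟨by linarith, by linarith⟩
  have hcont : Filter.Tendsto (fun s => (α s).1) (nhds 0) (nhds u₀) := by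
    have h1 : Filter.Tendsto (fun s => (α s).1) (nhds 0) (nhds (α 0).1) :=
      (hγ 0 h0mem).continuousAt
    rw [hα0] at h1
    exact h1
  have hev2 := (hcont.eventually hO).and (Ioo_mem_nhds h0mem.1 h0mem.2)
  obtain ⟨δ, hδ, hball⟩ := Metric.eventually_nhds_iff_ball.1 hev2
  have hgood : ∀ s : ℝ, |s| < δ → (∀ᶠ u in nhds (α s).1, (u ∈ U ∧
      (∀ i, fderiv ℝ X u (v u) i = τ i • ξ u i) ∧
      (∀ i, fderiv ℝ ξ u (v u) i = (-(kA F al i * τ i)) • X u i)) ∧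
      ContDiffAt ℝ 2 v u) ∧ s ∈ Set.Ioo (0 - ε) (0 + ε) := by
    intro s hs
    exact hball s (by rwa [Metric.mem_ball, Real.dist_eq, sub_zero])
  have hself : ∀ s : ℝ, |s| < δ → ((α s).1 ∈ U ∧
      (∀ i, fderiv ℝ X (α s).1 (v (α s).1) i = τ i • ξ (α s).1 i) ∧
      (∀ i, fderiv ℝ ξ (α s).1 (v (α s).1) i = (-(kA F al i * τ i)) • X (α s).1 i)) ∧
      ContDiffAt ℝ 2 v (α s).1 := fun s hs => (hgood s hs).1.self_of_nhds
  -- smoothness of X and ξ
  have hX2 : ∀ s : ℝ, |s| < δ → ContDiffAt ℝ 2 X (α s).1 := fun s hs =>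
    (h.smX.contDiffAt (h.op.mem_nhds (hself s hs).1.1)).of_le (WithTop.coe_le_coe.2 le_top)
  have hN2 : ∀ s : ℝ, |s| < δ → ContDiffAt ℝ 2 ξ (α s).1 := fun s hs =>
    (h.smN.contDiffAt (h.op.mem_nhds (hself s hs).1.1)).of_le (WithTop.coe_le_coe.2 le_top)
  -- the diagonal maps
  let L : (ι → ℝ) → ((∀ i, W i) →L[ℝ] (∀ i, W i)) := fun c =>
    ContinuousLinearMap.pi fun i => c i • ContinuousLinearMap.proj i
  have hL : ∀ c w i, L c w i = c i • w i := fun _ _ _ => rfl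
  have e1 : ∀ i, ∀ s, |s| < δ → HasDerivAt (fun s => X (α s).1 i) (τ i • ξ (α s).1 i) s := by
    intro i s hs
    have h1 : HasDerivAt (fun s => X (α s).1) (fderiv ℝ X (α s).1 (v (α s).1)) s :=
      ((hX2 s hs).differentiableAt (by norm_num)).hasFDerivAt.comp_hasDerivAt s
        (hγ s (hgood s hs).2)
    have h2 := (hasDerivAt_pi.1 h1) i
    rw [(hself s hs).1.2.1 i] at h2
    exact h2
  have e2 : ∀ i, ∀ s, |s| < δ → HasDerivAt (fun s => ξ (α s).1 i)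
      ((-(kA F al i * τ i)) • X (α s).1 i) s := by
    intro i s hs
    have h1 : HasDerivAt (fun s => ξ (α s).1) (fderiv ℝ ξ (α s).1 (v (α s).1)) s :=
      ((hN2 s hs).differentiableAt (by norm_num)).hasFDerivAt.comp_hasDerivAt s
        (hγ s (hgood s hs).2)
    have h2 := (hasDerivAt_pi.1 h1) i
    rw [(hself s hs).1.2.2 i] at h2
    exact h2
  have e3 : ∀ w i, ∀ s, |s| < δ → HasDerivAt (fun s => fderiv ℝ X (α s).1 ((α s).2 w) i)
      (τ i • fderiv ℝ ξ (α s).1 ((α s).2 w) i) s := by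
    intro w i s hs
    have h1 := key (A := X) (R := fun u => L τ (ξ u)) (v := v) (γ := fun s => (α s).1)
      (Ψ := fun s => (α s).2) (s := s) (hX2 s hs)
      ((hself s hs).2.differentiableAt (by norm_num))
      (by
        filter_upwards [(hgood s hs).1] with u hu
        funext i
        rw [hL]
        exact hu.1.2.1 i) (hγ s (hgood s hs).2) (hΨ s (hgood s hs).2) w
    have h2 : fderiv ℝ (fun u => L τ (ξ u)) (α s).1 = (L τ).comp (fderiv ℝ ξ (α s).1) :=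
      ((L τ).hasFDerivAt.comp (α s).1
        ((hN2 s hs).differentiableAt (by norm_num)).hasFDerivAt).fderiv
    beta_reduce at h1
    rw [h2] at h1
    exact (hasDerivAt_pi.1 h1) i
  have e4 : ∀ w i, ∀ s, |s| < δ → HasDerivAt (fun s => fderiv ℝ ξ (α s).1 ((α s).2 w) i)
      ((-(kA F al i * τ i)) • fderiv ℝ X (α s).1 ((α s).2 w) i) s := by
    intro w i s hs
    have h1 := key (A := ξ) (R := fun u => L (fun i => -(kA F al i * τ i)) (X u)) (v := v)
      (γ := fun s => (α s).1) (Ψ := fun s => (α s).2) (s := s) (hN2 s hs)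
      ((hself s hs).2.differentiableAt (by norm_num))
      (by
        filter_upwards [(hgood s hs).1] with u hu
        funext i
        rw [hL]
        exact hu.1.2.2 i) (hγ s (hgood s hs).2) (hΨ s (hgood s hs).2) w
    have h2 : fderiv ℝ (fun u => L (fun i => -(kA F al i * τ i)) (X u)) (α s).1 =
        (L fun i => -(kA F al i * τ i)).comp (fderiv ℝ X (α s).1) :=
      ((L fun i => -(kA F al i * τ i)).hasFDerivAt.comp (α s).1
        ((hX2 s hs).differentiableAt (by norm_num)).hasFDerivAt).fderiv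
    beta_reduce at h1
    rw [h2] at h1
    exact (hasDerivAt_pi.1 h1) i
  filter_upwards [Metric.ball_mem_nhds (0 : ℝ) hδ] with s hs
  rw [Metric.mem_ball, Real.dist_eq, sub_zero] at hs
  refine ⟨(α s).1, (hself s hs).1.1, ((α s).2 : E →ₗ[ℝ] E), ?_, ?_, ?_, ?_⟩
  · intro i
    have h1 := (rot_ode _ _ (kA F al i) (τ i) δ (e1 i) (e2 i) s hs).1
    beta_reduce at h1
    rw [hα0] at h1
    exact h1
  · intro i
    have h1 := (rot_ode _ _ (kA F al i) (τ i) δ (e1 i) (e2 i) s hs).2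
    beta_reduce at h1
    rw [hα0] at h1
    exact h1
  · intro w i
    have h1 := (rot_ode _ _ (kA F al i) (τ i) δ (e3 w i) (e4 w i) s hs).1
    beta_reduce at h1
    rw [hα0] at h1
    exact h1
  · intro w i
    have h1 := (rot_ode _ _ (kA F al i) (τ i) δ (e3 w i) (e4 w i) s hs).2
    beta_reduce at h1
    rw [hα0] at h1
    exact h1

end Pool.Agent.CPC
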