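import Pool.Agent.CPC.Def

/-!
# Linear algebra of point data (helper50)

Everything is at one point; `P : PtData F al E`, `x = P.x`, `n = P.n`, `A = P.A`, `N = P.N`.
* `al_nonneg`, `n_zero`: if `n i ≠ 0` then `B (n i) (n i) > 0` by `(F i).pos` applied to `x i`
  (point by `P.pt`) and `v = n i` (tangent by `P.tan`); so `al i ≥ 0`, and `al i = 0` gives
  `n i = 0`.
* `al_mu`: `al i * mu i v = B (n i) (A v i)` (if `al i = 0` then `n i = 0`);
  `kA_mu`: multiply by `k`.  `sum_mu`: `orth`.
* `p_apply`, `q_apply` unfold; `A_eq`: `A v i = p i v + mu i v • n i`.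
* `p_tan`: `k B(x, p) = k B(x, A v) - mu * k B(x, n) = 0`; `p_orth`: `B(n, p) = B(n, A v) - mu * al`;
  `q_tan`: `k B(x, q) = k B(x, N v) + kA * mu * (k B(x,x))`; by `cross` the first term is
  `- k B(n, A v) = - kA * mu`; if `k ≠ 0` then `k B(x,x) = 1`, if `k = 0` all is zero.
  `q_orth`: `B(n, N v) = 0` (`ang`) and `kA * B(n, x) = al * (k B(x, n)) = 0`.
* `q_zero`: if `al i = 0` then `N v i = 0` (field `zero`) and `kA = 0`.
* `A_D`: `T a b v` is tangent (`p_tan`, `q_tan`, `tan`) and orthogonal to `n`: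
  `∑ B(n i, T i) = ∑ mu i v * al i = 0` (`sum_mu`); so `T a b v = A w` by `surj`, and
  `D v = Ainv (A w) = w` (`Ainv` is a left inverse: use `.choose_spec`).
* `mu_D`: apply `B (n i)` to `A_D`, use `p_orth`, `q_orth`, divide by `al i` (if `al i = 0` both
  sides are zero, `mu` has the factor `(al i)⁻¹`).  `p_D` follows.
* `ext`: `A v = A w` by `A_eq`, `inj`.
* `exists_shape`: `-q v` is tangent and orthogonal, so it is `A w`; put `S = - Ainv ∘ q` (as a linear
  map, `LinearMap.pi P.q`).  `p_S`, `mu_S`: apply `B (n i)`.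
* `shape_ker`: let `p i v = 0` for all `i`, so `A v i = mu i v • n i`.  For every `w`
  `∑ B(A (S v) i, A w i) = -∑ B(q i v, A w i) = -∑ B(N v i, A w i) - ∑ kA * mu i v * B(x i, A w i)`;
  the last sum is zero (`kA B(x, A w) = al * (k B(x, A w)) = 0`), and by `selfadj`
  `∑ B(N v i, A w i) = ∑ B(N w i, A v i) = ∑ mu i v * B(N w i, n i) = 0` (`ang`, `symm`).
  With `w = S v`: `∑ B(A (S v) i, A (S v) i) = 0`, all terms are `≥ 0` and `> 0` unless
  `A (S v) i = 0` (`pos`, `Atan`), so `A (S v) = 0`, `S v = 0`; then `q i v = -A (S v) i = 0`.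
-/

namespace Pool.Agent.CPC

open scoped BigOperators

namespace PtData

variable {ι : Type*} [Fintype ι] {W : ι → Type*} [∀ i, NormedAddCommGroup (W i)]
  [∀ i, NormedSpace ℝ (W i)] {E : Type*} [NormedAddCommGroup E] [NormedSpace ℝ E]
  {F : ∀ i, SF (W i)} {al : ι → ℝ}

theorem al_nonneg (P : PtData F al E) (i : ι) : 0 ≤ al i := by
  rw [← P.nn i]
  by_cases h : P.n i = 0
  · rw [h]; simp
  · exact ((F i).pos (P.x i) (P.pt i) (P.n i) (P.tan i) h).le

theorem n_zero (P : PtData F al E) {i : ι} (h : al i = 0) : P.n i = 0 := by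
  by_contra hne
  have h1 := (F i).pos (P.x i) (P.pt i) (P.n i) (P.tan i) hne
  rw [P.nn i, h] at h1
  exact lt_irrefl _ h1

private theorem ptb_mu_apply (P : PtData F al E) (i : ι) (v : E) :
    P.mu i v = (al i)⁻¹ * (F i).B (P.n i) (P.A v i) := by
  simp [PtData.mu]

theorem al_mu (P : PtData F al E) (i : ι) (v : E) :
    al i * P.mu i v = (F i).B (P.n i) (P.A v i) := by
  rw [ptb_mu_apply]
  by_cases h : al i = 0
  · rw [P.n_zero h, h]; simp
  · field_simp

theorem kA_mu (P : PtData F al E) (i : ι) (v : E) :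
    kA F al i * P.mu i v = (F i).k * (F i).B (P.n i) (P.A v i) := by
  rw [kA, mul_assoc, P.al_mu]

theorem sum_mu (P : PtData F al E) (v : E) : ∑ i, al i * P.mu i v = 0 := by
  rw [← P.orth v, ip]
  exact Finset.sum_congr rfl fun i _ => P.al_mu i v

theorem p_apply (P : PtData F al E) (i : ι) (v : E) :
    P.p i v = P.A v i - P.mu i v • P.n i := by
  simp [PtData.p]

theorem q_apply (P : PtData F al E) (i : ι) (v : E) :
    P.q i v = P.N v i + (kA F al i * P.mu i v) • P.x i := by
  simp [PtData.q]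

theorem A_eq (P : PtData F al E) (i : ι) (v : E) :
    P.A v i = P.p i v + P.mu i v • P.n i := by
  rw [P.p_apply, sub_add_cancel]

theorem p_tan (P : PtData F al E) (i : ι) (v : E) :
    (F i).k * (F i).B (P.x i) (P.p i v) = 0 := by
  have h1 : (F i).k * (F i).B (P.x i) (P.A v i) = 0 := P.Atan v i
  have h2 : (F i).k * (F i).B (P.x i) (P.n i) = 0 := P.tan i
  rw [P.p_apply, map_sub, map_smul, smul_eq_mul]
  linear_combination h1 - P.mu i v * h2

theorem p_orth (P : PtData F al E) (i : ι) (v : E) : (F i).B (P.n i) (P.p i v) = 0 := by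
  rw [P.p_apply, map_sub, map_smul, smul_eq_mul, P.nn i, ← P.al_mu i v]
  ring

theorem q_tan (P : PtData F al E) (i : ι) (v : E) :
    (F i).k * (F i).B (P.x i) (P.q i v) = 0 := by
  have h1 := P.cross v i
  have h2 := P.kA_mu i v
  rw [P.q_apply, map_add, map_smul, smul_eq_mul]
  by_cases hk : (F i).k = 0
  · rw [hk]; ring
  · have h3 := P.pt i hk
    linear_combination h1 + h2 + kA F al i * P.mu i v * h3

theorem q_orth (P : PtData F al E) (i : ι) (v : E) : (F i).B (P.n i) (P.q i v) = 0 := by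
  have h2 : (F i).k * (F i).B (P.x i) (P.n i) = 0 := P.tan i
  rw [P.q_apply, map_add, map_smul, smul_eq_mul, P.ang v i, (F i).symm (P.n i) (P.x i), kA]
  linear_combination al i * P.mu i v * h2

theorem q_zero (P : PtData F al E) {i : ι} (h : al i = 0) (v : E) : P.q i v = 0 := by
  rw [P.q_apply, P.zero i h v, kA, h]
  simp

private theorem ptb_T_apply (P : PtData F al E) (a b : ι → ℝ) (v : E) (i : ι) :
    P.T a b v i = a i • P.p i v + b i • P.q i v + P.mu i v • P.n i := by
  simp [PtData.T]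

private theorem ptb_Ainv_A (P : PtData F al E) (v : E) : P.Ainv (P.A v) = v := by
  have h := (LinearMap.exists_leftInverse_of_injective P.A
    (LinearMap.ker_eq_bot.2 P.inj)).choose_spec
  have h2 := LinearMap.congr_fun h v
  simpa [PtData.Ainv] using h2

theorem A_D (P : PtData F al E) (a b : ι → ℝ) (v : E) (i : ι) :
    P.A (P.D a b v) i = a i • P.p i v + b i • P.q i v + P.mu i v • P.n i := by
  have htan : IsTan F P.x (P.T a b v) := by
    intro j
    have h1 := P.p_tan j v
    have h2 := P.q_tan j v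
    have h3 : (F j).k * (F j).B (P.x j) (P.n j) = 0 := P.tan j
    rw [ptb_T_apply, map_add, map_add, map_smul, map_smul, map_smul, smul_eq_mul, smul_eq_mul,
      smul_eq_mul]
    linear_combination a j * h1 + b j * h2 + P.mu j v * h3
  have horth : ip F P.n (P.T a b v) = 0 := by
    rw [ip, ← P.sum_mu v]
    refine Finset.sum_congr rfl fun j _ => ?_
    rw [ptb_T_apply, map_add, map_add, map_smul, map_smul, map_smul, smul_eq_mul, smul_eq_mul,
      smul_eq_mul, P.p_orth, P.q_orth, P.nn]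
    ring
  obtain ⟨w, hw⟩ := P.surj _ htan horth
  have hD : P.D a b v = w := by
    rw [PtData.D, LinearMap.comp_apply, ← hw, ptb_Ainv_A]
  rw [hD, hw, ptb_T_apply]

theorem mu_D (P : PtData F al E) (a b : ι → ℝ) (v : E) (i : ι) :
    P.mu i (P.D a b v) = P.mu i v := by
  by_cases h : al i = 0
  · rw [ptb_mu_apply, ptb_mu_apply, h]; simp
  · have h1 := P.al_mu i (P.D a b v)
    rw [P.A_D, map_add, map_add, map_smul, map_smul, map_smul, smul_eq_mul, smul_eq_mul,
      smul_eq_mul, P.p_orth, P.q_orth, P.nn] at h1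
    apply mul_left_cancel₀ h
    linear_combination h1

theorem p_D (P : PtData F al E) (a b : ι → ℝ) (v : E) (i : ι) :
    P.p i (P.D a b v) = a i • P.p i v + b i • P.q i v := by
  rw [P.p_apply i (P.D a b v), P.A_D, P.mu_D, add_sub_cancel_right]

theorem ext_pmu (P : PtData F al E) {v w : E} (hp : ∀ i, P.p i v = P.p i w)
    (hm : ∀ i, P.mu i v = P.mu i w) : v = w := by
  apply P.inj
  funext i
  rw [P.A_eq i v, P.A_eq i w, hp i, hm i]

theorem exists_shape (P : PtData F al E) :
    ∃ S : E →ₗ[ℝ] E, ∀ v i, P.A (S v) i = -P.q i v := by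
  refine ⟨-(P.Ainv ∘ₗ LinearMap.pi P.q), fun v i => ?_⟩
  have htan : IsTan F P.x (fun j => P.q j v) := fun j => P.q_tan j v
  have horth : ip F P.n (fun j => P.q j v) = 0 := by
    rw [ip]
    exact Finset.sum_eq_zero fun j _ => P.q_orth j v
  obtain ⟨w, hw⟩ := P.surj _ htan horth
  have h1 : (-(P.Ainv ∘ₗ LinearMap.pi P.q)) v = -w := by
    have h2 : (LinearMap.pi P.q) v = P.A w := by
      rw [hw]; rfl
    rw [LinearMap.neg_apply, LinearMap.comp_apply, h2, ptb_Ainv_A]
  rw [h1, map_neg, hw]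
  rfl

theorem p_S (P : PtData F al E) {S : E →ₗ[ℝ] E} (hS : ∀ v i, P.A (S v) i = -P.q i v)
    (v : E) (i : ι) : P.p i (S v) = -P.q i v := by
  have hmu : P.mu i (S v) = 0 := by
    rw [ptb_mu_apply, hS, map_neg, P.q_orth]; simp
  rw [P.p_apply, hmu, zero_smul, sub_zero, hS]

theorem mu_S (P : PtData F al E) {S : E →ₗ[ℝ] E} (hS : ∀ v i, P.A (S v) i = -P.q i v)
    (v : E) (i : ι) : P.mu i (S v) = 0 := by
  rw [ptb_mu_apply, hS, map_neg, P.q_orth]; simp

theorem shape_ker (P : PtData F al E) {v : E} (hv : ∀ i, P.p i v = 0) (i : ι) :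
    P.q i v = 0 := by
  obtain ⟨S, hS⟩ := P.exists_shape
  have hAv : ∀ j, P.A v j = P.mu j v • P.n j := by
    intro j
    rw [P.A_eq, hv j, zero_add]
  have hN : ∀ w, ∑ j, (F j).B (P.N v j) (P.A w j) = 0 := by
    intro w
    have h1 := P.selfadj v w
    simp only [ip] at h1
    rw [h1]
    refine Finset.sum_eq_zero fun j _ => ?_
    rw [hAv j, map_smul, (F j).symm, P.ang, smul_zero]
  have hsum : ∑ j, (F j).B (P.A (S v) j) (P.A (S v) j) = 0 := by
    have h2 : ∀ j, (F j).B (P.A (S v) j) (P.A (S v) j) = -(F j).B (P.N v j) (P.A (S v) j) := by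
      intro j
      have h3 : (F j).k * (F j).B (P.x j) (P.A (S v) j) = 0 := P.Atan (S v) j
      have h4 : (F j).B (P.A (S v) j) = -(F j).B (P.q j v) := by
        rw [hS, map_neg]
      rw [h4, P.q_apply, map_add, map_smul]
      simp only [ContinuousLinearMap.neg_apply, ContinuousLinearMap.add_apply,
        ContinuousLinearMap.smul_apply, smul_eq_mul, kA]
      linear_combination -(al j * P.mu j v) * h3
    rw [Finset.sum_congr rfl fun j _ => h2 j, Finset.sum_neg_distrib, hN, neg_zero]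
  have hpos : ∀ j, 0 ≤ (F j).B (P.A (S v) j) (P.A (S v) j) := by
    intro j
    by_cases h : P.A (S v) j = 0
    · rw [h]; simp
    · exact ((F j).pos (P.x j) (P.pt j) _ (P.Atan (S v) j) h).le
  have hz := (Finset.sum_eq_zero_iff_of_nonneg fun j _ => hpos j).1 hsum i (Finset.mem_univ i)
  have hAz : P.A (S v) i = 0 := by
    by_contra h
    have := (F i).pos (P.x i) (P.pt i) _ (P.Atan (S v) i) h
    rw [hz] at this
    exact lt_irrefl _ this
  rw [hS] at hAz
  exact neg_eq_zero.1 hAz

end PtData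

end Pool.Agent.CPC
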