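import Pool.Agent.CPC.Trig
import Pool.Agent.CPC.PtBasic

/-!
# Shape operators of the parallel hypersurfaces (helper50)

* `hasDerivAt_det`: Jacobi's formula.  In a basis: `det (D (t + h)) = det (D t) * det (1 + Dinv (D (t+h)
  - D t))` and `det (1 + h M + o(h)) = 1 + h tr M + o(h)` (e.g. `det` is a polynomial in the entries,
  its derivative at `1` is the trace; `Matrix.det_one_add_smul`, or differentiate
  `∑_σ sign ∏ (..)`).
* `par_shape`: `κ i = kA F al i`, `c i = cF (κ i) t`, `s i = sF (κ i) t`, `D = P.D c s`,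
  `D' = the linear map with A (D' v) i = -(κ i s i) p i v + c i q i v` (the right hand side is tangent
  and orthogonal by `p_tan`, `q_tan`, `p_orth`, `q_orth`).  `t ↦ P.D c(t) s(t) v` has the derivative
  `D' v` (`D = Ainv ∘ T`, `T a b v i = a i p + b i q + mu n`, `hasDerivAt_cF`, `hasDerivAt_sF`).
  Put `J v i = p i v + mu i v • n' i`, `n' i = -(κ s) x i + c n i`, `x' i = c x i + s n i`; `J` is
  injective on `E` (`J v = 0` gives, applying `B(n' i, ·)`: `B(n', p) = -κ s B(x,p) + c B(n,p) = 0`,
  `B(n', n') = (c² + κ s²) al = al` (`κ B(x,x) = al` if `k ≠ 0`, `κ B(x,n) = 0`), so `al mu = 0`,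
  `mu = 0`, `p = 0`, and `ext_pmu`).
  (a) `c A v + s N v = J (D v)` componentwise: `c A v + s N v = c p + s q + mu (c n - κ s x)`, and
  `J (D v) i = p i (D v) + mu n' = c p + s q + mu n'` (`p_D`, `mu_D`).  So the map is injective if
  `det D ≠ 0`.
  (b) `B(n', c A v + s N v) = B(n, A v)` as in `Transport` (1), so `k B(n', ..) = κ mu`, and
  `-(κ s) A v + c N v + κ mu x' = -(κ s) p + c q = J (D' v) i` (note `mu i (D' v) = 0`).
  (c) With `S = - Dinv ∘ D'`: `c A (S v) + s N (S v) = J (D (S v)) = -J (D' v)`, the claim.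
  (d) `trace S = -trace (Dinv D')`, and `hasDerivAt_det`.
-/

namespace Pool.Agent.CPC

open scoped BigOperators

theorem hasDerivAt_det_one {n : ℕ} (M : ℝ → Matrix (Fin n) (Fin n) ℝ)
    (M' : Matrix (Fin n) (Fin n) ℝ) (t : ℝ)
    (hM : ∀ i j, HasDerivAt (fun r => M r i j) (M' i j) t) (h1 : M t = 1) :
    HasDerivAt (fun r => (M r).det) M'.trace t := by
  have h2 : ∀ σ : Equiv.Perm (Fin n), HasDerivAt
      (fun r => ((Equiv.Perm.sign σ : ℤ) : ℝ) * ∏ i, M r (σ i) i)
      (((Equiv.Perm.sign σ : ℤ) : ℝ) *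
        ∑ i, (∏ j ∈ Finset.univ.erase i, M t (σ j) j) • M' (σ i) i) t := fun σ =>
    (HasDerivAt.fun_finset_prod fun i _ => hM (σ i) i).const_mul _
  have h3 := HasDerivAt.fun_sum (u := Finset.univ) (fun (σ : Equiv.Perm (Fin n)) _ => h2 σ)
  have e1 : (fun r => (M r).det) =
      fun r => ∑ σ : Equiv.Perm (Fin n), ((Equiv.Perm.sign σ : ℤ) : ℝ) * ∏ i, M r (σ i) i := by
    funext r
    rw [Matrix.det_apply']
  have e2 : M'.trace = ∑ σ : Equiv.Perm (Fin n), ((Equiv.Perm.sign σ : ℤ) : ℝ) *
      ∑ i, (∏ j ∈ Finset.univ.erase i, M t (σ j) j) • M' (σ i) i := by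
    rw [Finset.sum_eq_single (1 : Equiv.Perm (Fin n))]
    · simp [h1, Matrix.trace]
    · intro σ _ hσ
      rw [Finset.sum_eq_zero, mul_zero]
      intro i _
      have : ∃ j ∈ Finset.univ.erase i, M t (σ j) j = 0 := by
        by_contra hcon
        push Not at hcon
        apply hσ
        have hfix : ∀ j, j ≠ i → σ j = j := by
          intro j hj
          have h4 := hcon j (Finset.mem_erase.2 ⟨hj, Finset.mem_univ j⟩)
          rw [h1, Matrix.one_apply] at h4
          by_contra hne
          simp [hne] at h4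
        ext j
        by_cases hj : j = i
        · subst hj
          by_contra hne
          have hne' : σ j ≠ j := fun h => hne (by rw [h]; rfl)
          have h5 := hfix (σ j) hne'
          exact hne' (σ.injective h5)
        · rw [hfix j hj]
          rfl
      obtain ⟨j, hj, h0⟩ := this
      have h6 : (∏ j ∈ Finset.univ.erase i, M t (σ j) j) = 0 := Finset.prod_eq_zero hj h0
      rw [h6, zero_smul]
    · intro h
      exact absurd (Finset.mem_univ _) h
  rw [e1, e2]
  exact h3

theorem hasDerivAt_det {E : Type*} [NormedAddCommGroup E] [NormedSpace ℝ E]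
    [FiniteDimensional ℝ E] (D : ℝ → E →ₗ[ℝ] E) (D' Dinv : E →ₗ[ℝ] E) (t : ℝ)
    (hD : ∀ v, HasDerivAt (fun r => D r v) (D' v) t) (hinv : Dinv ∘ₗ D t = LinearMap.id) :
    HasDerivAt (fun r => LinearMap.det (D r))
      (LinearMap.det (D t) * LinearMap.trace ℝ E (Dinv ∘ₗ D')) t := by
  have hdet : LinearMap.det Dinv * LinearMap.det (D t) = 1 := by
    rw [← LinearMap.det_comp, hinv, LinearMap.det_id]
  have e1 : (fun r => LinearMap.det (D r)) =
      fun r => LinearMap.det (D t) * LinearMap.det (Dinv ∘ₗ D r) := by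
    funext r
    rw [LinearMap.det_comp, ← mul_assoc, mul_comm (LinearMap.det (D t)), hdet, one_mul]
  rw [e1]
  refine HasDerivAt.const_mul _ ?_
  let b := Module.finBasis ℝ E
  have h1 : ∀ v, HasDerivAt (fun r => Dinv (D r v)) (Dinv (D' v)) t := fun v =>
    (LinearMap.toContinuousLinearMap Dinv).hasFDerivAt.comp_hasDerivAt t (hD v)
  have h2 := hasDerivAt_det_one (fun r => LinearMap.toMatrix b b (Dinv ∘ₗ D r))
    (LinearMap.toMatrix b b (Dinv ∘ₗ D')) t (fun i j => by
      have e : ∀ f : E →ₗ[ℝ] E, LinearMap.toMatrix b b f i j = b.coord i (f (b j)) := by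
        intro f
        rw [LinearMap.toMatrix_apply]
        rfl
      simp only [e]
      exact (LinearMap.toContinuousLinearMap (b.coord i)).hasFDerivAt.comp_hasDerivAt t (h1 (b j)))
    (by
      show LinearMap.toMatrix b b (Dinv ∘ₗ D t) = 1
      rw [hinv, LinearMap.toMatrix_id])
  simp only [LinearMap.det_toMatrix] at h2
  rwa [← LinearMap.trace_eq_matrix_trace] at h2

variable {ι : Type*} [Fintype ι] {W : ι → Type*} [∀ i, NormedAddCommGroup (W i)]
  [∀ i, NormedSpace ℝ (W i)] {E : Type*} [NormedAddCommGroup E] [NormedSpace ℝ E]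
  [FiniteDimensional ℝ E] {F : ∀ i, SF (W i)} {al : ι → ℝ}

omit [FiniteDimensional ℝ E] in
theorem D_expand (P : PtData F al E) (v : E) : ∃ (e f : ι → E) (g : E), ∀ a b : ι → ℝ,
    P.D a b v = ∑ i, (a i • e i + b i • f i) + g := by
  classical
  refine ⟨fun i => P.Ainv (Pi.single i (P.p i v)), fun i => P.Ainv (Pi.single i (P.q i v)),
    P.Ainv (fun i => P.mu i v • P.n i), fun a b => ?_⟩
  have h : P.T a b v = ∑ i, (a i • (Pi.single i (P.p i v) : ∀ i, W i) +
      b i • (Pi.single i (P.q i v) : ∀ i, W i)) + (fun i => P.mu i v • P.n i) := by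
    funext j
    rw [Pi.add_apply, Finset.sum_apply, Finset.sum_eq_single j]
    · simp [PtData.T]
    · intro i _ hij
      simp [Pi.single_eq_of_ne hij.symm]
    · intro h
      exact absurd (Finset.mem_univ _) h
  show P.Ainv (P.T a b v) = _
  rw [h, map_add, map_sum]
  simp only [map_add, map_smul]

theorem par_shape (P : PtData F al E) (t : ℝ)
    (ht : LinearMap.det (P.D (fun i => cF (kA F al i) t) (fun i => sF (kA F al i) t)) ≠ 0) :
    (∀ v, (∀ i, cF (kA F al i) t • P.A v i + sF (kA F al i) t • P.N v i = 0) → v = 0) ∧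
    ∃ S : E →ₗ[ℝ] E,
      (∀ v i, cF (kA F al i) t • P.A (S v) i + sF (kA F al i) t • P.N (S v) i =
        -(((-(kA F al i * sF (kA F al i) t)) • P.A v i + cF (kA F al i) t • P.N v i) +
          ((F i).k * (F i).B
            ((-(kA F al i * sF (kA F al i) t)) • P.x i + cF (kA F al i) t • P.n i)
            (cF (kA F al i) t • P.A v i + sF (kA F al i) t • P.N v i)) •
          (cF (kA F al i) t • P.x i + sF (kA F al i) t • P.n i))) ∧
      LinearMap.trace ℝ E S =
        -(deriv (fun r => LinearMap.det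
            (P.D (fun i => cF (kA F al i) r) (fun i => sF (kA F al i) r))) t) /
          LinearMap.det (P.D (fun i => cF (kA F al i) t) (fun i => sF (kA F al i) t)) := by
  obtain ⟨κ, hκ⟩ : ∃ κ : ι → ℝ, κ = kA F al := ⟨_, rfl⟩
  have hκi : ∀ i, kA F al i = κ i := fun i => by rw [hκ]
  have hκd : ∀ i, κ i = (F i).k * al i := fun i => by rw [hκ]; rfl
  obtain ⟨c, hc⟩ : ∃ c : ι → ℝ, c = fun i => cF (κ i) t := ⟨_, rfl⟩
  obtain ⟨s, hs⟩ : ∃ s : ι → ℝ, s = fun i => sF (κ i) t := ⟨_, rfl⟩
  have hci : ∀ i, cF (κ i) t = c i := fun i => by rw [hc]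
  have hsi : ∀ i, sF (κ i) t = s i := fun i => by rw [hs]
  simp only [hκi, hci, hsi] at ht ⊢
  have hcs : ∀ i, c i ^ 2 + κ i * s i ^ 2 = 1 := fun i => by
    rw [← hci, ← hsi]; exact cF_sq_add _ _
  have ht' : LinearMap.det (P.D c s) ≠ 0 := ht
  -- products with n'
  have hnp : ∀ v i, (F i).B ((-(κ i * s i)) • P.x i + c i • P.n i) (P.p i v) = 0 := fun v i => by
    have h1 := P.p_tan i v
    have h2 := P.p_orth i v
    simp only [map_add, map_smul, ContinuousLinearMap.add_apply, ContinuousLinearMap.smul_apply,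
      smul_eq_mul, h2, hκd]
    linear_combination (-(al i * s i)) * h1
  have hnq : ∀ v i, (F i).B ((-(κ i * s i)) • P.x i + c i • P.n i) (P.q i v) = 0 := fun v i => by
    have h1 := P.q_tan i v
    have h2 := P.q_orth i v
    simp only [map_add, map_smul, ContinuousLinearMap.add_apply, ContinuousLinearMap.smul_apply,
      smul_eq_mul, h2, hκd]
    linear_combination (-(al i * s i)) * h1
  have hnn : ∀ i, (F i).B ((-(κ i * s i)) • P.x i + c i • P.n i)
      ((-(κ i * s i)) • P.x i + c i • P.n i) = al i := fun i => by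
    have h1 := P.tan i
    have h2 := P.nn i
    have h3 := hcs i
    have h4 := (F i).symm (P.n i) (P.x i)
    have h5 : κ i * (κ i * (F i).B (P.x i) (P.x i)) = κ i * al i := by
      by_cases hk : (F i).k = 0
      · rw [hκd, hk]; ring
      · have := P.pt i hk
        rw [hκd]
        linear_combination ((F i).k * al i * al i) * this
    simp only [map_add, map_smul, ContinuousLinearMap.add_apply, ContinuousLinearMap.smul_apply,
      smul_eq_mul, h2, h4]
    rw [hκd] at h5 h3 ⊢
    linear_combination (s i ^ 2) * h5 + al i * h3 - 2 * al i * s i * c i * h1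
  have hmu0 : ∀ i, al i = 0 → ∀ v, P.mu i v = 0 := fun i hi v => by
    simp [PtData.mu, hi]
  have hJ : ∀ v, (∀ i, P.p i v + P.mu i v • ((-(κ i * s i)) • P.x i + c i • P.n i) = 0) →
      v = 0 := fun v hv => by
    have h1 : ∀ i, P.mu i v = 0 := fun i => by
      have h2 : (F i).B ((-(κ i * s i)) • P.x i + c i • P.n i)
          (P.p i v + P.mu i v • ((-(κ i * s i)) • P.x i + c i • P.n i)) = 0 := by
        rw [hv i, map_zero]
      rw [map_add, hnp, zero_add, map_smul, smul_eq_mul, hnn] at h2
      rcases mul_eq_zero.1 h2 with h3 | h3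
      · exact h3
      · exact hmu0 i h3 v
    have h2 : ∀ i, P.p i v = 0 := fun i => by
      have := hv i
      rwa [h1 i, zero_smul, add_zero] at this
    exact P.ext_pmu (w := 0) (fun i => by rw [h2 i, map_zero]) (fun i => by rw [h1 i, map_zero])
  have hAN : ∀ v i, c i • P.A v i + s i • P.N v i = c i • P.p i v + s i • P.q i v +
      P.mu i v • ((-(κ i * s i)) • P.x i + c i • P.n i) := fun v i => by
    have h1 := P.A_eq i v
    have h2 := P.q_apply i v
    rw [hκi] at h2
    rw [h1, h2]
    module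
  have hAND : ∀ v i, c i • P.A v i + s i • P.N v i = P.p i (P.D c s v) +
      P.mu i (P.D c s v) • ((-(κ i * s i)) • P.x i + c i • P.n i) := fun v i => by
    rw [hAN, P.p_D, P.mu_D]
  let e := LinearMap.equivOfDetNeZero (P.D c s) ht'
  have he : ∀ v, e v = P.D c s v := fun v => rfl
  constructor
  · intro v hv
    have h1 : P.D c s v = 0 := hJ _ fun i => by rw [← hAND]; exact hv i
    have h2 : e v = 0 := h1
    exact (LinearEquiv.map_eq_zero_iff e).1 h2
  · obtain ⟨D', hD'⟩ : ∃ D' : E →ₗ[ℝ] E, D' = P.D (fun i => -(κ i * s i)) c -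
        P.D (fun _ => 0) (fun _ => 0) := ⟨_, rfl⟩
    have hpD' : ∀ v i, P.p i (D' v) = (-(κ i * s i)) • P.p i v + c i • P.q i v := fun v i => by
      rw [hD', LinearMap.sub_apply, map_sub, P.p_D, P.p_D]
      simp
    have hmD' : ∀ v i, P.mu i (D' v) = 0 := fun v i => by
      rw [hD', LinearMap.sub_apply, map_sub, P.mu_D, P.mu_D, sub_self]
    have hder : ∀ v, HasDerivAt (fun r => P.D (fun i => cF (κ i) r) (fun i => sF (κ i) r) v)
        (D' v) t := fun v => by
      obtain ⟨e, f, g, hefg⟩ := D_expand P v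
      have h1 : D' v = ∑ i, ((-(κ i * s i)) • e i + c i • f i) := by
        rw [hD', LinearMap.sub_apply, hefg, hefg]
        simp
      have h2 : (fun r => P.D (fun i => cF (κ i) r) (fun i => sF (κ i) r) v) =
          fun r => ∑ i, (cF (κ i) r • e i + sF (κ i) r • f i) + g := by
        funext r
        rw [hefg]
      rw [h1, h2]
      refine HasDerivAt.add_const g (HasDerivAt.fun_sum fun i _ => ?_)
      have h3 := (hasDerivAt_cF (κ i) t).smul_const (e i)
      have h4 := (hasDerivAt_sF (κ i) t).smul_const (f i)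
      rw [hsi] at h3
      rw [hci] at h4
      exact h3.add h4
    have hinv : (e.symm : E →ₗ[ℝ] E) ∘ₗ P.D c s = LinearMap.id := by
      ext v
      show e.symm (P.D c s v) = v
      rw [← he, LinearEquiv.symm_apply_apply]
    have hdet := hasDerivAt_det (fun r => P.D (fun i => cF (κ i) r) (fun i => sF (κ i) r)) D'
      (e.symm : E →ₗ[ℝ] E) t hder (by
        show (e.symm : E →ₗ[ℝ] E) ∘ₗ P.D (fun i => cF (κ i) t) (fun i => sF (κ i) t) = _
        simp only [hci, hsi]
        exact hinv)
    refine ⟨-((e.symm : E →ₗ[ℝ] E) ∘ₗ D'), ?_, ?_⟩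
    · intro v i
      have hDS : P.D c s ((-((e.symm : E →ₗ[ℝ] E) ∘ₗ D')) v) = -(D' v) := by
        rw [← he, LinearMap.neg_apply, map_neg]
        show -(e (e.symm (D' v))) = _
        rw [LinearEquiv.apply_symm_apply]
      rw [hAND, hDS, map_neg, map_neg, hpD', hmD', hAN v i]
      have hk : (F i).k * (F i).B ((-(κ i * s i)) • P.x i + c i • P.n i)
          (c i • P.p i v + s i • P.q i v +
            P.mu i v • ((-(κ i * s i)) • P.x i + c i • P.n i)) = κ i * P.mu i v := by
        rw [map_add, map_add, map_smul, map_smul, map_smul, hnp, hnq, hnn, hκd]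
        simp only [smul_eq_mul]
        ring
      rw [hk]
      have h1 := P.A_eq i v
      have h2 : P.N v i = P.q i v - (κ i * P.mu i v) • P.x i := by
        have := P.q_apply i v
        rw [hκi] at this
        rw [this]
        abel
      rw [h1, h2]
      module
    · rw [map_neg, hdet.deriv]
      simp only [hci, hsi]
      field_simp

end Pool.Agent.CPC
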