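import Mathlib

/-!
# Expansion of a determinant with rows `u p + v q` (helper50)

`det` is multilinear in the rows.  For a set `S` of rows contained in the rows with `blk r ≠ none`
let `M_S` be the matrix whose row `r` is `p r` if `blk r = none` or `r ∈ S`, and `q r` otherwise.
Then `det = ∑_S (∏_{r ∈ S} u (blk r)) (∏_{r ∉ S, blk r ≠ none} v (blk r)) det M_S`
(`MultilinearMap.map_add_univ`, `MultilinearMap.map_smul_univ`, or expand
`∏_r (..)` in `Matrix.det_apply` with `Finset.prod_add`).  With `β κ = #{r ∈ S : blk r = some κ}` the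
two products are `∏_κ u κ ^ β κ` and `∏_κ v κ ^ (d κ - β κ)`, `d κ = #{r : blk r = some κ}`.  Put
`h β = ∑_{S with these numbers β} det M_S`.
-/

namespace Pool.Agent.CPC

open scoped BigOperators

private theorem prod_elim {R K : Type*} [Fintype K] [DecidableEq K]
    (blk : R → Option K) (T : Finset R) (f : K → ℂ) :
    ∏ r ∈ T, (blk r).elim 1 f = ∏ κ : K, f κ ^ (T.filter (fun r => blk r = some κ)).card := by
  have h1 : ∀ κ : K, f κ ^ (T.filter (fun r => blk r = some κ)).card =
      ∏ r ∈ T, if blk r = some κ then f κ else 1 := fun κ => by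
    rw [← Finset.prod_filter, Finset.prod_const]
  simp only [h1]
  rw [Finset.prod_comm]
  refine Finset.prod_congr rfl fun r _ => ?_
  cases h : blk r with
  | none => simp
  | some κ₀ =>
    simp only [Option.elim_some, Option.some_inj]
    rw [Finset.prod_ite_eq]
    simp

/-- expansion over all sets of rows -/
private theorem det_expand {R K : Type*} [Fintype R] [DecidableEq R] (blk : R → Option K)
    (p q : Matrix R R ℂ) (u v : K → ℂ) :
    (Matrix.of fun r c => (blk r).elim (p r c) (fun κ => u κ * p r c + v κ * q r c)).det =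
      ∑ S : Finset R, (∏ r, if r ∈ S then (blk r).elim 1 u else (blk r).elim 0 v) *
        (Matrix.of (S.piecewise p q)).det := by
  have h1 : (Matrix.of fun r c => (blk r).elim (p r c) (fun κ => u κ * p r c + v κ * q r c)).det =
      Matrix.detRowAlternating.toMultilinearMap
        ((fun r => (blk r).elim 1 u • p r) + fun r => (blk r).elim 0 v • q r) := by
    show Matrix.detRowAlternating _ = Matrix.detRowAlternating _
    congr 1
    funext r c
    cases h : blk r with
    | none => simp [h]
    | some κ => simp [h]
  rw [h1, MultilinearMap.map_add_univ]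
  refine Finset.sum_congr rfl fun S _ => ?_
  have h2 : S.piecewise (fun r => (blk r).elim 1 u • p r) (fun r => (blk r).elim 0 v • q r) =
      fun r => (if r ∈ S then (blk r).elim 1 u else (blk r).elim 0 v) • (S.piecewise p q) r := by
    funext r
    by_cases hr : r ∈ S
    · simp [hr]
    · simp [hr]
  rw [h2, MultilinearMap.map_smul_univ, smul_eq_mul]
  rfl

theorem row_exp {R K : Type*} [Fintype R] [DecidableEq R] [Fintype K] [DecidableEq K]
    (blk : R → Option K) (p q : Matrix R R ℂ) (d : K → ℕ)
    (hd : ∀ κ, (Finset.univ.filter (fun r => blk r = some κ)).card = d κ) :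
    ∃ h : (K → ℕ) → ℂ, ∀ u v : K → ℂ,
      (Matrix.of fun r c => (blk r).elim (p r c) (fun κ => u κ * p r c + v κ * q r c)).det =
        ∑ β ∈ Fintype.piFinset (fun κ : K => Finset.range (d κ + 1)),
          h β * ∏ κ : K, (u κ ^ β κ * v κ ^ (d κ - β κ)) := by
  classical
  let G : Finset (Finset R) := Finset.univ.filter fun S => ∀ r, blk r = none → r ∈ S
  let bt : Finset R → K → ℕ := fun S κ => (S.filter fun r => blk r = some κ).card
  have hbt : ∀ S κ, bt S κ ≤ d κ := fun S κ => by
    rw [← hd κ]
    exact Finset.card_le_card (Finset.filter_subset_filter _ (Finset.subset_univ S))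
  have hcard : ∀ S κ, (Sᶜ.filter fun r => blk r = some κ).card = d κ - bt S κ := fun S κ => by
    have h1 : (S.filter fun r => blk r = some κ).card + (Sᶜ.filter fun r => blk r = some κ).card =
        d κ := by
      rw [← hd κ, ← Finset.card_union_of_disjoint, ← Finset.filter_union, Finset.union_compl]
      exact Finset.disjoint_filter_filter disjoint_compl_right
    have h2 : bt S κ = (S.filter fun r => blk r = some κ).card := rfl
    omega
  refine ⟨fun β => ∑ S ∈ G.filter (fun S => bt S = β), (Matrix.of (S.piecewise p q)).det,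
    fun u v => ?_⟩
  rw [det_expand]
  have h1 : ∑ S : Finset R, (∏ r, if r ∈ S then (blk r).elim 1 u else (blk r).elim 0 v) *
        (Matrix.of (S.piecewise p q)).det =
      ∑ S ∈ G, (∏ κ : K, (u κ ^ bt S κ * v κ ^ (d κ - bt S κ))) *
        (Matrix.of (S.piecewise p q)).det := by
    symm
    have hsub : G ⊆ Finset.univ := Finset.subset_univ G
    rw [← Finset.sum_subset hsub]
    · refine Finset.sum_congr rfl fun S hS => ?_
      congr 1
      have hS' : ∀ r, blk r = none → r ∈ S := (Finset.mem_filter.mp hS).2
      rw [Finset.prod_mul_distrib, ← prod_elim]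
      have e1 : ∏ κ : K, v κ ^ (d κ - bt S κ) = ∏ r ∈ Sᶜ, (blk r).elim 1 v := by
        rw [prod_elim]
        refine Finset.prod_congr rfl fun κ _ => ?_
        rw [hcard]
      rw [e1, ← Finset.prod_mul_prod_compl S]
      congr 1
      · refine Finset.prod_congr rfl fun r hr => ?_
        rw [if_pos hr]
      · refine Finset.prod_congr rfl fun r hr => ?_
        rw [if_neg (Finset.mem_compl.mp hr)]
        cases h : blk r with
        | none => exact absurd (hS' r h) (Finset.mem_compl.mp hr)
        | some κ => rfl
    · intro S _ hS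
      have hS' : ¬ ∀ r, blk r = none → r ∈ S := fun h => hS (Finset.mem_filter.mpr
        ⟨Finset.mem_univ S, h⟩)
      push Not at hS'
      obtain ⟨r, hr, hrS⟩ := hS'
      rw [Finset.prod_eq_zero (Finset.mem_univ r), zero_mul]
      rw [if_neg hrS, hr]
      rfl
  rw [h1]
  have h2 : ∀ S ∈ G, bt S ∈ Fintype.piFinset (fun κ : K => Finset.range (d κ + 1)) := by
    intro S _
    rw [Fintype.mem_piFinset]
    intro κ
    rw [Finset.mem_range]
    have := hbt S κ
    omega
  rw [← Finset.sum_fiberwise_of_maps_to h2]
  refine Finset.sum_congr rfl fun β _ => ?_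
  rw [Finset.sum_mul]
  refine Finset.sum_congr rfl fun S hS => ?_
  have hSβ : bt S = β := (Finset.mem_filter.mp hS).2
  rw [hSβ, mul_comm]

end Pool.Agent.CPC
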