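import Pool.Agent.CPC.Trig
import Pool.Agent.CPC.RowExp
import Pool.Agent.CPC.Adapted

/-!
# The determinant as a multihomogeneous polynomial, and the characteristic polynomial (helper50)

Let `S` be the shape operator (`exists_shape`), `R, blk, bas` from `adapted`, `M = toMatrix S`.
* `G_expansion`: `P.G a b = det` of the matrix with rows `a κ δ - b κ M` (block `κ`), `δ` (none).
  Map to `ℂ` (`RingHom.map_det`).  For `κ ≠ 0`: `a = (u1 + u2) / 2`, `b = (u1 - u2) / (2 om κ)`, so
  the row is `u1 (δ/2 - M/(2 om κ)) + u2 (δ/2 + M/(2 om κ))`; for `κ = 0`: `u1 = b`, `u2 = a`, the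
  row is `u1 (-M) + u2 δ`.  Apply `row_exp` with `u κ = u1 κ (a κ) (b κ)`, `v κ = u2 κ (a κ) (b κ)`,
  `d κ = dm F al κ`.
* `charpoly_eval`: `S.charpoly.eval lam = det (lam - M)` (`LinearMap.charpoly_toMatrix`,
  `Matrix.eval_charpoly` or similar); its rows are `lam δ - M` in the blocks and `lam δ` for
  `blk r = none` (there `M = 0`), while `P.G lam 1` has rows `lam δ - M` and `δ`; so the quotient is
  `lam ^ #{r : blk r = none}` (multiply rows: `Matrix.det_mul_column` or `det (diagonal * ..)`), and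
  `#{r : blk r = none} = finrank E - ∑_κ dm κ` (count `R`, `Module.finrank_eq_card_basis`).
-/

namespace Pool.Agent.CPC

open scoped BigOperators

variable {ι : Type*} [Fintype ι] {W : ι → Type*} [∀ i, NormedAddCommGroup (W i)]
  [∀ i, NormedSpace ℝ (W i)] [∀ i, FiniteDimensional ℝ (W i)] {E : Type*} [NormedAddCommGroup E]
  [NormedSpace ℝ E] [FiniteDimensional ℝ E] {F : ∀ i, SF (W i)} {al : ι → ℝ}

theorem ptdet_row (κ a b δ m : ℝ) :
    ((a * δ - b * m : ℝ) : ℂ) =
      u1 κ a b * (if κ = 0 then -(m : ℂ) else (δ : ℂ) / 2 - (m : ℂ) / (2 * om κ)) +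
      u2 κ a b * (if κ = 0 then (δ : ℂ) else (δ : ℂ) / 2 + (m : ℂ) / (2 * om κ)) := by
  unfold u1 u2
  by_cases h : κ = 0
  · rw [if_pos h, if_pos h, if_pos h, if_pos h]
    push_cast
    ring
  · rw [if_neg h, if_neg h, if_neg h, if_neg h]
    have hom := om_ne_zero h
    push_cast
    field_simp
    ring

theorem G_expansion (P : PtData F al E) :
    ∃ h : (KK F al → ℕ) → ℂ, ∀ a b : ℝ → ℝ,
      ((P.G a b : ℝ) : ℂ) = Pol (KK F al) (dm F al) h a b := by
  obtain ⟨S, hS⟩ := P.exists_shape
  obtain ⟨R, fR, dR, blk, bas, hcard, hnone, hD⟩ := adapted P S hS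
  obtain ⟨h, hh⟩ := row_exp blk
    (fun r c => (blk r).elim (if r = c then 1 else 0) (fun κ => if (κ : ℝ) = 0 then
      -((LinearMap.toMatrix bas bas S r c : ℝ) : ℂ) else
        (((if r = c then 1 else 0 : ℝ)) : ℂ) / 2 -
          ((LinearMap.toMatrix bas bas S r c : ℝ) : ℂ) / (2 * om κ)))
    (fun r c => (blk r).elim 0 (fun κ => if (κ : ℝ) = 0 then
      (((if r = c then 1 else 0 : ℝ)) : ℂ) else
        (((if r = c then 1 else 0 : ℝ)) : ℂ) / 2 +
          ((LinearMap.toMatrix bas bas S r c : ℝ) : ℂ) / (2 * om κ)))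
    (fun κ : KK F al => dm F al κ) hcard
  refine ⟨h, fun a b => ?_⟩
  have h1 := hh (fun κ => u1 κ (a κ) (b κ)) (fun κ => u2 κ (a κ) (b κ))
  unfold Pol
  rw [← h1]
  unfold PtData.G
  rw [← LinearMap.det_toMatrix bas]
  have h2 := RingHom.map_det Complex.ofRealHom (LinearMap.toMatrix bas bas
    (P.D (fun i => if al i = 0 then 1 else a (kA F al i)) (fun i => b (kA F al i))))
  rw [Complex.ofRealHom_eq_coe] at h2
  rw [h2]
  congr 1
  ext r c
  rw [RingHom.mapMatrix_apply, Matrix.map_apply, hD, Matrix.of_apply]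
  cases hb : blk r with
  | none =>
    simp only [Option.elim_none]
    split_ifs <;> simp
  | some κ =>
    simp only [Option.elim_some, Complex.ofRealHom_eq_coe]
    exact ptdet_row κ (a κ) (b κ) _ _

theorem ptdet_count {R K : Type*} [Fintype R] [Fintype K] [DecidableEq K]
    (blk : R → Option K) (d : K → ℕ)
    (hd : ∀ κ, (Finset.univ.filter (fun r => blk r = some κ)).card = d κ) :
    (Finset.univ.filter (fun r => blk r = none)).card = Fintype.card R - ∑ κ, d κ := by
  have h1 : Fintype.card R = ∑ o : Option K, (Finset.univ.filter (fun r => blk r = o)).card := by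
    rw [← Finset.card_univ]
    exact Finset.card_eq_sum_card_fiberwise (fun _ _ => Finset.mem_univ _)
  rw [Fintype.sum_option] at h1
  simp only [hd] at h1
  omega

theorem charpoly_eval (P : PtData F al E) (S : E →ₗ[ℝ] E) (hS : ∀ v i, P.A (S v) i = -P.q i v)
    (lam : ℝ) :
    S.charpoly.eval lam =
      lam ^ (Module.finrank ℝ E - ∑ κ ∈ KK F al, dm F al κ) *
        P.G (fun _ => lam) (fun _ => 1) := by
  obtain ⟨R, fR, dR, blk, bas, hcard, hnone, hD⟩ := adapted P S hS
  have h1 : Module.finrank ℝ E - ∑ κ ∈ KK F al, dm F al κ =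
      (Finset.univ.filter (fun r => blk r = none)).card := by
    rw [ptdet_count blk (fun κ : KK F al => dm F al κ) hcard, Module.finrank_eq_card_basis bas,
      Finset.sum_coe_sort (KK F al) (dm F al)]
  rw [h1, ← LinearMap.charpoly_toMatrix S bas, Matrix.eval_charpoly]
  unfold PtData.G
  rw [← LinearMap.det_toMatrix bas]
  have h3 : lam ^ (Finset.univ.filter (fun r => blk r = none)).card =
      ∏ r, (if blk r = none then lam else 1) := by
    rw [Finset.prod_ite, Finset.prod_const, Finset.prod_const_one, mul_one]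
  rw [h3, ← Matrix.det_mul_column]
  congr 1
  ext r c
  have h4 := hD (fun _ => lam) (fun _ => 1) r c
  rw [Matrix.of_apply]
  refine Eq.trans ?_ (congrArg _ h4.symm)
  rw [Matrix.sub_apply, Matrix.scalar_apply, Matrix.diagonal_apply]
  cases hb : blk r with
  | none =>
    rw [hnone r c hb, if_pos rfl, Option.elim_none]
    split_ifs <;> simp
  | some κ =>
    rw [if_neg (Option.some_ne_none κ), Option.elim_some, one_mul, one_mul]
    split_ifs <;> simp

end Pool.Agent.CPC
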