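import Pool.Agent.CPC.Trig
import Pool.Agent.CPC.ExpInd

/-!
# Uniqueness of the solution of the linear identity, all `κ ≠ 0` (helper50)

Conventions: `BB = Fintype.piFinset (fun κ : K => range (d κ + 1))`, `om κ ≠ 0` for `κ ∈ K`.  If `K` is
empty, `Pol` is a constant (the value `h default`), equal to `1` by the first part of `Sol`.
Let `K` be nonempty.
(1) For `τ` with `∑ τ κ w κ = 0` and real `s`, by `u1_rot`, `u2_rot`
 `Pol h (R_{sτ} (a, b)) = ∑_β h β exp (s ℓ_β(τ)) ∏ u1^β u2^(d-β)`,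
 `ℓ_β(τ) = ∑_κ om κ τ κ (2 β κ - d κ)`.  With `(a, b) = (lam, 1)`: `∏ = E_β(lam)`,
 `E_β = ∏_κ (X + om κ)^(β κ) (X - om κ)^(d κ - β κ)`; with `(1, 0)`: `∏ = 1`.  So `Sol` says: for all
 `τ` in the hyperplane, for `s` near `0`, for all real `lam`:
 `∑_β h β (E_β(lam) - χ lam) exp (s ℓ_β(τ)) = 0`.
(2) Call `β ~ β'` if `ℓ_β = ℓ_β'` on the hyperplane `H = {τ : ∑ τ κ w κ = 0}` (functions `K → ℝ`).
 By `exists_generic` (in the vector space `H`, maps `ℓ_β - ℓ_β'` for the non-equivalent pairs) there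
 is `τ ∈ H` with `ℓ_β(τ) ≠ ℓ_β'(τ)` whenever not `β ~ β'`.  `exp_ind` with constant polynomials (for
 each `lam`) gives for every class `c`: `∑_{β ∈ c} h β E_β(lam) = σ_c χ(lam)`, `σ_c = ∑_{β ∈ c} h β`.
(3) If `β ~ β'` and `κ, κ' ∈ K`: the vector `τ = w κ' e_κ - w κ e_κ'` is in `H`, so
 `w κ' om κ (β κ - β' κ) = w κ om κ' (β κ' - β' κ')`.  If `κ, κ'` have the same sign then `om κ`,
 `om κ'` are positive real multiples of the same number (`1` or `I`), so `β κ - β' κ` and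
 `β κ' - β' κ'` have the same sign; if `κ, κ'` have different signs, one side is real and the other
 is purely imaginary, so both differences are `0`.  Hence: for equivalent `β, β'` either `β = β'`, or
 `β κ < β' κ` for all `κ ∈ K`, or `β' κ < β κ` for all `κ ∈ K`.
(4) Let `f` be a function on a class `c`, not identically zero, and let `β*` be the element of its
 support with minimal `β κ₀` (`κ₀ ∈ K` fixed); all other elements of the support are `> β*` in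
 every coordinate.  So for every `κ ∈ K` the polynomial `∑_{β ∈ c} f β E_β` is
 `(X + om κ)^(β* κ) Q` with `Q(-om κ) = f β* ∏_{κ' ≠ κ} (om κ' - om κ)^.. (-om κ - om κ')^.. *
 (-2 om κ)^.. ≠ 0` (`om_inj`, `om_add_ne`).  In particular it is not zero and its root multiplicity
 at `-om κ` is `β* κ`.
(5) Since `∑ h β = Pol h (1,0) = 1` some `σ_c ≠ 0`, so `χ` agrees on the reals with a polynomial
 `χ'`, and (2) is an identity of polynomials `∑_{β ∈ c} h β E_β = σ_c χ'` for each class.  If `h` is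
 not zero on the class `c`, then by (4) `σ_c ≠ 0` and `β*_κ = rootMultiplicity (-om κ) χ'`.  So `β*` is
 the same for all these classes: there is exactly one class `c*` on which `h` is not zero, it is the
 class of `β*`, and `σ_{c*} = 1`.  The same for `h'` with the same `χ` (two polynomials equal on the
 reals are equal), so with the same `β*`, `c*`.  On `c*`: `∑ (h β - h' β) E_β = (1 - 1) χ' = 0`, so
 `h = h'` on `c*` by (4).  Hence `h = h'` on `BB` and the `Pol` are equal.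
-/

namespace Pool.Agent.CPC

open scoped BigOperators

private noncomputable def BB (K : Finset ℝ) (d : ℝ → ℕ) : Finset (K → ℕ) :=
  Fintype.piFinset (fun κ : K => Finset.range (d κ + 1))

private noncomputable def ell {K : Finset ℝ} (d : ℝ → ℕ) (β : K → ℕ) (τ : ℝ → ℝ) : ℂ :=
  ∑ κ : K, om κ * (τ κ : ℂ) * ((β κ : ℂ) - ((d κ - β κ : ℕ) : ℂ))

private noncomputable def PE {K : Finset ℝ} (d : ℝ → ℕ) (β : K → ℕ) : Polynomial ℂ :=
  ∏ κ : K, ((Polynomial.X - Polynomial.C (-om κ)) ^ β κ *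
    (Polynomial.X - Polynomial.C (om κ)) ^ (d κ - β κ))

private theorem PE_eval {K : Finset ℝ} (d : ℝ → ℕ) (β : K → ℕ) (x : ℂ) :
    (PE d β).eval x = ∏ κ : K, ((x + om κ) ^ β κ * (x - om κ) ^ (d κ - β κ)) := by
  unfold PE
  rw [Polynomial.eval_prod]
  refine Finset.prod_congr rfl fun κ _ => ?_
  simp

private theorem pol_rot {K : Finset ℝ} (hK : (0 : ℝ) ∉ K) (d : ℝ → ℕ) (h : (K → ℕ) → ℂ)
    (τ : ℝ → ℝ) (s A B : ℝ) :
    Pol K d h (rotA (fun κ => s * τ κ) (fun _ => A) (fun _ => B))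
        (rotB (fun κ => s * τ κ) (fun _ => A) (fun _ => B)) =
      ∑ β ∈ BB K d, h β * (Complex.exp (ell d β τ * s) *
          ∏ κ : K, (((A : ℂ) + om κ * B) ^ β κ * ((A : ℂ) - om κ * B) ^ (d κ - β κ))) := by
  unfold Pol
  refine Finset.sum_congr rfl fun β _ => ?_
  have e3 : ∀ κ ∈ (Finset.univ : Finset K),
      u1 κ (rotA (fun κ => s * τ κ) (fun _ => A) (fun _ => B) κ)
        (rotB (fun κ => s * τ κ) (fun _ => A) (fun _ => B) κ) ^ β κ *
      u2 κ (rotA (fun κ => s * τ κ) (fun _ => A) (fun _ => B) κ)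
        (rotB (fun κ => s * τ κ) (fun _ => A) (fun _ => B) κ) ^ (d κ - β κ) =
      Complex.exp (om κ * (τ κ : ℂ) * ((β κ : ℂ) - ((d κ - β κ : ℕ) : ℂ)) * s) *
        (((A : ℂ) + om κ * B) ^ β κ * ((A : ℂ) - om κ * B) ^ (d κ - β κ)) := by
    intro κ hκ
    have hκ0 : (κ : ℝ) ≠ 0 := fun h0 => hK (h0 ▸ κ.2)
    have f1 : u1 κ (rotA (fun κ => s * τ κ) (fun _ => A) (fun _ => B) κ)
        (rotB (fun κ => s * τ κ) (fun _ => A) (fun _ => B) κ) =
        Complex.exp (om κ * ((s * τ κ : ℝ) : ℂ)) * u1 κ A B := u1_rot hκ0 (s * τ κ) A B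
    have f2 : u2 κ (rotA (fun κ => s * τ κ) (fun _ => A) (fun _ => B) κ)
        (rotB (fun κ => s * τ κ) (fun _ => A) (fun _ => B) κ) =
        Complex.exp (-(om κ * ((s * τ κ : ℝ) : ℂ))) * u2 κ A B := u2_rot hκ0 (s * τ κ) A B
    rw [f1, f2, mul_pow, mul_pow, ← Complex.exp_nat_mul, ← Complex.exp_nat_mul, u1, u2,
      if_neg hκ0, if_neg hκ0]
    have f3 : Complex.exp (om κ * (τ κ : ℂ) * ((β κ : ℂ) - ((d κ - β κ : ℕ) : ℂ)) * s) =
        Complex.exp ((β κ : ℂ) * (om κ * ((s * τ κ : ℝ) : ℂ))) *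
        Complex.exp (((d κ - β κ : ℕ) : ℂ) * -(om κ * ((s * τ κ : ℝ) : ℂ))) := by
      rw [← Complex.exp_add]
      congr 1
      push_cast
      ring
    rw [f3]
    ring
  rw [Finset.prod_congr rfl e3, Finset.prod_mul_distrib, ← Complex.exp_sum, ← Finset.sum_mul]
  rfl

/-- The identity of `Sol` in coordinates. -/
private theorem sol_coord {K : Finset ℝ} (hK : (0 : ℝ) ∉ K) {d : ℝ → ℕ} {w : ℝ → ℝ}
    {χ : ℝ → ℂ} {h : (K → ℕ) → ℂ} (hh : Sol K d w χ h) {τ : ℝ → ℝ}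
    (hτ : ∑ κ ∈ K, τ κ * w κ = 0) : ∀ᶠ s : ℝ in nhds 0, ∀ lam : ℝ,
    ∑ β ∈ BB K d, Complex.exp (ell d β τ * s) *
      (h β * ((PE d β).eval (lam : ℂ) - χ lam)) = 0 := by
  filter_upwards [hh.2 τ hτ] with s hs lam
  have h1 := hs lam
  rw [pol_rot hK, pol_rot hK] at h1
  rw [Finset.mul_sum, ← sub_eq_zero, ← Finset.sum_sub_distrib] at h1
  rw [← h1]
  refine Finset.sum_congr rfl fun β _ => ?_
  have h2 : ∏ κ : K, ((((1 : ℝ) : ℂ) + om κ * ((0 : ℝ) : ℂ)) ^ β κ *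
      (((1 : ℝ) : ℂ) - om κ * ((0 : ℝ) : ℂ)) ^ (d κ - β κ)) = 1 := by
    refine Finset.prod_eq_one fun κ _ => ?_
    simp
  have h3 : ∏ κ : K, ((((lam : ℝ) : ℂ) + om κ * ((1 : ℝ) : ℂ)) ^ β κ *
      (((lam : ℝ) : ℂ) - om κ * ((1 : ℝ) : ℂ)) ^ (d κ - β κ)) = (PE d β).eval (lam : ℂ) := by
    rw [PE_eval]
    refine Finset.prod_congr rfl fun κ _ => ?_
    rw [Complex.ofReal_one, mul_one]
  rw [h2, h3]
  ring

open Classical in
private theorem class_zero {K : Finset ℝ} (hK : (0 : ℝ) ∉ K) {d : ℝ → ℕ} {w : ℝ → ℝ}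
    {χ : ℝ → ℂ} {h : (K → ℕ) → ℂ} (hh : Sol K d w χ h) {τ : ℝ → ℝ}
    (hτ : ∑ κ ∈ K, τ κ * w κ = 0) (lam : ℝ) {μ : ℂ}
    (hμ : μ ∈ (BB K d).image fun β => ell d β τ) :
    ∑ β ∈ (BB K d).filter (fun β => ell d β τ = μ),
      h β * ((PE d β).eval (lam : ℂ) - χ lam) = 0 := by
  have key := exp_ind ((BB K d).image fun β => ell d β τ)
    (fun μ => Polynomial.C (∑ β ∈ (BB K d).filter (fun β => ell d β τ = μ),
      h β * ((PE d β).eval (lam : ℂ) - χ lam))) (by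
      filter_upwards [sol_coord hK hh hτ] with s hs
      rw [← hs lam, ← Finset.sum_fiberwise_of_maps_to
        (fun β hβ => Finset.mem_image_of_mem (fun β => ell d β τ) hβ)]
      refine Finset.sum_congr rfl fun μ _ => ?_
      rw [Polynomial.eval_C, Finset.mul_sum]
      refine Finset.sum_congr rfl fun β hβ => ?_
      rw [(Finset.mem_filter.1 hβ).2])
  exact Polynomial.C_eq_zero.1 (key _ hμ)

open Classical in
/-- A generic vector. -/
private theorem exists_tau (K : Finset ℝ) (d : ℝ → ℕ) (w : ℝ → ℝ) :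
    ∃ τ : ℝ → ℝ, ∑ κ ∈ K, τ κ * w κ = 0 ∧ ∀ β ∈ BB K d, ∀ β' ∈ BB K d,
      ell d β τ = ell d β' τ → ∀ κ κ' : K,
        (w κ' : ℂ) * om κ * ((β κ : ℂ) - (β' κ : ℂ)) =
          (w κ : ℂ) * om κ' * ((β κ' : ℂ) - (β' κ' : ℂ)) := by
  let H : Submodule ℝ (ℝ → ℝ) := 
    { carrier := {v | ∑ κ ∈ K, v κ * w κ = 0}
      add_mem' := by
        intro x y hx hy
        have hx' : ∑ κ ∈ K, x κ * w κ = 0 := hx
        have hy' : ∑ κ ∈ K, y κ * w κ = 0 := hy
        show ∑ κ ∈ K, (x + y) κ * w κ = 0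
        have e : ∑ κ ∈ K, (x + y) κ * w κ = ∑ κ ∈ K, x κ * w κ + ∑ κ ∈ K, y κ * w κ := by
          rw [← Finset.sum_add_distrib]
          refine Finset.sum_congr rfl fun κ _ => ?_
          rw [Pi.add_apply]
          ring
        rw [e, hx', hy', add_zero]
      zero_mem' := by
        show ∑ κ ∈ K, (0 : ℝ → ℝ) κ * w κ = 0
        simp
      smul_mem' := by
        intro c x hx
        have hx' : ∑ κ ∈ K, x κ * w κ = 0 := hx
        show ∑ κ ∈ K, (c • x) κ * w κ = 0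
        have e : ∑ κ ∈ K, (c • x) κ * w κ = c * ∑ κ ∈ K, x κ * w κ := by
          rw [Finset.mul_sum]
          refine Finset.sum_congr rfl fun κ _ => ?_
          rw [Pi.smul_apply, smul_eq_mul]
          ring
        rw [e, hx', mul_zero] }
  let f : (K → ℕ) × (K → ℕ) → (H →ₗ[ℝ] ℂ) := fun b =>
      { toFun := fun v => ∑ κ : K, om κ * ((v : ℝ → ℝ) κ : ℂ) *
          (((b.1 κ : ℂ) - ((d κ - b.1 κ : ℕ) : ℂ)) - ((b.2 κ : ℂ) - ((d κ - b.2 κ : ℕ) : ℂ)))
        map_add' := by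
          intro x y
          rw [← Finset.sum_add_distrib]
          refine Finset.sum_congr rfl fun κ _ => ?_
          rw [Submodule.coe_add, Pi.add_apply, Complex.ofReal_add]
          ring
        map_smul' := by
          intro c x
          rw [RingHom.id_apply, Finset.smul_sum]
          refine Finset.sum_congr rfl fun κ _ => ?_
          rw [Submodule.coe_smul, Pi.smul_apply, smul_eq_mul, Complex.ofReal_mul,
            Complex.real_smul]
          ring }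
  obtain ⟨v, hv⟩ := exists_generic ((BB K d ×ˢ BB K d).filter fun b => f b ≠ 0) f (by
    intro j hj
    exact (Finset.mem_filter.1 hj).2)
  refine ⟨v, v.2, ?_⟩
  intro β hβ β' hβ' he κ κ'
  have hf0 : f (β, β') = 0 := by
    by_contra hne
    apply hv (β, β') (Finset.mem_filter.2 ⟨Finset.mem_product.2 ⟨hβ, hβ'⟩, hne⟩)
    show ∑ κ : K, om κ * ((v : ℝ → ℝ) κ : ℂ) *
      (((β κ : ℂ) - ((d κ - β κ : ℕ) : ℂ)) - ((β' κ : ℂ) - ((d κ - β' κ : ℕ) : ℂ))) = 0
    rw [← sub_eq_zero.2 he]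
    unfold ell
    rw [← Finset.sum_sub_distrib]
    refine Finset.sum_congr rfl fun κ _ => ?_
    ring
  have hcast : ∀ κ : K, (((β κ : ℂ) - ((d κ - β κ : ℕ) : ℂ)) -
      ((β' κ : ℂ) - ((d κ - β' κ : ℕ) : ℂ))) = 2 * ((β κ : ℂ) - (β' κ : ℂ)) := by
    intro κ
    have h4 : β κ < d κ + 1 := Finset.mem_range.1 (Fintype.mem_piFinset.1 hβ κ)
    have h5 : β' κ < d κ + 1 := Finset.mem_range.1 (Fintype.mem_piFinset.1 hβ' κ)
    rw [Nat.cast_sub (by omega), Nat.cast_sub (by omega)]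
    ring
  by_cases hkk : κ = κ'
  · rw [hkk]
  have hkk' : (κ : ℝ) ≠ κ' := fun h0 => hkk (Subtype.ext h0)
  have hmem : (w κ' • (Pi.single (κ : ℝ) (1 : ℝ) : ℝ → ℝ) - w κ • (Pi.single (κ' : ℝ) (1 : ℝ) : ℝ → ℝ)) ∈ H := by
    show ∑ x ∈ K, (w κ' • (Pi.single (κ : ℝ) (1 : ℝ) : ℝ → ℝ) -
      w κ • (Pi.single (κ' : ℝ) (1 : ℝ) : ℝ → ℝ)) x * w x = 0
    have e : ∀ x ∈ K, (w κ' • (Pi.single (κ : ℝ) (1 : ℝ) : ℝ → ℝ) -
      w κ • (Pi.single (κ' : ℝ) (1 : ℝ) : ℝ → ℝ)) x * w x =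
        w κ' * w x * (if x = κ then 1 else 0) - w κ * w x * (if x = κ' then 1 else 0) := by
      intro x _
      rw [Pi.sub_apply, Pi.smul_apply, Pi.smul_apply, Pi.single_apply, Pi.single_apply,
        smul_eq_mul, smul_eq_mul]
      ring
    rw [Finset.sum_congr rfl e, Finset.sum_sub_distrib]
    simp only [mul_ite, mul_one, mul_zero]
    rw [Finset.sum_ite_eq', Finset.sum_ite_eq', if_pos κ.2, if_pos κ'.2]
    ring
  have h1 := LinearMap.congr_fun hf0 ⟨_, hmem⟩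
  have h2 : ∑ x : K, om x * (((w κ' • (Pi.single (κ : ℝ) (1 : ℝ) : ℝ → ℝ) -
      w κ • (Pi.single (κ' : ℝ) (1 : ℝ) : ℝ → ℝ)) x : ℝ) : ℂ) *
          (((β x : ℂ) - ((d x - β x : ℕ) : ℂ)) - ((β' x : ℂ) - ((d x - β' x : ℕ) : ℂ))) = 0 := h1
  have h3 : ∀ x ∈ (Finset.univ : Finset K), om x * (((w κ' • (Pi.single (κ : ℝ) (1 : ℝ) : ℝ → ℝ) -
      w κ • (Pi.single (κ' : ℝ) (1 : ℝ) : ℝ → ℝ)) x : ℝ) : ℂ) *
          (((β x : ℂ) - ((d x - β x : ℕ) : ℂ)) - ((β' x : ℂ) - ((d x - β' x : ℕ) : ℂ))) =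
        (if x = κ then om x * w κ' * (2 * ((β x : ℂ) - (β' x : ℂ))) else 0) -
        (if x = κ' then om x * w κ * (2 * ((β x : ℂ) - (β' x : ℂ))) else 0) := by
    intro x _
    rw [hcast, Pi.sub_apply, Pi.smul_apply, Pi.smul_apply, Pi.single_apply, Pi.single_apply,
        smul_eq_mul, smul_eq_mul]
    by_cases hx : x = κ
    · subst hx
      have hx' : (x : ℝ) ≠ κ' := hkk'
      rw [if_pos rfl, if_neg hx', if_pos rfl, if_neg hkk]
      push_cast
      ring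
    · have hx1 : (x : ℝ) ≠ κ := fun h0 => hx (Subtype.ext h0)
      rw [if_neg hx1, if_neg hx]
      by_cases hx2 : x = κ'
      · subst hx2
        rw [if_pos rfl, if_pos rfl]
        push_cast
        ring
      · have hx3 : (x : ℝ) ≠ κ' := fun h0 => hx2 (Subtype.ext h0)
        rw [if_neg hx3, if_neg hx2]
        push_cast
        ring
  rw [Finset.sum_congr rfl h3, Finset.sum_sub_distrib, Finset.sum_ite_eq', Finset.sum_ite_eq',
    if_pos (Finset.mem_univ _), if_pos (Finset.mem_univ _)] at h2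
  linear_combination h2 / 2

/-- comparability in a class -/
private theorem cmp {K : Finset ℝ} (hK : (0 : ℝ) ∉ K) {w : ℝ → ℝ} (hw : ∀ κ ∈ K, 0 < w κ)
    {β β' : K → ℕ} (he : ∀ κ κ' : K, (w κ' : ℂ) * om κ * ((β κ : ℂ) - (β' κ : ℂ)) =
          (w κ : ℂ) * om κ' * ((β κ' : ℂ) - (β' κ' : ℂ))) (κ κ' : K) :
    (β κ ≤ β' κ → β κ' ≤ β' κ') ∧ (β κ = β' κ → β κ' = β' κ') := by
  have hκ : (κ : ℝ) ≠ 0 := fun h0 => hK (h0 ▸ κ.2)
  have hκ' : (κ' : ℝ) ≠ 0 := fun h0 => hK (h0 ▸ κ'.2)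
  have hwκ := hw κ κ.2
  have hwκ' := hw κ' κ'.2
  have h1 := he κ κ'
  have hEq : β κ = β' κ → β κ' = β' κ' := by
    intro h2
    rw [h2, sub_self, mul_zero] at h1
    rcases mul_eq_zero.1 h1.symm with h3 | h3
    · rcases mul_eq_zero.1 h3 with h4 | h4
      · exact absurd (by exact_mod_cast h4) hwκ.ne'
      · exact absurd h4 (om_ne_zero hκ')
    · exact_mod_cast sub_eq_zero.1 h3
  refine ⟨?_, hEq⟩
  intro hle
  rcases hle.eq_or_lt with h2 | hlt
  · exact (hEq h2).le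
  -- real identity
  have h3 : ((w κ' : ℂ) * om κ * ((β κ : ℂ) - (β' κ : ℂ))) ^ 2 =
      ((w κ : ℂ) * om κ' * ((β κ' : ℂ) - (β' κ' : ℂ))) ^ 2 := by rw [h1]
  have h4 : (w κ') ^ 2 * κ * ((β κ : ℝ) - β' κ) ^ 2 = (w κ) ^ 2 * κ' * ((β κ' : ℝ) - β' κ') ^ 2 := by
    rw [mul_pow, mul_pow, mul_pow, mul_pow, om_sq, om_sq] at h3
    have h5 : (w κ' : ℂ) ^ 2 * κ * ((β κ : ℂ) - β' κ) ^ 2 =
        (w κ : ℂ) ^ 2 * κ' * ((β κ' : ℂ) - β' κ') ^ 2 := by linear_combination -h3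
    exact_mod_cast h5
  have hlt' : (β κ : ℝ) - β' κ < 0 := by
    have : (β κ : ℝ) < β' κ := by exact_mod_cast hlt
    linarith
  have hsq : 0 < ((β κ : ℝ) - β' κ) ^ 2 := by
    rw [sq]
    exact mul_pos_of_neg_of_neg hlt' hlt'
  have key : ∀ a b : ℝ, 0 < a → 0 < b →
      w κ' * a * ((β κ : ℝ) - β' κ) = w κ * b * ((β κ' : ℝ) - β' κ') → β κ' ≤ β' κ' := by
    intro a b ha hb hab
    have h6 : w κ' * a * ((β κ : ℝ) - β' κ) < 0 := mul_neg_of_pos_of_neg (mul_pos hwκ' ha) hlt'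
    rw [hab] at h6
    have h7 : (β κ' : ℝ) - β' κ' < 0 := by
      by_contra h8
      push Not at h8
      have := mul_nonneg (mul_pos hwκ hb).le h8
      linarith
    have h8 : (β κ' : ℝ) < β' κ' := by linarith
    exact (by exact_mod_cast h8 : β κ' < β' κ').le
  rcases lt_or_gt_of_ne hκ with hneg | hpos
  · have hneg' : (κ' : ℝ) < 0 := by
      by_contra h6
      push Not at h6
      have h7 : (w κ') ^ 2 * κ * ((β κ : ℝ) - β' κ) ^ 2 < 0 := by
        apply mul_neg_of_neg_of_pos _ hsq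
        exact mul_neg_of_pos_of_neg (by positivity) hneg
      have h8 : 0 ≤ (w κ) ^ 2 * κ' * ((β κ' : ℝ) - β' κ') ^ 2 := by positivity
      linarith
    refine key (Real.sqrt (-κ)) (Real.sqrt (-κ')) (Real.sqrt_pos.2 (by linarith))
      (Real.sqrt_pos.2 (by linarith)) ?_
    rw [om, if_pos hneg, om, if_pos hneg'] at h1
    exact_mod_cast h1
  · have hpos' : 0 < (κ' : ℝ) := by
      by_contra h6
      push Not at h6
      have h7 : 0 < (w κ') ^ 2 * κ * ((β κ : ℝ) - β' κ) ^ 2 := by positivity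
      have h8 : (w κ) ^ 2 * κ' * ((β κ' : ℝ) - β' κ') ^ 2 ≤ 0 := by
        apply mul_nonpos_of_nonpos_of_nonneg _ (by positivity)
        exact mul_nonpos_of_nonneg_of_nonpos (by positivity) h6
      linarith
    refine key (Real.sqrt κ) (Real.sqrt κ') (Real.sqrt_pos.2 hpos)
      (Real.sqrt_pos.2 hpos') ?_
    rw [om, if_neg (not_lt.2 hpos.le), om, if_neg (not_lt.2 hpos'.le)] at h1
    have h9 : (w κ' : ℂ) * (Real.sqrt κ : ℝ) * ((β κ : ℂ) - β' κ) =
        (w κ : ℂ) * (Real.sqrt κ' : ℝ) * ((β κ' : ℂ) - β' κ') := by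
      apply mul_left_cancel₀ Complex.I_ne_zero
      linear_combination h1
    exact_mod_cast h9

open Classical in
/-- root multiplicities of a combination over a class -/
private theorem class_mult {K : Finset ℝ} (hK : (0 : ℝ) ∉ K) (κ₀ : K) (d : ℝ → ℕ)
    (c : Finset (K → ℕ))
    (hc : ∀ β ∈ c, ∀ β' ∈ c, ∀ κ κ' : K, (β κ ≤ β' κ → β κ' ≤ β' κ') ∧
      (β κ = β' κ → β κ' = β' κ')) (g : (K → ℕ) → ℂ)
    (hg : ∃ β ∈ c, g β ≠ 0) :
    ∃ β₁ ∈ c, ∀ κ : K, (∑ β ∈ c, Polynomial.C (g β) * PE d β) ≠ 0 ∧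
      (∑ β ∈ c, Polynomial.C (g β) * PE d β).rootMultiplicity (-om κ) = β₁ κ := by
  obtain ⟨β₁, hβ₁, hmin⟩ := Finset.exists_min_image (c.filter fun β => g β ≠ 0) (fun β => β κ₀) (by
    obtain ⟨β, hβ, hgβ⟩ := hg
    exact ⟨β, Finset.mem_filter.2 ⟨hβ, hgβ⟩⟩)
  obtain ⟨hβ₁c, hβ₁g⟩ := Finset.mem_filter.1 hβ₁
  refine ⟨β₁, hβ₁c, fun κ => ?_⟩
  have hκ0 : (κ : ℝ) ≠ 0 := fun h0 => hK (h0 ▸ κ.2)
  -- the cofactor
  obtain ⟨R, hR⟩ : ∃ R : (K → ℕ) → Polynomial ℂ, ∀ β, R β =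
      (Polynomial.X - Polynomial.C (om κ)) ^ (d κ - β κ) *
      ∏ κ' ∈ Finset.univ.erase κ, ((Polynomial.X - Polynomial.C (-om κ')) ^ β κ' *
        (Polynomial.X - Polynomial.C (om κ')) ^ (d κ' - β κ')) := ⟨fun β => _, fun β => rfl⟩
  have hPE : ∀ β, PE d β = (Polynomial.X - Polynomial.C (-om κ)) ^ β κ * R β := by
    intro β
    unfold PE
    rw [← Finset.mul_prod_erase Finset.univ _ (Finset.mem_univ κ), hR]
    ring
  have hRe : ∀ β, (R β).eval (-om κ) ≠ 0 := by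
    intro β
    rw [hR, Polynomial.eval_mul, Polynomial.eval_prod]
    refine mul_ne_zero ?_ (Finset.prod_ne_zero_iff.2 fun κ' hκ' => ?_)
    · rw [Polynomial.eval_pow, Polynomial.eval_sub, Polynomial.eval_X, Polynomial.eval_C]
      refine pow_ne_zero _ ?_
      intro h3
      apply om_add_ne hκ0 κ
      linear_combination -h3
    · rw [Polynomial.eval_mul, Polynomial.eval_pow, Polynomial.eval_pow, Polynomial.eval_sub,
        Polynomial.eval_sub, Polynomial.eval_X, Polynomial.eval_C, Polynomial.eval_C]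
      refine mul_ne_zero (pow_ne_zero _ ?_) (pow_ne_zero _ ?_)
      · intro h3
        apply Finset.ne_of_mem_erase hκ'
        apply Subtype.ext
        apply om_inj
        linear_combination h3
      · intro h3
        apply om_add_ne hκ0 κ'
        linear_combination -h3
  obtain ⟨Q, hQ⟩ : ∃ Q : Polynomial ℂ, Q = ∑ β ∈ c, Polynomial.C (g β) *
      ((Polynomial.X - Polynomial.C (-om κ)) ^ (β κ - β₁ κ) * R β) := ⟨_, rfl⟩
  have hle : ∀ β ∈ c, g β ≠ 0 → β₁ κ ≤ β κ := by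
    intro β hβ hgβ
    exact (hc β₁ hβ₁c β hβ κ₀ κ).1 (hmin β (Finset.mem_filter.2 ⟨hβ, hgβ⟩))
  have hfac : (∑ β ∈ c, Polynomial.C (g β) * PE d β) =
      Q * (Polynomial.X - Polynomial.C (-om κ)) ^ β₁ κ := by
    rw [hQ, Finset.sum_mul]
    refine Finset.sum_congr rfl fun β hβ => ?_
    by_cases hgβ : g β = 0
    · rw [hgβ]
      simp
    · have h5 : β κ = (β κ - β₁ κ) + β₁ κ := by
        have := hle β hβ hgβ
        omega
      rw [hPE]
      nth_rewrite 1 [h5]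
      rw [pow_add]
      ring
  have hQe : Q.eval (-om κ) ≠ 0 := by
    rw [hQ, Polynomial.eval_finsetSum, Finset.sum_eq_single β₁]
    · rw [Polynomial.eval_mul, Polynomial.eval_mul, Polynomial.eval_C, Nat.sub_self, pow_zero,
        Polynomial.eval_one, one_mul]
      exact mul_ne_zero hβ₁g (hRe β₁)
    · intro β hβ hne
      by_cases hgβ : g β = 0
      · rw [hgβ]
        simp
      · have h6 := hle β hβ hgβ
        have h7 : β κ ≠ β₁ κ := by
          intro h8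
          apply hne
          funext κ'
          exact (hc β hβ β₁ hβ₁c κ κ').2 h8
        have h8 : β κ - β₁ κ ≠ 0 := by omega
        rw [Polynomial.eval_mul, Polynomial.eval_C, Polynomial.eval_mul, Polynomial.eval_pow,
          Polynomial.eval_sub, Polynomial.eval_X, Polynomial.eval_C, sub_self, zero_pow h8, zero_mul, mul_zero]
    · intro h0
      exact absurd hβ₁c h0
  have hQ0 : Q ≠ 0 := by
    intro h0
    apply hQe
    rw [h0, Polynomial.eval_zero]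
  constructor
  · rw [hfac]
    exact mul_ne_zero hQ0 (pow_ne_zero _ (Polynomial.X_sub_C_ne_zero _))
  · rw [hfac, Polynomial.rootMultiplicity_mul_X_sub_C_pow hQ0,
      Polynomial.rootMultiplicity_eq_zero (fun h4 => hQe h4), zero_add]

private theorem eq_of_real {P Q : Polynomial ℂ}
    (h : ∀ lam : ℝ, P.eval (lam : ℂ) = Q.eval (lam : ℂ)) : P = Q := by
  apply Polynomial.eq_of_infinite_eval_eq
  refine Set.infinite_of_injective_forall_mem (f := fun n : ℕ => (((n : ℝ) : ℝ) : ℂ)) ?_ ?_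
  · intro n m hnm
    have h1 : ((n : ℝ) : ℂ) = ((m : ℝ) : ℂ) := hnm
    exact_mod_cast h1
  · intro n
    exact h _

private theorem pol_const {K : Finset ℝ} (hK : (0 : ℝ) ∉ K) (d : ℝ → ℕ) (h : (K → ℕ) → ℂ) :
    Pol K d h (fun _ => 1) (fun _ => 0) = ∑ β ∈ BB K d, h β := by
  have h1 := pol_rot hK d h (fun _ => 0) 0 1 0
  have h2 : rotA (fun κ : ℝ => (0 : ℝ) * (fun _ : ℝ => (0 : ℝ)) κ) (fun _ => (1 : ℝ))
      (fun _ => (0 : ℝ)) = fun _ => 1 := by
    funext κ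
    simp [rotA, cF_zero, sF_zero]
  have h3 : rotB (fun κ : ℝ => (0 : ℝ) * (fun _ : ℝ => (0 : ℝ)) κ) (fun _ => (1 : ℝ))
      (fun _ => (0 : ℝ)) = fun _ => 0 := by
    funext κ
    simp [rotB, cF_zero, sF_zero]
  rw [h2, h3] at h1
  rw [h1]
  refine Finset.sum_congr rfl fun β _ => ?_
  simp

open Classical in
/-- `χ` is a polynomial. -/
private theorem chi_poly {K : Finset ℝ} (hK : (0 : ℝ) ∉ K) {d : ℝ → ℕ} {w : ℝ → ℝ}
    {χ : ℝ → ℂ} {h : (K → ℕ) → ℂ} (hh : Sol K d w χ h) {τ : ℝ → ℝ}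
    (hτ : ∑ κ ∈ K, τ κ * w κ = 0) :
    ∃ P : Polynomial ℂ, ∀ lam : ℝ, P.eval (lam : ℂ) = χ lam := by
  have h1 : ∑ β ∈ BB K d, h β = 1 := by
    rw [← pol_const hK]
    exact hh.1
  obtain ⟨μ, hμ, hσ⟩ : ∃ μ ∈ (BB K d).image (fun β => ell d β τ),
      ∑ β ∈ (BB K d).filter (fun β => ell d β τ = μ), h β ≠ 0 := by
    by_contra hcon
    push Not at hcon
    rw [← Finset.sum_fiberwise_of_maps_to
        (fun β hβ => Finset.mem_image_of_mem (fun β => ell d β τ) hβ),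
      Finset.sum_eq_zero hcon] at h1
    exact zero_ne_one h1
  refine ⟨Polynomial.C (∑ β ∈ (BB K d).filter (fun β => ell d β τ = μ), h β)⁻¹ *
    ∑ β ∈ (BB K d).filter (fun β => ell d β τ = μ), Polynomial.C (h β) * PE d β, fun lam => ?_⟩
  have h2 := class_zero hK hh hτ lam hμ
  rw [Polynomial.eval_mul, Polynomial.eval_C, Polynomial.eval_finsetSum,
    inv_mul_eq_iff_eq_mul₀ hσ, Finset.sum_mul, ← sub_eq_zero, ← Finset.sum_sub_distrib, ← h2]
  refine Finset.sum_congr rfl fun β _ => ?_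
  rw [Polynomial.eval_mul, Polynomial.eval_C]
  ring

open Classical in
private theorem class_id {K : Finset ℝ} (hK : (0 : ℝ) ∉ K) {d : ℝ → ℕ} {w : ℝ → ℝ}
    {χ : ℝ → ℂ} {h : (K → ℕ) → ℂ} (hh : Sol K d w χ h) {τ : ℝ → ℝ}
    (hτ : ∑ κ ∈ K, τ κ * w κ = 0) {P : Polynomial ℂ}
    (hP : ∀ lam : ℝ, P.eval (lam : ℂ) = χ lam) {μ : ℂ}
    (hμ : μ ∈ (BB K d).image fun β => ell d β τ) :
    ∑ β ∈ (BB K d).filter (fun β => ell d β τ = μ), Polynomial.C (h β) * PE d β =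
      Polynomial.C (∑ β ∈ (BB K d).filter (fun β => ell d β τ = μ), h β) * P := by
  apply eq_of_real
  intro lam
  have h2 := class_zero hK hh hτ lam hμ
  rw [Polynomial.eval_mul, Polynomial.eval_C, Polynomial.eval_finsetSum, hP,
    Finset.sum_mul, ← sub_eq_zero, ← Finset.sum_sub_distrib, ← h2]
  refine Finset.sum_congr rfl fun β _ => ?_
  rw [Polynomial.eval_mul, Polynomial.eval_C]
  ring

open Classical in
/-- the support of a solution is in one class, which depends on `χ` only. -/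
private theorem support {K : Finset ℝ} (hK : (0 : ℝ) ∉ K) (κ₀ : K) {d : ℝ → ℕ} {w : ℝ → ℝ}
    (hw : ∀ κ ∈ K, 0 < w κ)
    {χ : ℝ → ℂ} {h : (K → ℕ) → ℂ} (hh : Sol K d w χ h) {τ : ℝ → ℝ}
    (hτ : ∑ κ ∈ K, τ κ * w κ = 0)
    (hgen : ∀ β ∈ BB K d, ∀ β' ∈ BB K d,
      ell d β τ = ell d β' τ → ∀ κ κ' : K,
        (w κ' : ℂ) * om κ * ((β κ : ℂ) - (β' κ : ℂ)) =
          (w κ : ℂ) * om κ' * ((β κ' : ℂ) - (β' κ' : ℂ)))
    {P : Polynomial ℂ} (hP : ∀ lam : ℝ, P.eval (lam : ℂ) = χ lam) :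
    (∀ β ∈ BB K d, h β ≠ 0 → (fun κ : K => P.rootMultiplicity (-om κ)) ∈ BB K d ∧
      ell d β τ = ell d (fun κ : K => P.rootMultiplicity (-om κ)) τ) := by
  intro β₀ hβ₀ hb
  have hμ : ell d β₀ τ ∈ (BB K d).image fun β => ell d β τ := Finset.mem_image_of_mem _ hβ₀
  have hid := class_id hK hh hτ hP hμ
  obtain ⟨β₁, hβ₁, hm⟩ := class_mult hK κ₀ d
    ((BB K d).filter (fun β => ell d β τ = ell d β₀ τ)) (by
      intro β hβ β' hβ' κ κ'
      refine cmp hK hw ?_ κ κ'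
      refine hgen β (Finset.mem_filter.1 hβ).1 β' (Finset.mem_filter.1 hβ').1 ?_
      rw [(Finset.mem_filter.1 hβ).2, (Finset.mem_filter.1 hβ').2]) h
      ⟨β₀, Finset.mem_filter.2 ⟨hβ₀, rfl⟩, hb⟩
  rw [hid] at hm
  have hσ : ∑ β ∈ (BB K d).filter (fun β => ell d β τ = ell d β₀ τ), h β ≠ 0 := by
    intro h0
    apply (hm κ₀).1
    rw [h0, Polynomial.C_0, zero_mul]
  have hroot : (fun κ : K => P.rootMultiplicity (-om κ)) = β₁ := by
    funext κ
    rw [← (hm κ).2, Polynomial.rootMultiplicity_mul (hm κ).1, Polynomial.rootMultiplicity_C,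
      zero_add]
  rw [hroot]
  exact ⟨(Finset.mem_filter.1 hβ₁).1, (Finset.mem_filter.1 hβ₁).2.symm⟩

open Classical in
private theorem uniq_ne {K : Finset ℝ} (hK : (0 : ℝ) ∉ K) (κ₀ : K) {d : ℝ → ℕ} {w : ℝ → ℝ}
    (hw : ∀ κ ∈ K, 0 < w κ)
    {χ : ℝ → ℂ} {h h' : (K → ℕ) → ℂ} (hh : Sol K d w χ h) (hh' : Sol K d w χ h') :
    ∀ β ∈ BB K d, h β = h' β := by
  obtain ⟨τ, hτ, hgen⟩ := exists_tau K d w
  obtain ⟨P, hP⟩ := chi_poly hK hh hτ
  have hs := support hK κ₀ hw hh hτ hgen hP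
  have hs' := support hK κ₀ hw hh' hτ hgen hP
  obtain ⟨m, hm⟩ : ∃ m : K → ℕ, m = (fun κ : K => P.rootMultiplicity (-om κ)) := ⟨_, rfl⟩
  rw [← hm] at hs hs'
  have key : ∀ {g : (K → ℕ) → ℂ}, Sol K d w χ g → (∀ β ∈ BB K d, g β ≠ 0 → m ∈ BB K d ∧
      ell d β τ = ell d m τ) → m ∈ BB K d ∧
      ∑ β ∈ (BB K d).filter (fun β => ell d β τ = ell d m τ), Polynomial.C (g β) * PE d β = P := by
    intro g hg hsg
    have h1 : ∑ β ∈ BB K d, g β = 1 := by
      rw [← pol_const hK]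
      exact hg.1
    have hmB : m ∈ BB K d := by
      by_contra h0
      have : ∀ β ∈ BB K d, g β = 0 := by
        intro β hβ
        by_contra h2
        exact h0 (hsg β hβ h2).1
      rw [Finset.sum_eq_zero this] at h1
      exact zero_ne_one h1
    refine ⟨hmB, ?_⟩
    rw [class_id hK hg hτ hP (Finset.mem_image_of_mem _ hmB)]
    have h2 : ∑ β ∈ (BB K d).filter (fun β => ell d β τ = ell d m τ), g β = 1 := by
      rw [← h1]
      refine Finset.sum_subset (Finset.filter_subset _ _) fun β hβ hβ' => ?_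
      by_contra h3
      exact hβ' (Finset.mem_filter.2 ⟨hβ, (hsg β hβ h3).2⟩)
    rw [h2, Polynomial.C_1, one_mul]
  have k1 := key hh hs
  have k2 := key hh' hs'
  intro β hβ
  by_cases hc : ell d β τ = ell d m τ
  · by_contra hne
    obtain ⟨β₁, _, hm1⟩ := class_mult hK κ₀ d
      ((BB K d).filter (fun β => ell d β τ = ell d m τ)) (by
        intro β hβ β' hβ' κ κ'
        refine cmp hK hw ?_ κ κ'
        refine hgen β (Finset.mem_filter.1 hβ).1 β' (Finset.mem_filter.1 hβ').1 ?_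
        rw [(Finset.mem_filter.1 hβ).2, (Finset.mem_filter.1 hβ').2]) (fun β => h β - h' β)
        ⟨β, Finset.mem_filter.2 ⟨hβ, hc⟩, sub_ne_zero.2 hne⟩
    apply (hm1 κ₀).1
    have e : ∀ β ∈ (BB K d).filter (fun β => ell d β τ = ell d m τ),
        Polynomial.C (h β - h' β) * PE d β =
          Polynomial.C (h β) * PE d β - Polynomial.C (h' β) * PE d β := by
      intro β _
      rw [Polynomial.C_sub, sub_mul]
    rw [Finset.sum_congr rfl e, Finset.sum_sub_distrib, k1.2, k2.2, sub_self]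
  · have h1 : h β = 0 := by
      by_contra h0
      exact hc (hs β hβ h0).2
    have h2 : h' β = 0 := by
      by_contra h0
      exact hc (hs' β hβ h0).2
    rw [h1, h2]

theorem uniq_a (K : Finset ℝ) (hK : (0 : ℝ) ∉ K) (d : ℝ → ℕ) (w : ℝ → ℝ) (hw : ∀ κ ∈ K, 0 < w κ)
    (χ : ℝ → ℂ) (h h' : (K → ℕ) → ℂ) (hh : Sol K d w χ h) (hh' : Sol K d w χ h') (a b : ℝ → ℝ) :
    Pol K d h a b = Pol K d h' a b := by
  rcases isEmpty_or_nonempty K with hE | ⟨⟨κ₀⟩⟩
  · have key : ∀ g : (K → ℕ) → ℂ, Pol K d g a b = Pol K d g (fun _ => 1) (fun _ => 0) := by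
      intro g
      unfold Pol
      refine Finset.sum_congr rfl fun β _ => ?_
      rw [Finset.prod_of_isEmpty, Finset.prod_of_isEmpty]
    rw [key h, key h', hh.1, hh'.1]
  · have hu := uniq_ne hK κ₀ hw hh hh'
    unfold Pol
    refine Finset.sum_congr rfl fun β hβ => ?_
    rw [hu β hβ]

end Pool.Agent.CPC
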