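import Pool.Agent.CPC.Trig
import Pool.Agent.CPC.ExpInd

/-!
# Uniqueness of the solution of the linear identity, `0 ∈ K` (helper50)

Conventions: `K' = K \ {0}`; an exponent `β : K → ℕ` is `(j, β')`, `j = β 0 ≤ d₀ = d 0`; for the
coordinate `0`: `u1 = b`, `u2 = a`.  `E_β'(lam) = ∏_{κ ∈ K'} (lam + om κ)^(β' κ) (lam - om κ)^(d κ - β' κ)`,
`q_β'(x, y) = ∑_j h (j, β') y^j x^(d₀ - j)`.
(1) For `τ` with `∑_{κ ∈ K} τ κ w κ = 0`: `Pol h (R_{sτ} (a, b)) =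
 ∑_β' exp (s ℓ_β'(τ)) q_β'(a 0, b 0 + s τ₀ a 0) ∏_{κ ∈ K'} u1^β' u2^(d-β')`,
 `ℓ_β'(τ) = ∑_{κ ∈ K'} om κ τ κ (2 β' κ - d κ)` (`u1_rot`, `u2_rot`, `u1_rot_zero`, `u2_rot_zero`).
 So `Sol` says for `s` near `0` and all real `lam`:
 `∑_β' exp (s ℓ_β'(τ)) [q_β'(lam, 1 + s τ₀ lam) E_β'(lam) - χ lam * q_β'(1, s τ₀)] = 0`, and
 `∑_β' q_β'(1, 0) = 1`.
(2) If `K' = ∅` take `τ = 0`: `q(lam, 1) = χ lam * q(1, 0) = χ lam` for all real `lam`, a polynomial
 identity `∑_j h j lam^(d₀ - j) = χ lam` which determines all `h j`; done.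
(3) Let `K' ≠ ∅`.  Choose real `τ κ` (`κ ∈ K'`) with `∑_{K'} τ κ w κ ≠ 0` and `ℓ_β' ≠ ℓ_β''` for all
 different `β', β''` (`exists_generic` on functions `K' → ℝ`; the functionals are nonzero since
 `om κ ≠ 0`), and `τ₀ = -(∑_{K'} τ κ w κ) / w 0 ≠ 0`.  `exp_ind` (for each fixed real `lam`, the
 bracket is a polynomial in `s`) gives, with `y = s τ₀`, for every `β'`, all real `lam`, as
 polynomials in `y`: `q_β'(lam, 1 + y lam) E_β'(lam) = χ lam * q_β'(1, y)`.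
(4) Let `q_β' ≠ 0`, `J` the largest `j` with `h (j, β') ≠ 0`.  The coefficient of `y^J` is
 `h_J lam^(d₀ - J) lam^J E_β'(lam) = χ lam * h_J`, so `χ lam = lam^d₀ E_β'(lam)` for all real `lam`.
 For the real `lam ≠ 0` with `E_β'(lam) ≠ 0` (all but finitely many) the identity becomes
 `q_β'(lam, 1 + y lam) = lam^d₀ q_β'(1, y)`, i.e. (homogeneity) `q_β'(1, y + 1/lam) = q_β'(1, y)`;
 a polynomial in `y` with infinitely many periods is constant, so `J = 0`.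
(5) So for every `β'` with `q_β' ≠ 0`: `χ = lam^d₀ E_β'` on the reals, and `h (j, β') = 0` for
 `j ≥ 1`.  The multiplicity of the root `-om κ` (`κ ∈ K'`) of `X^d₀ E_β'` is `β' κ` (`om_inj`,
 `om_add_ne`, `om κ ≠ 0`), so there is only one such `β'`, determined by `χ`, and `h (0, β') = 1` by
 the normalisation.  The same holds for `h'`, so `h = h'` on the index set.
-/

namespace Pool.Agent.CPC

open scoped BigOperators

private noncomputable def SS (K : Finset ℝ) (hK : (0 : ℝ) ∈ K) : Finset K :=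
  Finset.univ.erase ⟨0, hK⟩

private noncomputable def BB (K : Finset ℝ) (d : ℝ → ℕ) : Finset (K → ℕ) :=
  Fintype.piFinset (fun κ : K => Finset.range (d κ + 1))

private noncomputable def ell {K : Finset ℝ} (S : Finset K) (d : ℝ → ℕ) (β : K → ℕ)
    (τ : ℝ → ℝ) : ℂ :=
  ∑ κ ∈ S, om κ * (τ κ : ℂ) * ((β κ : ℂ) - ((d κ - β κ : ℕ) : ℂ))

private noncomputable def EE {K : Finset ℝ} (S : Finset K) (d : ℝ → ℕ) (β : K → ℕ)
    (x : ℂ) : ℂ :=
  ∏ κ ∈ S, ((x + om κ) ^ β κ * (x - om κ) ^ (d κ - β κ))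

private theorem mem_SS {K : Finset ℝ} {hK : (0 : ℝ) ∈ K} {κ : K} :
    κ ∈ SS K hK ↔ (κ : ℝ) ≠ 0 := by
  unfold SS
  rw [Finset.mem_erase]
  constructor
  · intro h h0
    exact h.1 (Subtype.ext h0)
  · intro h
    refine ⟨fun h0 => h ?_, Finset.mem_univ _⟩
    rw [h0]

private theorem pol_rot {K : Finset ℝ} (hK : (0 : ℝ) ∈ K) (d : ℝ → ℕ) (h : (K → ℕ) → ℂ)
    (τ : ℝ → ℝ) (s A B : ℝ) :
    Pol K d h (rotA (fun κ => s * τ κ) (fun _ => A) (fun _ => B))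
        (rotB (fun κ => s * τ κ) (fun _ => A) (fun _ => B)) =
      ∑ β ∈ BB K d, h β * ((((s * τ 0 : ℝ) : ℂ) * A + B) ^ β ⟨0, hK⟩ *
        (A : ℂ) ^ (d 0 - β ⟨0, hK⟩)) * (Complex.exp (ell (SS K hK) d β τ * s) *
          ∏ κ ∈ SS K hK, (((A : ℂ) + om κ * B) ^ β κ * ((A : ℂ) - om κ * B) ^ (d κ - β κ))) := by
  unfold Pol
  refine Finset.sum_congr rfl fun β _ => ?_
  rw [← Finset.mul_prod_erase Finset.univ _ (Finset.mem_univ (⟨0, hK⟩ : K))]
  have e1 : u1 0 (rotA (fun κ => s * τ κ) (fun _ => A) (fun _ => B) 0)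
      (rotB (fun κ => s * τ κ) (fun _ => A) (fun _ => B) 0) = ((s * τ 0 : ℝ) : ℂ) * A + B :=
    u1_rot_zero (s * τ 0) A B
  have e2 : u2 0 (rotA (fun κ => s * τ κ) (fun _ => A) (fun _ => B) 0)
      (rotB (fun κ => s * τ κ) (fun _ => A) (fun _ => B) 0) = (A : ℂ) :=
    u2_rot_zero (s * τ 0) A B
  have e3 : ∀ κ ∈ Finset.univ.erase (⟨0, hK⟩ : K),
      u1 κ (rotA (fun κ => s * τ κ) (fun _ => A) (fun _ => B) κ)
        (rotB (fun κ => s * τ κ) (fun _ => A) (fun _ => B) κ) ^ β κ *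
      u2 κ (rotA (fun κ => s * τ κ) (fun _ => A) (fun _ => B) κ)
        (rotB (fun κ => s * τ κ) (fun _ => A) (fun _ => B) κ) ^ (d κ - β κ) =
      Complex.exp (om κ * (τ κ : ℂ) * ((β κ : ℂ) - ((d κ - β κ : ℕ) : ℂ)) * s) *
        (((A : ℂ) + om κ * B) ^ β κ * ((A : ℂ) - om κ * B) ^ (d κ - β κ)) := by
    intro κ hκ
    have hκ0 : (κ : ℝ) ≠ 0 := mem_SS.1 hκ
    have f1 : u1 κ (rotA (fun κ => s * τ κ) (fun _ => A) (fun _ => B) κ)
        (rotB (fun κ => s * τ κ) (fun _ => A) (fun _ => B) κ) =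
        Complex.exp (om κ * ((s * τ κ : ℝ) : ℂ)) * u1 κ A B := u1_rot hκ0 (s * τ κ) A B
    have f2 : u2 κ (rotA (fun κ => s * τ κ) (fun _ => A) (fun _ => B) κ)
        (rotB (fun κ => s * τ κ) (fun _ => A) (fun _ => B) κ) =
        Complex.exp (-(om κ * ((s * τ κ : ℝ) : ℂ))) * u2 κ A B := u2_rot hκ0 (s * τ κ) A B
    rw [f1, f2, mul_pow, mul_pow, ← Complex.exp_nat_mul, ← Complex.exp_nat_mul, u1, u2,
      if_neg hκ0, if_neg hκ0]
    have f3 : Complex.exp (om κ * (τ κ : ℂ) * ((β κ : ℂ) - ((d κ - β κ : ℕ) : ℂ)) * s) =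
        Complex.exp ((β κ : ℂ) * (om κ * ((s * τ κ : ℝ) : ℂ))) *
        Complex.exp (((d κ - β κ : ℕ) : ℂ) * -(om κ * ((s * τ κ : ℝ) : ℂ))) := by
      rw [← Complex.exp_add]
      congr 1
      push_cast
      ring
    rw [f3]
    ring
  rw [Finset.prod_congr rfl e3, Finset.prod_mul_distrib, ← Complex.exp_sum, ← Finset.sum_mul]
  show h β * (u1 0 (rotA (fun κ => s * τ κ) (fun _ => A) (fun _ => B) 0)
      (rotB (fun κ => s * τ κ) (fun _ => A) (fun _ => B) 0) ^ β ⟨0, hK⟩ *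
      u2 0 (rotA (fun κ => s * τ κ) (fun _ => A) (fun _ => B) 0)
      (rotB (fun κ => s * τ κ) (fun _ => A) (fun _ => B) 0) ^ (d 0 - β ⟨0, hK⟩) *
      (Complex.exp (ell (SS K hK) d β τ * s) * _)) = _
  rw [e1, e2]
  unfold SS
  ring

/-- The identity of `Sol` in coordinates. -/
private theorem sol_coord {K : Finset ℝ} (hK : (0 : ℝ) ∈ K) {d : ℝ → ℕ} {w : ℝ → ℝ}
    {χ : ℝ → ℂ} {h : (K → ℕ) → ℂ} (hh : Sol K d w χ h) {τ : ℝ → ℝ}
    (hτ : ∑ κ ∈ K, τ κ * w κ = 0) : ∀ᶠ s : ℝ in nhds 0, ∀ lam : ℝ,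
    ∑ β ∈ BB K d, Complex.exp (ell (SS K hK) d β τ * s) *
      (h β * ((((τ 0 : ℂ) * lam) * s + 1) ^ β ⟨0, hK⟩ *
        ((lam : ℂ) ^ (d 0 - β ⟨0, hK⟩) * EE (SS K hK) d β lam) -
        χ lam * ((τ 0 : ℂ) * s) ^ β ⟨0, hK⟩)) = 0 := by
  filter_upwards [hh.2 τ hτ] with s hs lam
  have h1 := hs lam
  rw [pol_rot hK, pol_rot hK] at h1
  rw [Finset.mul_sum, ← sub_eq_zero, ← Finset.sum_sub_distrib] at h1
  rw [← h1]
  refine Finset.sum_congr rfl fun β _ => ?_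
  have h2 : ∏ κ ∈ SS K hK, ((((1 : ℝ) : ℂ) + om κ * ((0 : ℝ) : ℂ)) ^ β κ *
      (((1 : ℝ) : ℂ) - om κ * ((0 : ℝ) : ℂ)) ^ (d κ - β κ)) = 1 := by
    refine Finset.prod_eq_one fun κ _ => ?_
    simp
  have h3 : ∏ κ ∈ SS K hK, ((((lam : ℝ) : ℂ) + om κ * ((1 : ℝ) : ℂ)) ^ β κ *
      (((lam : ℝ) : ℂ) - om κ * ((1 : ℝ) : ℂ)) ^ (d κ - β κ)) = EE (SS K hK) d β lam := by
    unfold EE
    refine Finset.prod_congr rfl fun κ _ => ?_
    rw [Complex.ofReal_one, mul_one]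
  rw [h2, h3]
  push_cast
  rw [one_pow]
  ring


/-- The polynomials of the classes. -/
private noncomputable def pp {K : Finset ℝ} (hK : (0 : ℝ) ∈ K) (d : ℝ → ℕ) (h : (K → ℕ) → ℂ)
    (τ : ℝ → ℝ) (χl : ℂ) (lam : ℝ) (c : Finset (K → ℕ)) : Polynomial ℂ :=
  ∑ β ∈ c, Polynomial.C (h β) *
    ((Polynomial.C ((τ 0 : ℂ) * lam) * Polynomial.X + 1) ^ β ⟨0, hK⟩ *
      Polynomial.C ((lam : ℂ) ^ (d 0 - β ⟨0, hK⟩) * EE (SS K hK) d β lam) -
      Polynomial.C χl * (Polynomial.C (τ 0 : ℂ) * Polynomial.X) ^ β ⟨0, hK⟩)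

private theorem pp_eval {K : Finset ℝ} (hK : (0 : ℝ) ∈ K) (d : ℝ → ℕ) (h : (K → ℕ) → ℂ)
    (τ : ℝ → ℝ) (χl : ℂ) (lam : ℝ) (c : Finset (K → ℕ)) (y : ℂ) :
    (pp hK d h τ χl lam c).eval y = ∑ β ∈ c, h β *
      ((((τ 0 : ℂ) * lam) * y + 1) ^ β ⟨0, hK⟩ *
        ((lam : ℂ) ^ (d 0 - β ⟨0, hK⟩) * EE (SS K hK) d β lam) -
        χl * ((τ 0 : ℂ) * y) ^ β ⟨0, hK⟩) := by
  unfold pp
  rw [Polynomial.eval_finsetSum]
  refine Finset.sum_congr rfl fun β _ => ?_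
  simp only [Polynomial.eval_mul, Polynomial.eval_C, Polynomial.eval_sub, Polynomial.eval_pow,
    Polynomial.eval_add, Polynomial.eval_X, Polynomial.eval_one]

open Classical in
private theorem class_zero {K : Finset ℝ} (hK : (0 : ℝ) ∈ K) {d : ℝ → ℕ} {w : ℝ → ℝ}
    {χ : ℝ → ℂ} {h : (K → ℕ) → ℂ} (hh : Sol K d w χ h) {τ : ℝ → ℝ}
    (hτ : ∑ κ ∈ K, τ κ * w κ = 0) (lam : ℝ) {β₀ : K → ℕ} (hβ₀ : β₀ ∈ BB K d) :
    pp hK d h τ (χ lam) lam
      ((BB K d).filter fun β => ell (SS K hK) d β τ = ell (SS K hK) d β₀ τ) = 0 := by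
  have key := exp_ind ((BB K d).image fun β => ell (SS K hK) d β τ)
    (fun μ => pp hK d h τ (χ lam) lam ((BB K d).filter fun β => ell (SS K hK) d β τ = μ)) (by
      filter_upwards [sol_coord hK hh hτ] with s hs
      rw [← hs lam, ← Finset.sum_fiberwise_of_maps_to
        (fun β hβ => Finset.mem_image_of_mem (fun β => ell (SS K hK) d β τ) hβ)]
      refine Finset.sum_congr rfl fun μ _ => ?_
      rw [pp_eval, Finset.mul_sum]
      refine Finset.sum_congr rfl fun β hβ => ?_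
      rw [(Finset.mem_filter.1 hβ).2])
  exact key _ (Finset.mem_image_of_mem _ hβ₀)

open Classical in
/-- A generic vector. -/
private theorem exists_tau {K : Finset ℝ} (hK : (0 : ℝ) ∈ K) {d : ℝ → ℕ} {w : ℝ → ℝ}
    (hw : ∀ κ ∈ K, 0 < w κ) (hne : (K.erase 0).Nonempty) :
    ∃ τ : ℝ → ℝ, ∑ κ ∈ K, τ κ * w κ = 0 ∧ τ 0 ≠ 0 ∧ ∀ β ∈ BB K d, ∀ β' ∈ BB K d,
      ell (SS K hK) d β τ = ell (SS K hK) d β' τ → ∀ κ : K, (κ : ℝ) ≠ 0 → β κ = β' κ := by
  have hw0 : 0 < w 0 := hw 0 hK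
  let f : Option ((K → ℕ) × (K → ℕ)) → ((ℝ → ℝ) →ₗ[ℝ] ℂ) := fun j =>
    match j with
    | none =>
      { toFun := fun v => ∑ κ ∈ K.erase 0, ((v κ : ℂ) * (w κ : ℂ))
        map_add' := by
          intro x y
          rw [← Finset.sum_add_distrib]
          refine Finset.sum_congr rfl fun κ _ => ?_
          rw [Pi.add_apply, Complex.ofReal_add]
          ring
        map_smul' := by
          intro c x
          rw [RingHom.id_apply, Finset.smul_sum]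
          refine Finset.sum_congr rfl fun κ _ => ?_
          rw [Pi.smul_apply, smul_eq_mul, Complex.ofReal_mul, Complex.real_smul]
          ring }
    | some b =>
      { toFun := fun v => ∑ κ ∈ SS K hK, om κ * (v κ : ℂ) *
          (((b.1 κ : ℂ) - ((d κ - b.1 κ : ℕ) : ℂ)) - ((b.2 κ : ℂ) - ((d κ - b.2 κ : ℕ) : ℂ)))
        map_add' := by
          intro x y
          rw [← Finset.sum_add_distrib]
          refine Finset.sum_congr rfl fun κ _ => ?_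
          rw [Pi.add_apply, Complex.ofReal_add]
          ring
        map_smul' := by
          intro c x
          rw [RingHom.id_apply, Finset.smul_sum]
          refine Finset.sum_congr rfl fun κ _ => ?_
          rw [Pi.smul_apply, smul_eq_mul, Complex.ofReal_mul, Complex.real_smul]
          ring }
  obtain ⟨v, hv⟩ := exists_generic (insert none (((BB K d ×ˢ BB K d).filter
    fun b => ∃ κ : K, (κ : ℝ) ≠ 0 ∧ b.1 κ ≠ b.2 κ).image some)) f (by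
    intro j hj
    rw [Finset.mem_insert] at hj
    rcases hj with rfl | hj
    · obtain ⟨κ₁, hκ₁⟩ := hne
      intro h0
      have h1 := LinearMap.congr_fun h0 (Pi.single κ₁ 1)
      have h2 : ∑ κ ∈ K.erase 0, (((Pi.single κ₁ (1 : ℝ) : ℝ → ℝ) κ : ℂ) * (w κ : ℂ)) = 0 := h1
      rw [Finset.sum_eq_single κ₁] at h2
      · rw [Pi.single_eq_same, Complex.ofReal_one, one_mul] at h2
        have h3 := hw κ₁ (Finset.mem_of_mem_erase hκ₁)
        exact h3.ne' (by exact_mod_cast h2)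
      · intro κ _ hκ
        rw [Pi.single_eq_of_ne hκ, Complex.ofReal_zero, zero_mul]
      · intro h3
        exact absurd hκ₁ h3
    · obtain ⟨b, hb, rfl⟩ := Finset.mem_image.1 hj
      obtain ⟨hb1, κ₁, hκ₁, hκ₂⟩ := Finset.mem_filter.1 hb
      obtain ⟨hb2, hb3⟩ := Finset.mem_product.1 hb1
      intro h0
      have h1 := LinearMap.congr_fun h0 (Pi.single (κ₁ : ℝ) 1)
      have h2 : ∑ κ ∈ SS K hK, om κ * ((Pi.single (κ₁ : ℝ) (1 : ℝ) : ℝ → ℝ) κ : ℂ) *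
          (((b.1 κ : ℂ) - ((d κ - b.1 κ : ℕ) : ℂ)) - ((b.2 κ : ℂ) - ((d κ - b.2 κ : ℕ) : ℂ))) =
          0 := h1
      rw [Finset.sum_eq_single κ₁] at h2
      · rw [Pi.single_eq_same, Complex.ofReal_one, mul_one] at h2
        rcases mul_eq_zero.1 h2 with h3 | h3
        · exact om_ne_zero hκ₁ h3
        · apply hκ₂
          have h4 : b.1 κ₁ < d κ₁ + 1 := Finset.mem_range.1 (Fintype.mem_piFinset.1 hb2 κ₁)
          have h5 : b.2 κ₁ < d κ₁ + 1 := Finset.mem_range.1 (Fintype.mem_piFinset.1 hb3 κ₁)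
          rw [Nat.cast_sub (by omega), Nat.cast_sub (by omega)] at h3
          have h6 : (b.1 κ₁ : ℂ) = (b.2 κ₁ : ℂ) := by linear_combination h3 / 2
          exact_mod_cast h6
      · intro κ _ hκ
        rw [Pi.single_eq_of_ne (fun h3 => hκ (Subtype.ext h3)), Complex.ofReal_zero, mul_zero,
          zero_mul]
      · intro h3
        exact absurd (mem_SS.2 hκ₁) h3)
  have hsum : ∑ κ ∈ K.erase 0, v κ * w κ ≠ 0 := by
    intro h0
    apply hv none (Finset.mem_insert_self _ _)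
    show ∑ κ ∈ K.erase 0, ((v κ : ℂ) * (w κ : ℂ)) = 0
    have := congrArg (fun x : ℝ => (x : ℂ)) h0
    simp only [Complex.ofReal_sum, Complex.ofReal_mul, Complex.ofReal_zero] at this
    exact this
  obtain ⟨τ, hτ0, hτ⟩ : ∃ τ : ℝ → ℝ, τ 0 = -(∑ κ ∈ K.erase 0, v κ * w κ) / w 0 ∧
      ∀ κ, κ ≠ 0 → τ κ = v κ :=
    ⟨Function.update v 0 (-(∑ κ ∈ K.erase 0, v κ * w κ) / w 0), Function.update_self _ _ _,
      fun κ hκ => Function.update_of_ne hκ _ _⟩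
  refine ⟨τ, ?_, ?_, ?_⟩
  · have e1 : ∑ κ ∈ K.erase 0, τ κ * w κ = ∑ κ ∈ K.erase 0, v κ * w κ :=
      Finset.sum_congr rfl fun κ hκ => by rw [hτ κ (Finset.ne_of_mem_erase hκ)]
    rw [← Finset.add_sum_erase K _ hK, hτ0, e1, div_mul_cancel₀ _ hw0.ne']
    ring
  · rw [hτ0]
    exact div_ne_zero (neg_ne_zero.2 hsum) hw0.ne'
  · intro β hβ β' hβ' he κ hκ
    by_contra hne'
    apply hv (some (β, β')) (Finset.mem_insert_of_mem (Finset.mem_image_of_mem _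
      (Finset.mem_filter.2 ⟨Finset.mem_product.2 ⟨hβ, hβ'⟩, κ, hκ, hne'⟩)))
    show ∑ κ ∈ SS K hK, om κ * (v κ : ℂ) *
      (((β κ : ℂ) - ((d κ - β κ : ℕ) : ℂ)) - ((β' κ : ℂ) - ((d κ - β' κ : ℕ) : ℂ))) = 0
    rw [← sub_eq_zero.2 he]
    unfold ell
    rw [← Finset.sum_sub_distrib]
    refine Finset.sum_congr rfl fun κ hκ => ?_
    rw [hτ κ (mem_SS.1 hκ)]
    ring


private theorem const_of_period {Q : Polynomial ℂ} {c : ℂ} (hc : c ≠ 0)
    (h : ∀ y, Q.eval (y + c) = Q.eval y) : Q = Polynomial.C (Q.eval 0) := by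
  have h1 : ∀ n : ℕ, Q.eval ((n : ℂ) * c) = Q.eval 0 := by
    intro n
    induction n with
    | zero => simp
    | succ n ih =>
      rw [Nat.cast_succ, add_mul, one_mul, h, ih]
  apply Polynomial.eq_of_infinite_eval_eq
  refine Set.infinite_of_injective_forall_mem (f := fun n : ℕ => (n : ℂ) * c) ?_ ?_
  · intro n m hnm
    exact_mod_cast mul_right_cancel₀ hc hnm
  · intro n
    show Q.eval ((n : ℂ) * c) = (Polynomial.C (Q.eval 0)).eval _
    rw [h1, Polynomial.eval_C]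

/-- There is a real number at which no `EE` vanishes. -/
private theorem exists_lam {K : Finset ℝ} (S : Finset K) : ∃ lam : ℝ, lam ≠ 0 ∧
    ∀ (d : ℝ → ℕ) (β : K → ℕ), EE S d β lam ≠ 0 := by
  refine ⟨1 + ∑ κ ∈ S, ‖om κ‖, ?_, fun d β => ?_⟩
  · have : 0 ≤ ∑ κ ∈ S, ‖om κ‖ := Finset.sum_nonneg fun _ _ => norm_nonneg _
    positivity
  · unfold EE
    rw [Finset.prod_ne_zero_iff]
    intro κ hκ
    have h0 : ‖om κ‖ ≤ ∑ κ ∈ S, ‖om κ‖ :=
      Finset.single_le_sum (f := fun κ : K => ‖om κ‖) (fun _ _ => norm_nonneg _) hκ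
    have h1 : ‖(((1 + ∑ κ ∈ S, ‖om κ‖ : ℝ)) : ℂ)‖ = 1 + ∑ κ ∈ S, ‖om κ‖ := by
      rw [Complex.norm_real, Real.norm_eq_abs, abs_of_pos]
      have := norm_nonneg (om κ)
      linarith
    refine mul_ne_zero (pow_ne_zero _ ?_) (pow_ne_zero _ ?_)
    · intro h2
      have h3 := congrArg norm (eq_neg_of_add_eq_zero_left h2)
      rw [norm_neg, h1] at h3
      linarith
    · intro h2
      have h3 := congrArg norm (sub_eq_zero.1 h2)
      rw [h1] at h3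
      linarith

open Classical in
/-- The coefficients with `h β ≠ 0`. -/
private theorem coeff_info {K : Finset ℝ} (hK : (0 : ℝ) ∈ K) {d : ℝ → ℕ} {w : ℝ → ℝ}
    (hw : ∀ κ ∈ K, 0 < w κ) (hne : (K.erase 0).Nonempty)
    {χ : ℝ → ℂ} {h : (K → ℕ) → ℂ} (hh : Sol K d w χ h) {β₀ : K → ℕ} (hβ₀ : β₀ ∈ BB K d)
    (hb : h β₀ ≠ 0) :
    β₀ ⟨0, hK⟩ = 0 ∧ ∀ lam : ℝ, lam ≠ 0 → χ lam = EE (SS K hK) d β₀ lam * (lam : ℂ) ^ d 0 := by
  obtain ⟨τ, hτ, hτ0, hgen⟩ := exists_tau (d := d) hK hw hne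
  have hτ0' : (τ 0 : ℂ) ≠ 0 := by exact_mod_cast hτ0
  obtain ⟨c, hc⟩ : ∃ c : Finset (K → ℕ),
      c = (BB K d).filter fun β => ell (SS K hK) d β τ = ell (SS K hK) d β₀ τ := ⟨_, rfl⟩
  have hcB : ∀ β ∈ c, β ∈ BB K d := by
    intro β hβ
    rw [hc] at hβ
    exact (Finset.mem_filter.1 hβ).1
  have hcS : ∀ β ∈ c, ∀ κ : K, (κ : ℝ) ≠ 0 → β κ = β₀ κ := by
    intro β hβ
    rw [hc] at hβ
    exact hgen β (Finset.mem_filter.1 hβ).1 β₀ hβ₀ (Finset.mem_filter.1 hβ).2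
  have hβ₀c : β₀ ∈ c := by
    rw [hc]
    exact Finset.mem_filter.2 ⟨hβ₀, rfl⟩
  have hEE : ∀ β ∈ c, ∀ x, EE (SS K hK) d β x = EE (SS K hK) d β₀ x := by
    intro β hβ x
    unfold EE
    refine Finset.prod_congr rfl fun κ hκ => ?_
    rw [hcS β hβ κ (mem_SS.1 hκ)]
  have hle : ∀ β ∈ c, β ⟨0, hK⟩ ≤ d 0 := by
    intro β hβ
    exact Nat.lt_succ_iff.1 (Finset.mem_range.1 (Fintype.mem_piFinset.1 (hcB β hβ) ⟨0, hK⟩))
  obtain ⟨Q, hQ⟩ : ∃ Q : Polynomial ℂ,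
      Q = ∑ β ∈ c, Polynomial.C (h β) * Polynomial.X ^ β ⟨0, hK⟩ := ⟨_, rfl⟩
  have hQe : ∀ y, Q.eval y = ∑ β ∈ c, h β * y ^ β ⟨0, hK⟩ := by
    intro y
    rw [hQ, Polynomial.eval_finsetSum]
    refine Finset.sum_congr rfl fun β _ => ?_
    simp
  have hQc : ∀ β ∈ c, Q.coeff (β ⟨0, hK⟩) = h β := by
    intro β hβ
    rw [hQ, Polynomial.finsetSum_coeff, Finset.sum_eq_single β]
    · simp
    · intro β' hβ' hne'
      rw [Polynomial.coeff_C_mul_X_pow, if_neg]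
      intro he
      apply hne'
      funext κ
      by_cases hκ : (κ : ℝ) = 0
      · have : κ = ⟨0, hK⟩ := Subtype.ext hκ
        rw [this, he]
      · rw [hcS β' hβ' κ hκ, hcS β hβ κ hκ]
    · intro h0
      exact absurd hβ h0
  have hQ0 : Q ≠ 0 := by
    intro h0
    apply hb
    rw [← hQc β₀ hβ₀c, h0, Polynomial.coeff_zero]
  -- the functional equation
  have hfe : ∀ lam : ℝ, lam ≠ 0 → ∀ y : ℂ,
      EE (SS K hK) d β₀ lam * (lam : ℂ) ^ d 0 * Q.eval (y + (lam : ℂ)⁻¹) = χ lam * Q.eval y := by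
    intro lam hlam y
    have hlam' : (lam : ℂ) ≠ 0 := by exact_mod_cast hlam
    have h1 := class_zero hK hh hτ lam hβ₀
    rw [← hc] at h1
    have h2 := pp_eval hK d h τ (χ lam) lam c (y / (τ 0 : ℂ))
    rw [h1, Polynomial.eval_zero] at h2
    rw [hQe, hQe, Finset.mul_sum, Finset.mul_sum, ← sub_eq_zero, ← Finset.sum_sub_distrib, h2]
    refine Finset.sum_congr rfl fun β hβ => ?_
    have h3 : (τ 0 : ℂ) * (y / (τ 0 : ℂ)) = y := mul_div_cancel₀ _ hτ0'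
    have h4 : (τ 0 : ℂ) * lam * (y / (τ 0 : ℂ)) + 1 = lam * (y + (lam : ℂ)⁻¹) := by
      rw [mul_add, mul_inv_cancel₀ hlam', mul_right_comm, h3, mul_comm]
    have h5 : (lam : ℂ) ^ d 0 = (lam : ℂ) ^ β ⟨0, hK⟩ * (lam : ℂ) ^ (d 0 - β ⟨0, hK⟩) := by
      rw [← pow_add, Nat.add_sub_cancel' (hle β hβ)]
    rw [h3, h4, mul_pow, h5, hEE β hβ]
    ring
  have hpe : ∀ lam : ℝ, lam ≠ 0 →
      Polynomial.C (EE (SS K hK) d β₀ lam * (lam : ℂ) ^ d 0) * Polynomial.taylor (lam : ℂ)⁻¹ Q =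
        Polynomial.C (χ lam) * Q := by
    intro lam hlam
    apply Polynomial.funext
    intro y
    rw [Polynomial.eval_mul, Polynomial.eval_mul, Polynomial.eval_C, Polynomial.eval_C,
      Polynomial.taylor_eval]
    exact hfe lam hlam y
  have hchi : ∀ lam : ℝ, lam ≠ 0 → χ lam = EE (SS K hK) d β₀ lam * (lam : ℂ) ^ d 0 := by
    intro lam hlam
    have h1 := congrArg (fun R : Polynomial ℂ => R.coeff Q.natDegree) (hpe lam hlam)
    simp only [Polynomial.coeff_C_mul, Polynomial.coeff_taylor_natDegree] at h1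
    exact (mul_right_cancel₀ (Polynomial.leadingCoeff_ne_zero.2 hQ0) h1).symm
  refine ⟨?_, hchi⟩
  obtain ⟨lam, hlam, hlamE⟩ := exists_lam (SS K hK)
  have hlam' : (lam : ℂ) ≠ 0 := by exact_mod_cast hlam
  have hconst := const_of_period (Q := Q) (inv_ne_zero hlam') (fun y => by
    have h1 := hfe lam hlam y
    rw [hchi lam hlam] at h1
    exact mul_left_cancel₀ (mul_ne_zero (hlamE d β₀) (pow_ne_zero _ hlam')) h1)
  by_contra hz
  apply hb
  rw [← hQc β₀ hβ₀c, hconst, Polynomial.coeff_C, if_neg hz]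


private theorem infinite_real (P : ℂ → Prop) (h : ∀ lam : ℝ, lam ≠ 0 → P lam) :
    Set.Infinite {x : ℂ | P x} := by
  refine Set.infinite_of_injective_forall_mem (f := fun n : ℕ => (((n : ℝ) + 1 : ℝ) : ℂ)) ?_ ?_
  · intro n m hnm
    have h1 : ((n : ℝ) + 1 : ℝ) = ((m : ℝ) + 1 : ℝ) := Complex.ofReal_injective hnm
    have h2 : (n : ℝ) = m := by linarith
    exact_mod_cast h2
  · intro n
    exact h _ (by positivity)

/-- `EE` as a polynomial. -/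
private noncomputable def PE {K : Finset ℝ} (S : Finset K) (d : ℝ → ℕ) (β : K → ℕ) :
    Polynomial ℂ :=
  ∏ κ ∈ S, ((Polynomial.X - Polynomial.C (-om κ)) ^ β κ *
    (Polynomial.X - Polynomial.C (om κ)) ^ (d κ - β κ))

private theorem PE_eval {K : Finset ℝ} (S : Finset K) (d : ℝ → ℕ) (β : K → ℕ) (x : ℂ) :
    (PE S d β).eval x = EE S d β x := by
  unfold PE EE
  rw [Polynomial.eval_prod]
  refine Finset.prod_congr rfl fun κ _ => ?_
  simp

private theorem PE_mult {K : Finset ℝ} (hK : (0 : ℝ) ∈ K) (d : ℝ → ℕ) (β : K → ℕ) {κ₀ : K}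
    (hκ₀ : (κ₀ : ℝ) ≠ 0) :
    (PE (SS K hK) d β).rootMultiplicity (-om κ₀) = β κ₀ := by
  obtain ⟨R, hR⟩ : ∃ R : Polynomial ℂ, R = (Polynomial.X - Polynomial.C (om κ₀)) ^ (d κ₀ - β κ₀) *
      ∏ κ ∈ (SS K hK).erase κ₀, ((Polynomial.X - Polynomial.C (-om κ)) ^ β κ *
        (Polynomial.X - Polynomial.C (om κ)) ^ (d κ - β κ)) := ⟨_, rfl⟩
  have h1 : PE (SS K hK) d β = R * (Polynomial.X - Polynomial.C (-om κ₀)) ^ β κ₀ := by
    unfold PE
    rw [← Finset.mul_prod_erase (SS K hK) _ (mem_SS.2 hκ₀), hR]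
    ring
  have h2 : R.eval (-om κ₀) ≠ 0 := by
    rw [hR, Polynomial.eval_mul, Polynomial.eval_prod]
    refine mul_ne_zero ?_ (Finset.prod_ne_zero_iff.2 fun κ hκ => ?_)
    · rw [Polynomial.eval_pow, Polynomial.eval_sub, Polynomial.eval_X, Polynomial.eval_C]
      refine pow_ne_zero _ ?_
      intro h3
      apply om_add_ne hκ₀ κ₀
      linear_combination -h3
    · rw [Polynomial.eval_mul, Polynomial.eval_pow, Polynomial.eval_pow, Polynomial.eval_sub,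
        Polynomial.eval_sub, Polynomial.eval_X, Polynomial.eval_C, Polynomial.eval_C]
      refine mul_ne_zero (pow_ne_zero _ ?_) (pow_ne_zero _ ?_)
      · intro h3
        apply Finset.ne_of_mem_erase hκ
        apply Subtype.ext
        apply om_inj
        linear_combination h3
      · intro h3
        apply om_add_ne hκ₀ κ
        linear_combination -h3
  have h3 : R ≠ 0 := by
    intro h0
    apply h2
    rw [h0, Polynomial.eval_zero]
  rw [h1, Polynomial.rootMultiplicity_mul_X_sub_C_pow h3,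
    Polynomial.rootMultiplicity_eq_zero (fun h4 => h2 h4), zero_add]

private theorem EE_inj {K : Finset ℝ} (hK : (0 : ℝ) ∈ K) (d : ℝ → ℕ) {β β' : K → ℕ}
    (hz : β ⟨0, hK⟩ = β' ⟨0, hK⟩)
    (h : ∀ lam : ℝ, lam ≠ 0 → EE (SS K hK) d β lam = EE (SS K hK) d β' lam) : β = β' := by
  have h1 : PE (SS K hK) d β = PE (SS K hK) d β' := by
    apply Polynomial.eq_of_infinite_eval_eq
    refine infinite_real (fun x => (PE (SS K hK) d β).eval x = (PE (SS K hK) d β').eval x) ?_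
    intro lam hlam
    rw [PE_eval, PE_eval]
    exact h lam hlam
  funext κ
  by_cases hκ : (κ : ℝ) = 0
  · have : κ = ⟨0, hK⟩ := Subtype.ext hκ
    rw [this, hz]
  · rw [← PE_mult hK d β hκ, ← PE_mult hK d β' hκ, h1]

private theorem pol_const {K : Finset ℝ} (hK : (0 : ℝ) ∈ K) (d : ℝ → ℕ) (h : (K → ℕ) → ℂ) :
    Pol K d h (fun _ => 1) (fun _ => 0) = ∑ β ∈ BB K d, h β * 0 ^ β ⟨0, hK⟩ := by
  have h1 := pol_rot hK d h (fun _ => 0) 0 1 0
  have h2 : rotA (fun κ : ℝ => (0 : ℝ) * (fun _ : ℝ => (0 : ℝ)) κ) (fun _ => (1 : ℝ))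
      (fun _ => (0 : ℝ)) = fun _ => 1 := by
    funext κ
    simp [rotA, cF_zero, sF_zero]
  have h3 : rotB (fun κ : ℝ => (0 : ℝ) * (fun _ : ℝ => (0 : ℝ)) κ) (fun _ => (1 : ℝ))
      (fun _ => (0 : ℝ)) = fun _ => 0 := by
    funext κ
    simp [rotB, cF_zero, sF_zero]
  rw [h2, h3] at h1
  rw [h1]
  refine Finset.sum_congr rfl fun β _ => ?_
  simp

private theorem sol_support {K : Finset ℝ} (hK : (0 : ℝ) ∈ K) {d : ℝ → ℕ} {w : ℝ → ℝ}
    (hw : ∀ κ ∈ K, 0 < w κ) (hne : (K.erase 0).Nonempty)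
    {χ : ℝ → ℂ} {h : (K → ℕ) → ℂ} (hh : Sol K d w χ h) :
    ∃ β₁ ∈ BB K d, β₁ ⟨0, hK⟩ = 0 ∧ h β₁ = 1 ∧ (∀ β ∈ BB K d, β ≠ β₁ → h β = 0) ∧
      ∀ lam : ℝ, lam ≠ 0 → χ lam = EE (SS K hK) d β₁ lam * (lam : ℂ) ^ d 0 := by
  have h1 : ∑ β ∈ BB K d, h β * (0 : ℂ) ^ β ⟨0, hK⟩ = 1 := by
    rw [← pol_const hK]
    exact hh.1
  obtain ⟨β₁, hβ₁, hb⟩ : ∃ β ∈ BB K d, h β ≠ 0 := by
    by_contra hcon
    push Not at hcon
    rw [Finset.sum_eq_zero fun β hβ => by rw [hcon β hβ, zero_mul]] at h1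
    exact zero_ne_one h1
  have hc := coeff_info hK hw hne hh hβ₁ hb
  have huni : ∀ β ∈ BB K d, β ≠ β₁ → h β = 0 := by
    intro β hβ hne'
    by_contra h0
    have hc' := coeff_info hK hw hne hh hβ h0
    apply hne'
    refine EE_inj hK d (hc'.1.trans hc.1.symm) fun lam hlam => ?_
    have hlam' : (lam : ℂ) ≠ 0 := by exact_mod_cast hlam
    exact mul_right_cancel₀ (pow_ne_zero (d 0) hlam') ((hc'.2 lam hlam).symm.trans (hc.2 lam hlam))
  refine ⟨β₁, hβ₁, hc.1, ?_, huni, hc.2⟩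
  rw [Finset.sum_eq_single β₁, hc.1, pow_zero, mul_one] at h1
  · exact h1
  · intro β hβ hne'
    rw [huni β hβ hne', zero_mul]
  · intro h0
    exact absurd hβ₁ h0

private theorem uniq_empty {K : Finset ℝ} (hK : (0 : ℝ) ∈ K) {d : ℝ → ℕ} {w : ℝ → ℝ}
    (hne : ¬ (K.erase 0).Nonempty) {χ : ℝ → ℂ} {h h' : (K → ℕ) → ℂ} (hh : Sol K d w χ h)
    (hh' : Sol K d w χ h') : ∀ β ∈ BB K d, h β = h' β := by
  have hS : SS K hK = ∅ := by
    rw [Finset.eq_empty_iff_forall_notMem]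
    intro κ hκ
    exact hne ⟨κ, Finset.mem_erase.2 ⟨mem_SS.1 hκ, κ.2⟩⟩
  have hdet : ∀ β β' : K → ℕ, β ⟨0, hK⟩ = β' ⟨0, hK⟩ → β = β' := by
    intro β β' he
    funext κ
    have hκ : (κ : ℝ) = 0 := by
      by_contra h0
      have := (mem_SS (hK := hK)).2 h0
      rw [hS] at this
      exact absurd this (Finset.notMem_empty _)
    have : κ = ⟨0, hK⟩ := Subtype.ext hκ
    rw [this, he]
  have hle : ∀ β ∈ BB K d, β ⟨0, hK⟩ ≤ d 0 := by
    intro β hβ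
    exact Nat.lt_succ_iff.1 (Finset.mem_range.1 (Fintype.mem_piFinset.1 hβ ⟨0, hK⟩))
  have key : ∀ {g : (K → ℕ) → ℂ}, Sol K d w χ g → ∀ lam : ℝ,
      (∑ β ∈ BB K d, Polynomial.C (g β) * Polynomial.X ^ (d 0 - β ⟨0, hK⟩) :
        Polynomial ℂ).eval (lam : ℂ) = χ lam := by
    intro g hg lam
    have h1 : ∑ β ∈ BB K d, g β * (0 : ℂ) ^ β ⟨0, hK⟩ = 1 := by
      rw [← pol_const hK]
      exact hg.1
    have h2 := (sol_coord hK hg (τ := fun _ => 0) (by simp)).self_of_nhds lam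
    have h3 : ∑ β ∈ BB K d, (g β * (lam : ℂ) ^ (d 0 - β ⟨0, hK⟩) -
        χ lam * (g β * (0 : ℂ) ^ β ⟨0, hK⟩)) = 0 := by
      refine Eq.trans (Finset.sum_congr rfl fun β _ => ?_) h2
      have h4 : EE (SS K hK) d β (lam : ℂ) = 1 := by
        rw [hS]
        rfl
      rw [h4]
      simp only [Complex.ofReal_zero, mul_zero, Complex.exp_zero, zero_mul, zero_add, one_pow,
        one_mul, mul_one]
      ring
    rw [Finset.sum_sub_distrib, ← Finset.mul_sum, h1, mul_one, sub_eq_zero] at h3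
    rw [← h3, Polynomial.eval_finsetSum]
    refine Finset.sum_congr rfl fun β _ => ?_
    simp
  have heq : (∑ β ∈ BB K d, Polynomial.C (h β) * Polynomial.X ^ (d 0 - β ⟨0, hK⟩) :
      Polynomial ℂ) = ∑ β ∈ BB K d, Polynomial.C (h' β) * Polynomial.X ^ (d 0 - β ⟨0, hK⟩) := by
    apply Polynomial.eq_of_infinite_eval_eq
    refine infinite_real (fun x => Polynomial.eval x _ = Polynomial.eval x _) ?_
    intro lam _
    rw [key hh, key hh']
  have hco : ∀ (g : (K → ℕ) → ℂ), ∀ β ∈ BB K d,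
      (∑ β ∈ BB K d, Polynomial.C (g β) * Polynomial.X ^ (d 0 - β ⟨0, hK⟩) :
        Polynomial ℂ).coeff (d 0 - β ⟨0, hK⟩) = g β := by
    intro g β hβ
    rw [Polynomial.finsetSum_coeff, Finset.sum_eq_single β]
    · simp
    · intro β' hβ' hne'
      rw [Polynomial.coeff_C_mul_X_pow, if_neg]
      intro he
      apply hne'
      apply hdet
      have h1 := hle β hβ
      have h2 := hle β' hβ'
      omega
    · intro h0
      exact absurd hβ h0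
  intro β hβ
  rw [← hco h β hβ, heq, hco h' β hβ]

theorem uniq_b (K : Finset ℝ) (hK : (0 : ℝ) ∈ K) (d : ℝ → ℕ) (w : ℝ → ℝ) (hw : ∀ κ ∈ K, 0 < w κ)
    (χ : ℝ → ℂ) (h h' : (K → ℕ) → ℂ) (hh : Sol K d w χ h) (hh' : Sol K d w χ h') (a b : ℝ → ℝ) :
    Pol K d h a b = Pol K d h' a b := by
  have key : ∀ β ∈ BB K d, h β = h' β := by
    by_cases hne : (K.erase 0).Nonempty
    · obtain ⟨β₁, _, hz, h1, hu, hc⟩ := sol_support hK hw hne hh
      obtain ⟨β₂, _, hz', h1', hu', hc'⟩ := sol_support hK hw hne hh'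
      have he : β₁ = β₂ := by
        refine EE_inj hK d (hz.trans hz'.symm) fun lam hlam => ?_
        have hlam' : (lam : ℂ) ≠ 0 := by exact_mod_cast hlam
        exact mul_right_cancel₀ (pow_ne_zero (d 0) hlam')
          ((hc lam hlam).symm.trans (hc' lam hlam))
      subst he
      intro β hβ
      by_cases hb : β = β₁
      · rw [hb, h1, h1']
      · rw [hu β hβ hb, hu' β hβ hb]
    · exact uniq_empty hK hne hh hh'
  unfold Pol
  exact Finset.sum_congr rfl fun β hβ => by rw [key β hβ]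

end Pool.Agent.CPC
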