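import Pool.Agent.CPC.Transport
import Pool.Agent.CPC.PtDet
import Pool.Agent.CPC.Flow
import Pool.Agent.CPC.UniqA
import Pool.Agent.CPC.UniqB
import Pool.Agent.CPC.Par

/-!
# Constant principal curvatures and constant angles imply isoparametric (helper50)
-/

namespace Pool.Agent.CPC

open scoped BigOperators ContDiff

variable {ι : Type*} [Fintype ι] {W : ι → Type*} [∀ i, NormedAddCommGroup (W i)]
  [∀ i, NormedSpace ℝ (W i)] [∀ i, FiniteDimensional ℝ (W i)] {E : Type*} [NormedAddCommGroup E]
  [NormedSpace ℝ E] [FiniteDimensional ℝ E] {F : ∀ i, SF (W i)} {al : ι → ℝ}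

theorem D_congr (P : PtData F al E) {a b b' : ι → ℝ} (h : ∀ i, al i ≠ 0 → b i = b' i) :
    P.D a b = P.D a b' := by
  have hT : P.T a b = P.T a b' := by
    refine LinearMap.ext fun v => funext fun i => ?_
    by_cases hi : al i = 0
    · have hq := P.q_zero hi v
      simp only [PtData.T, LinearMap.pi_apply, LinearMap.add_apply, LinearMap.smul_apply, hq,
        smul_zero]
    · simp only [PtData.T, LinearMap.pi_apply, LinearMap.add_apply, LinearMap.smul_apply,
        h i hi]
  simp only [PtData.D, hT]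

theorem D_one_zero (P : PtData F al E) : P.D (fun _ => 1) (fun _ => 0) = LinearMap.id := by
  refine LinearMap.ext fun v => P.inj (funext fun i => ?_)
  rw [P.A_D, LinearMap.id_apply, P.A_eq]
  simp

theorem G_one_zero (P : PtData F al E) : P.G (fun _ => 1) (fun _ => 0) = 1 := by
  have : (fun i => if al i = 0 then (1 : ℝ) else (fun _ : ℝ => (1 : ℝ)) (kA F al i)) =
      fun _ => 1 := by
    funext i; split_ifs <;> rfl
  unfold PtData.G
  rw [this, D_one_zero, LinearMap.det_id]

/-- the value at `(lam, 1)` is determined by the principal curvatures -/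
theorem G_lam_eq (P P' : PtData F al E) (S S' : E →ₗ[ℝ] E)
    (hS : ∀ v i, P.A (S v) i = -P.q i v) (hS' : ∀ v i, P'.A (S' v) i = -P'.q i v)
    (h : S.charpoly = S'.charpoly) (lam : ℝ) :
    P.G (fun _ => lam) (fun _ => 1) = P'.G (fun _ => lam) (fun _ => 1) := by
  have hne : ∀ l : ℝ, l ≠ 0 → P.G (fun _ => l) (fun _ => 1) = P'.G (fun _ => l) (fun _ => 1) := by
    intro l hl
    have h1 := charpoly_eval P S hS l
    have h2 := charpoly_eval P' S' hS' l
    rw [h, h2] at h1
    exact (mul_left_cancel₀ (pow_ne_zero _ hl) h1).symm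
  have hcont : ∀ Q : PtData F al E, Continuous fun l : ℝ => Q.G (fun _ => l) (fun _ => 1) := by
    intro Q
    obtain ⟨c, hc⟩ := G_expansion Q
    have h1 : Continuous fun l : ℝ => ((Q.G (fun _ => l) (fun _ => 1) : ℝ) : ℂ) := by
      simp only [hc]
      unfold Pol
      refine continuous_finsetSum _ fun β _ => Continuous.mul continuous_const ?_
      refine continuous_finsetProd _ fun κ _ => Continuous.mul (Continuous.pow ?_ _)
        (Continuous.pow ?_ _)
      · unfold u1
        split_ifs
        · exact continuous_const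
        · exact Complex.continuous_ofReal.add continuous_const
      · unfold u2
        split_ifs
        · exact Complex.continuous_ofReal
        · exact Complex.continuous_ofReal.sub continuous_const
    have h2 : (fun l : ℝ => Q.G (fun _ => l) (fun _ => 1)) =
        fun l : ℝ => Complex.re ((Q.G (fun _ => l) (fun _ => 1) : ℝ) : ℂ) := by
      funext l; simp
    rw [h2]
    exact Complex.continuous_re.comp h1
  have hd : Dense ({0}ᶜ : Set ℝ) := dense_compl_singleton 0
  have heq : (fun l : ℝ => P.G (fun _ => l) (fun _ => 1)) =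
      fun l : ℝ => P'.G (fun _ => l) (fun _ => 1) :=
    Continuous.ext_on hd (hcont P) (hcont P') (fun l hl => hne l hl)
  exact congrFun heq lam

open Classical in
/-- the sum over the factors is the sum over the blocks -/
theorem sum_blocks (τ : ℝ → ℝ) :
    ∑ κ ∈ KK F al, τ κ * Aw F al κ = ∑ i, τ (kA F al i) * al i := by
  have h1 : ∑ i, τ (kA F al i) * al i =
      ∑ i ∈ Finset.univ.filter (fun i => al i ≠ 0), τ (kA F al i) * al i := by
    rw [Finset.sum_filter]
    refine Finset.sum_congr rfl fun i _ => ?_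
    by_cases hi : al i = 0
    · simp [hi]
    · simp [hi]
  rw [h1]
  unfold KK
  rw [← Finset.sum_fiberwise_of_maps_to (s := Finset.univ.filter (fun i => al i ≠ 0))
    (t := (Finset.univ.filter (fun i => al i ≠ 0)).image (kA F al)) (g := kA F al)
    (fun i hi => Finset.mem_image_of_mem _ hi) (fun i => τ (kA F al i) * al i)]
  refine Finset.sum_congr rfl fun κ _ => ?_
  unfold Aw
  rw [Finset.mul_sum, Finset.filter_filter]
  refine Finset.sum_congr rfl fun i hi => ?_
  rw [(Finset.mem_filter.1 hi).2.2]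

open Classical in
theorem Aw_pos (P : PtData F al E) : ∀ κ ∈ KK F al, 0 < Aw F al κ := by
  intro κ hκ
  unfold KK at hκ
  rw [Finset.mem_image] at hκ
  obtain ⟨i, hi, hik⟩ := hκ
  rw [Finset.mem_filter] at hi
  unfold Aw
  refine Finset.sum_pos' (fun j _ => P.al_nonneg j) ⟨i, ?_, ?_⟩
  · rw [Finset.mem_filter]
    exact ⟨Finset.mem_univ _, hi.2, hik⟩
  · exact lt_of_le_of_ne (P.al_nonneg i) (Ne.symm hi.2)

/-- the linear identity for the coefficients of `G` -/
theorem sol_of_hyp {U : Set E} {X ξ : E → ∀ i, W i} (h : IsHyp F U X ξ)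
    (ha : ∀ u ∈ U, ∀ i, (F i).B (ξ u i) (ξ u i) = al i) (χ : ℝ → ℂ)
    (P : ∀ u ∈ U, PtData F al E)
    (hx : ∀ u (hu : u ∈ U), (P u hu).x = X u) (hn : ∀ u (hu : u ∈ U), (P u hu).n = ξ u)
    (hA : ∀ u (hu : u ∈ U) v, (P u hu).A v = fderiv ℝ X u v)
    (hN : ∀ u (hu : u ∈ U) v, (P u hu).N v = fderiv ℝ ξ u v)
    (hχ : ∀ u (hu : u ∈ U) (lam : ℝ), (((P u hu).G (fun _ => lam) (fun _ => 1) : ℝ) : ℂ) = χ lam)
    (u : E) (hu : u ∈ U) (c : (KK F al → ℕ) → ℂ)
    (hc : ∀ a b : ℝ → ℝ, (((P u hu).G a b : ℝ) : ℂ) = Pol (KK F al) (dm F al) c a b) :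
    Sol (KK F al) (dm F al) (Aw F al) χ c := by
  refine ⟨?_, ?_⟩
  · rw [← hc, G_one_zero]; simp
  · intro τ hτ
    rw [sum_blocks] at hτ
    have hfl := flow h al ha u hu (fun i => τ (kA F al i)) hτ
    filter_upwards [hfl] with s hs lam
    obtain ⟨u', hu', Ψ, h1, h2, h3, h4⟩ := hs
    have htr := transport (P u hu) (P u' hu') (fun i => cF (kA F al i) (s * τ (kA F al i)))
      (fun i => sF (kA F al i) (s * τ (kA F al i)))
      (fun i => cF_sq_add _ _)
      (fun i => by rw [hx, hx, hn]; exact h1 i)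
      (fun i => by rw [hx, hn, hn]; exact h2 i) Ψ
      (fun v i => by rw [hA, hA, hN]; exact h3 v i)
      (fun v i => by rw [hA, hN, hN]; exact h4 v i)
      (fun i => if al i = 0 then 1 else lam) (fun _ => 1)
    have hk0 : ∀ i, al i = 0 → kA F al i = 0 := by
      intro i hi; unfold kA; rw [hi, mul_zero]
    have e1 : LinearMap.det ((P u' hu').D (fun i => if al i = 0 then 1 else lam) (fun _ => 1)) =
        (P u' hu').G (fun _ => lam) (fun _ => 1) := rfl
    have e2 : LinearMap.det ((P u hu).D (fun i => cF (kA F al i) (s * τ (kA F al i)))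
        (fun i => sF (kA F al i) (s * τ (kA F al i)))) =
        (P u hu).G (rotA (fun κ => s * τ κ) (fun _ => 1) (fun _ => 0))
          (rotB (fun κ => s * τ κ) (fun _ => 1) (fun _ => 0)) := by
      unfold PtData.G
      congr 2
      · funext i
        by_cases hi : al i = 0
        · rw [if_pos hi, hk0 i hi, cF_zero_left]
        · rw [if_neg hi]; simp [rotA]
      · funext i
        simp [rotB]
    have e3 : LinearMap.det ((P u hu).D
        (fun i => cF (kA F al i) (s * τ (kA F al i)) * (if al i = 0 then 1 else lam) -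
          kA F al i * sF (kA F al i) (s * τ (kA F al i)) * 1)
        (fun i => sF (kA F al i) (s * τ (kA F al i)) * (if al i = 0 then 1 else lam) +
          cF (kA F al i) (s * τ (kA F al i)) * 1)) =
        (P u hu).G (rotA (fun κ => s * τ κ) (fun _ => lam) (fun _ => 1))
          (rotB (fun κ => s * τ κ) (fun _ => lam) (fun _ => 1)) := by
      unfold PtData.G
      congr 1
      rw [D_congr (P u hu) (b' := fun i =>
        rotB (fun κ => s * τ κ) (fun _ => lam) (fun _ => 1) (kA F al i))]
      · congr 1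
        funext i
        by_cases hi : al i = 0
        · rw [if_pos hi, if_pos hi, hk0 i hi, cF_zero_left]; simp
        · rw [if_neg hi, if_neg hi]; rfl
      · intro i hi
        rw [if_neg hi]; rfl
    rw [e1, e2] at htr
    have htr' := htr.trans e3
    rw [← hc, ← hc, ← hχ u' hu' lam]
    rw [← htr']
    push_cast
    rfl

theorem main {U : Set E} {X ξ : E → ∀ i, W i} (h : IsHyp F U X ξ)
    (hcpc : ConstPC F U X ξ) (hang : ConstAngle F U ξ) : Isoparametric F U X ξ := by
  classical
  rcases U.eq_empty_or_nonempty with hU | ⟨u₀, hu₀⟩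
  · exact ⟨fun _ => 0, fun u hu => by rw [hU] at hu; exact absurd hu (Set.notMem_empty u)⟩
  set al : ι → ℝ := fun i => (F i).B (ξ u₀ i) (ξ u₀ i) with hal
  have ha : ∀ u ∈ U, ∀ i, (F i).B (ξ u i) (ξ u i) = al i := fun u hu i => hang i u hu u₀ hu₀
  choose P hx hn hA hN using ptData_of_hyp h al ha
  obtain ⟨Pc, hPc⟩ := hcpc
  have hsh : ∀ u (hu : u ∈ U), ∃ S : E →ₗ[ℝ] E,
      (∀ v i, (P u hu).A (S v) i = -(P u hu).q i v) ∧ S.charpoly = Pc := by
    intro u hu
    obtain ⟨S, hS, hSc⟩ := hPc u hu
    refine ⟨S, fun v i => ?_, hSc⟩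
    rw [hA, hS v i, (P u hu).q_apply, (P u hu).kA_mu, hN, hn, hA, hx]
  have hlam : ∀ u (hu : u ∈ U) (lam : ℝ), (P u hu).G (fun _ => lam) (fun _ => 1) =
      (P u₀ hu₀).G (fun _ => lam) (fun _ => 1) := by
    intro u hu lam
    obtain ⟨S, hS, hSc⟩ := hsh u hu
    obtain ⟨S', hS', hSc'⟩ := hsh u₀ hu₀
    exact G_lam_eq (P u hu) (P u₀ hu₀) S S' hS hS' (hSc.trans hSc'.symm) lam
  set χ : ℝ → ℂ := fun lam => (((P u₀ hu₀).G (fun _ => lam) (fun _ => 1) : ℝ) : ℂ) with hχ
  have hG : ∀ u (hu : u ∈ U) (a b : ℝ → ℝ), (P u hu).G a b = (P u₀ hu₀).G a b := by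
    intro u hu a b
    obtain ⟨c, hc⟩ := G_expansion (P u hu)
    obtain ⟨c', hc'⟩ := G_expansion (P u₀ hu₀)
    have s1 := sol_of_hyp h ha χ P hx hn hA hN (fun u hu lam => by rw [hlam u hu lam]) u hu c hc
    have s2 := sol_of_hyp h ha χ P hx hn hA hN (fun u hu lam => by rw [hlam u hu lam]) u₀ hu₀ c' hc'
    have key : Pol (KK F al) (dm F al) c a b = Pol (KK F al) (dm F al) c' a b := by
      by_cases hK : (0 : ℝ) ∈ KK F al
      · exact uniq_b _ hK _ _ (Aw_pos (P u₀ hu₀)) χ c c' s1 s2 a b
      · exact uniq_a _ hK _ _ (Aw_pos (P u₀ hu₀)) χ c c' s1 s2 a b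
    rw [← hc, ← hc'] at key
    exact_mod_cast key
  set g : ℝ → ℝ := fun t => (P u₀ hu₀).G (fun κ => cF κ t) (fun κ => sF κ t) with hg
  have hk0 : ∀ i, al i = 0 → kA F al i = 0 := by
    intro i hi; unfold kA; rw [hi, mul_zero]
  have hgD : ∀ u (hu : u ∈ U) (t : ℝ), LinearMap.det ((P u hu).D (fun i => cF (kA F al i) t)
      (fun i => sF (kA F al i) t)) = g t := by
    intro u hu t
    rw [hg]
    simp only
    rw [← hG u hu]
    unfold PtData.G
    congr 2
    funext i
    by_cases hi : al i = 0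
    · rw [if_pos hi, hk0 i hi, cF_zero_left]
    · rw [if_neg hi]
  have hg0 : g 0 = 1 := by
    rw [hg]
    simp only [cF_zero, sF_zero]
    exact G_one_zero _
  have hgc : Continuous g := by
    obtain ⟨c, hc⟩ := G_expansion (P u₀ hu₀)
    have hcc : ∀ κ, Continuous (cF κ) := fun κ =>
      continuous_iff_continuousAt.2 fun t => (hasDerivAt_cF κ t).continuousAt
    have hcs : ∀ κ, Continuous (sF κ) := fun κ =>
      continuous_iff_continuousAt.2 fun t => (hasDerivAt_sF κ t).continuousAt
    have h1 : Continuous fun t : ℝ => ((g t : ℝ) : ℂ) := by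
      simp only [hg, hc]
      unfold Pol
      refine continuous_finsetSum _ fun β _ => Continuous.mul continuous_const ?_
      refine continuous_finsetProd _ fun κ _ => Continuous.mul (Continuous.pow ?_ _)
        (Continuous.pow ?_ _)
      · unfold u1
        split_ifs
        · exact Complex.continuous_ofReal.comp (hcs _)
        · exact (Complex.continuous_ofReal.comp (hcc _)).add
            (continuous_const.mul (Complex.continuous_ofReal.comp (hcs _)))
      · unfold u2
        split_ifs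
        · exact Complex.continuous_ofReal.comp (hcc _)
        · exact (Complex.continuous_ofReal.comp (hcc _)).sub
            (continuous_const.mul (Complex.continuous_ofReal.comp (hcs _)))
    have h2 : g = fun t : ℝ => Complex.re ((g t : ℝ) : ℂ) := by
      funext t; simp
    rw [h2]
    exact Complex.continuous_re.comp h1
  refine ⟨fun t => -(deriv g t) / g t, fun u₁ hu₁ => ?_⟩
  have hopen : ∀ᶠ t in nhds (0 : ℝ), g t ≠ 0 :=
    hgc.continuousAt.eventually_ne (by rw [hg0]; exact one_ne_zero)
  obtain ⟨ε, hε, hball⟩ := Metric.eventually_nhds_iff.1 hopen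
  refine ⟨ε, hε, ?_⟩
  filter_upwards [h.op.mem_nhds hu₁] with u hu t ht
  have hgt : g t ≠ 0 := hball (by rw [Real.dist_eq, sub_zero]; exact ht)
  have hdet : LinearMap.det ((P u hu).D (fun i => cF (kA F al i) t)
      (fun i => sF (kA F al i) t)) ≠ 0 := by rw [hgD u hu t]; exact hgt
  obtain ⟨hinj, S, hS, htrS⟩ := par_shape (P u hu) t hdet
  have hkap : ∀ u ∈ U, ∀ i, kap F ξ u i = kA F al i := by
    intro u hu i; unfold kap kA; rw [ha u hu i]
  have hevX : parX F X ξ t =ᶠ[nhds u] fun u i => cF (kA F al i) t • X u i +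
      sF (kA F al i) t • ξ u i := by
    filter_upwards [h.op.mem_nhds hu] with y hy
    funext i
    unfold parX
    rw [hkap y hy i]
  have hevN : parN F X ξ t =ᶠ[nhds u] fun u i => (-(kA F al i * sF (kA F al i) t)) • X u i +
      cF (kA F al i) t • ξ u i := by
    filter_upwards [h.op.mem_nhds hu] with y hy
    funext i
    unfold parN
    rw [hkap y hy i]
  have hdX : DifferentiableAt ℝ X u :=
    (h.smX.contDiffAt (h.op.mem_nhds hu)).differentiableAt (by simp)
  have hdN : DifferentiableAt ℝ ξ u :=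
    (h.smN.contDiffAt (h.op.mem_nhds hu)).differentiableAt (by simp)
  have hcomb : ∀ (c s : ι → ℝ) (v : E) (i : ι),
      fderiv ℝ (fun u i => c i • X u i + s i • ξ u i) u v i =
        c i • fderiv ℝ X u v i + s i • fderiv ℝ ξ u v i := by
    intro c s v i
    have hXi : ∀ i, HasFDerivAt (fun u => X u i) ((ContinuousLinearMap.proj i).comp
        (fderiv ℝ X u)) u := fun i => (hasFDerivAt_pi'.1 hdX.hasFDerivAt) i
    have hNi : ∀ i, HasFDerivAt (fun u => ξ u i) ((ContinuousLinearMap.proj i).comp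
        (fderiv ℝ ξ u)) u := fun i => (hasFDerivAt_pi'.1 hdN.hasFDerivAt) i
    have hd : HasFDerivAt (fun u i => c i • X u i + s i • ξ u i)
        (ContinuousLinearMap.pi fun i => c i • (ContinuousLinearMap.proj i).comp (fderiv ℝ X u) +
          s i • (ContinuousLinearMap.proj i).comp (fderiv ℝ ξ u)) u := by
      rw [hasFDerivAt_pi']
      intro i
      have := ((hXi i).const_smul (c i)).add ((hNi i).const_smul (s i))
      exact this
    rw [hd.fderiv]
    simp
  have hfX : ∀ v i, fderiv ℝ (parX F X ξ t) u v i = cF (kA F al i) t • (P u hu).A v i +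
      sF (kA F al i) t • (P u hu).N v i := by
    intro v i
    rw [hevX.fderiv_eq, hcomb, hA, hN]
  have hfN : ∀ v i, fderiv ℝ (parN F X ξ t) u v i =
      (-(kA F al i * sF (kA F al i) t)) • (P u hu).A v i +
      cF (kA F al i) t • (P u hu).N v i := by
    intro v i
    rw [hevN.fderiv_eq, hcomb, hA, hN]
  refine ⟨?_, S, ?_, ?_⟩
  · intro v w hvw
    have : ∀ i, cF (kA F al i) t • (P u hu).A (v - w) i +
        sF (kA F al i) t • (P u hu).N (v - w) i = 0 := by
      intro i
      rw [← hfX, map_sub, hvw, sub_self]; rfl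
    exact sub_eq_zero.1 (hinj _ this)
  · intro v i
    rw [hfX, hfX, hfN, hS v i, hevX.eq_of_nhds, hevN.eq_of_nhds]
    simp only [hx, hn]
  · rw [htrS]
    simp only [hgD u hu]

end Pool.Agent.CPC
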