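import Pool.Agent.CPC.PtBasic

/-!
# Transport of the determinants along the flats (helper50)

`κ i = kA F al i`.  Write `p = P.p i v`, `q = P.q i v`, `mu = P.mu i v` (for a fixed `v`), and
`x', n', A', N'` for `P'`.
(1) `P'.mu i (Ψ v) = mu`: multiply by `al i`: `B(n', A' Ψ v) = B(-κ s x + c n, c A v + s N v)
 = -κ s c B(x, A v) - κ s² B(x, N v) + c² B(n, A v) + c s B(n, N v)`.  Here `κ B(x, A v) = 0`
 (`Atan`), `B(n, N v) = 0` (`ang`), `κ B(x, N v) = -κ B(n, A v)` (`cross`, `κ = k * al`), so the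
 value is `(c² + κ s²) B(n, A v) = B(n, A v)`.  (If `al i = 0` both `mu` vanish.)
(2) `P'.p i (Ψ v) = c p + s q` and `P'.q i (Ψ v) = -κ s p + c q`: with
 `A' Ψ v = c A v + s N v`, `n' = -κ s x + c n`, `x' = c x + s n`:
 `A' Ψ v - mu n' = c (A v - mu n) + s (N v + κ mu x)`;
 `N' Ψ v + κ mu x' = -κ s A v + c N v + κ mu c x + κ mu s n = -κ s (A v - mu n) + c (N v + κ mu x)`.
(3) Let `J : E → E` be the linear map with `A' (J v) i = P.p i v + P.mu i v • n' i`: the right hand
 side is tangent at `x'` (`k B(x', p) = c k B(x, p) + s k B(n, p) = 0` and `P'.tan`) and orthogonal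
 to `n'` (`κ`-free: `B(n', p) = -κ s B(x, p) + c B(n, p) = 0` since `κ B(x, p) = al (k B(x, p)) = 0`;
 and `∑ mu i * al i = 0`), so define `J = P'.Ainv ∘ (...)`.  Then `P'.mu i (J v) = P.mu i v` and
 `P'.p i (J v) = P.p i v`.  `J` is injective by `ext_pmu` for `P`, hence `det J ≠ 0`
 (`LinearMap.det`, finite dimension).
(4) By `P'.ext_pmu`, (1), (2), `p_D`, `mu_D`:
 `P'.D a b (Ψ v) = J (P.D (c a - κ s b) (s a + c b) v)` and `Ψ v = J (P.D c s v)`.
(5) Take determinants: `det (P'.D a b) * det J * det (P.D c s) = det J * det (P.D ..)`; cancel.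
-/

namespace Pool.Agent.CPC

open scoped BigOperators

variable {ι : Type*} [Fintype ι] {W : ι → Type*} [∀ i, NormedAddCommGroup (W i)]
  [∀ i, NormedSpace ℝ (W i)] {E : Type*} [NormedAddCommGroup E] [NormedSpace ℝ E]
  [FiniteDimensional ℝ E] {F : ∀ i, SF (W i)} {al : ι → ℝ}

namespace PtData

omit [FiniteDimensional ℝ E] in
private theorem Ainv_A (P : PtData F al E) (v : E) : P.Ainv (P.A v) = v := by
  have h := (LinearMap.exists_leftInverse_of_injective P.A
    (LinearMap.ker_eq_bot.2 P.inj)).choose_spec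
  exact congrArg (fun f : E →ₗ[ℝ] E => f v) h

omit [FiniteDimensional ℝ E] in
private theorem mu_zero (P : PtData F al E) {i : ι} (h : al i = 0) (v : E) : P.mu i v = 0 := by
  unfold PtData.mu
  rw [h, inv_zero, zero_smul]
  rfl

omit [FiniteDimensional ℝ E] in
private theorem kA_p (P : PtData F al E) (i : ι) (v : E) :
    kA F al i * (F i).B (P.x i) (P.p i v) = 0 := by
  have h := P.p_tan i v
  unfold kA
  calc (F i).k * al i * (F i).B (P.x i) (P.p i v)
      = al i * ((F i).k * (F i).B (P.x i) (P.p i v)) := by ring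
    _ = 0 := by rw [h, mul_zero]

end PtData

open PtData

section

variable (P P' : PtData F al E) (c s : ι → ℝ)

omit [FiniteDimensional ℝ E] in
private theorem mu_psi (hcs : ∀ i, c i ^ 2 + kA F al i * s i ^ 2 = 1)
    (hn : ∀ i, P'.n i = (-(kA F al i * s i)) • P.x i + c i • P.n i)
    (Ψ : E →ₗ[ℝ] E)
    (hA : ∀ v i, P'.A (Ψ v) i = c i • P.A v i + s i • P.N v i) (v : E) (i : ι) :
    P'.mu i (Ψ v) = P.mu i v := by
  by_cases hal : al i = 0
  · rw [mu_zero P' hal, mu_zero P hal]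
  · apply mul_left_cancel₀ hal
    rw [P'.al_mu, P.al_mu, hn, hA]
    simp only [map_add, map_smul, add_apply, smul_apply, smul_eq_mul]
    have h1 : kA F al i * (F i).B (P.x i) (P.A v i) = 0 := by
      have h := P.Atan v i
      unfold kA
      calc (F i).k * al i * (F i).B (P.x i) (P.A v i)
          = al i * ((F i).k * (F i).B (P.x i) (P.A v i)) := by ring
        _ = 0 := by rw [h, mul_zero]
    have h2 : (F i).B (P.n i) (P.N v i) = 0 := P.ang v i
    have h3 : kA F al i * (F i).B (P.x i) (P.N v i) =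
        -(kA F al i * (F i).B (P.n i) (P.A v i)) := by
      have h := P.cross v i
      unfold kA
      linear_combination al i * h
    have h4 := hcs i
    linear_combination (-(s i) * c i) * h1 + (c i * s i) * h2 + (-(s i) * s i) * h3 +
      (F i).B (P.n i) (P.A v i) * h4

omit [FiniteDimensional ℝ E] in
private theorem p_psi (hcs : ∀ i, c i ^ 2 + kA F al i * s i ^ 2 = 1)
    (hn : ∀ i, P'.n i = (-(kA F al i * s i)) • P.x i + c i • P.n i)
    (Ψ : E →ₗ[ℝ] E)
    (hA : ∀ v i, P'.A (Ψ v) i = c i • P.A v i + s i • P.N v i) (v : E) (i : ι) :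
    P'.p i (Ψ v) = c i • P.p i v + s i • P.q i v := by
  rw [P'.p_apply, P.p_apply, P.q_apply, mu_psi P P' c s hcs hn Ψ hA, hA, hn]
  module

omit [FiniteDimensional ℝ E] in
private theorem q_psi (hcs : ∀ i, c i ^ 2 + kA F al i * s i ^ 2 = 1)
    (hx : ∀ i, P'.x i = c i • P.x i + s i • P.n i)
    (hn : ∀ i, P'.n i = (-(kA F al i * s i)) • P.x i + c i • P.n i)
    (Ψ : E →ₗ[ℝ] E)
    (hA : ∀ v i, P'.A (Ψ v) i = c i • P.A v i + s i • P.N v i)
    (hN : ∀ v i, P'.N (Ψ v) i = (-(kA F al i * s i)) • P.A v i + c i • P.N v i)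
    (v : E) (i : ι) :
    P'.q i (Ψ v) = (-(kA F al i * s i)) • P.p i v + c i • P.q i v := by
  rw [P'.q_apply, P.p_apply, P.q_apply, mu_psi P P' c s hcs hn Ψ hA, hN, hx]
  module

/-- The comparison map `J`. -/
private noncomputable def TJ : E →ₗ[ℝ] (∀ i, W i) :=
  LinearMap.pi fun i => P.p i + (P.mu i).smulRight (P'.n i)

omit [FiniteDimensional ℝ E] in
private theorem TJ_apply (v : E) (i : ι) : TJ P P' v i = P.p i v + P.mu i v • P'.n i := rfl

private noncomputable def JJ : E →ₗ[ℝ] E := P'.Ainv ∘ₗ TJ P P'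

omit [FiniteDimensional ℝ E] in
private theorem B_n'_p (hn : ∀ i, P'.n i = (-(kA F al i * s i)) • P.x i + c i • P.n i)
    (v : E) (i : ι) : (F i).B (P'.n i) (P.p i v) = 0 := by
  rw [hn]
  simp only [map_add, map_smul, add_apply, smul_apply, smul_eq_mul]
  have h1 := kA_p P i v
  have h2 := P.p_orth i v
  linear_combination (-(s i)) * h1 + c i * h2

omit [FiniteDimensional ℝ E] in
private theorem A_JJ (hx : ∀ i, P'.x i = c i • P.x i + s i • P.n i)
    (hn : ∀ i, P'.n i = (-(kA F al i * s i)) • P.x i + c i • P.n i) (v : E) :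
    P'.A (JJ P P' v) = TJ P P' v := by
  have htan : IsTan F P'.x (TJ P P' v) := by
    intro i
    rw [TJ_apply, map_add, map_smul, smul_eq_mul]
    have h1 : (F i).k * (F i).B (P'.x i) (P.p i v) = 0 := by
      rw [hx]
      simp only [map_add, map_smul, add_apply, smul_apply, smul_eq_mul]
      have e1 := P.p_tan i v
      have e2 := P.p_orth i v
      linear_combination c i * e1 + (F i).k * s i * e2
    have h2 : (F i).k * (F i).B (P'.x i) (P'.n i) = 0 := P'.tan i
    linear_combination h1 + P.mu i v * h2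
  have horth : ip F P'.n (TJ P P' v) = 0 := by
    unfold ip
    have h1 : ∀ i, (F i).B (P'.n i) (TJ P P' v i) = al i * P.mu i v := by
      intro i
      rw [TJ_apply, map_add, map_smul, smul_eq_mul, B_n'_p P P' c s hn, P'.nn]
      ring
    rw [Finset.sum_congr rfl (fun i _ => h1 i)]
    exact P.sum_mu v
  obtain ⟨w, hw⟩ := P'.surj _ htan horth
  unfold JJ
  rw [LinearMap.comp_apply, ← hw, Ainv_A]

omit [FiniteDimensional ℝ E] in
private theorem mu_JJ (hx : ∀ i, P'.x i = c i • P.x i + s i • P.n i)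
    (hn : ∀ i, P'.n i = (-(kA F al i * s i)) • P.x i + c i • P.n i) (v : E) (i : ι) :
    P'.mu i (JJ P P' v) = P.mu i v := by
  by_cases hal : al i = 0
  · rw [mu_zero P' hal, mu_zero P hal]
  · apply mul_left_cancel₀ hal
    rw [P'.al_mu, A_JJ P P' c s hx hn, TJ_apply, map_add, map_smul, smul_eq_mul,
      B_n'_p P P' c s hn, P'.nn]
    ring

omit [FiniteDimensional ℝ E] in
private theorem p_JJ (hx : ∀ i, P'.x i = c i • P.x i + s i • P.n i)
    (hn : ∀ i, P'.n i = (-(kA F al i * s i)) • P.x i + c i • P.n i) (v : E) (i : ι) :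
    P'.p i (JJ P P' v) = P.p i v := by
  rw [P'.p_apply, mu_JJ P P' c s hx hn, A_JJ P P' c s hx hn, TJ_apply, add_sub_cancel_right]

private theorem det_JJ (hx : ∀ i, P'.x i = c i • P.x i + s i • P.n i)
    (hn : ∀ i, P'.n i = (-(kA F al i * s i)) • P.x i + c i • P.n i) :
    LinearMap.det (JJ P P') ≠ 0 := by
  intro h
  have h1 := LinearMap.bot_lt_ker_of_det_eq_zero h
  have h2 : LinearMap.ker (JJ P P') = ⊥ := by
    rw [LinearMap.ker_eq_bot']
    intro v hv
    apply P.ext_pmu
    · intro i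
      rw [← p_JJ P P' c s hx hn v i, hv, map_zero, map_zero]
    · intro i
      rw [← mu_JJ P P' c s hx hn v i, hv, map_zero, map_zero]
  rw [h2] at h1
  exact lt_irrefl _ h1

end

theorem transport (P P' : PtData F al E) (c s : ι → ℝ)
    (hcs : ∀ i, c i ^ 2 + kA F al i * s i ^ 2 = 1)
    (hx : ∀ i, P'.x i = c i • P.x i + s i • P.n i)
    (hn : ∀ i, P'.n i = (-(kA F al i * s i)) • P.x i + c i • P.n i)
    (Ψ : E →ₗ[ℝ] E)
    (hA : ∀ v i, P'.A (Ψ v) i = c i • P.A v i + s i • P.N v i)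
    (hN : ∀ v i, P'.N (Ψ v) i = (-(kA F al i * s i)) • P.A v i + c i • P.N v i)
    (a b : ι → ℝ) :
    LinearMap.det (P'.D a b) * LinearMap.det (P.D c s) =
      LinearMap.det (P.D (fun i => c i * a i - kA F al i * s i * b i)
        (fun i => s i * a i + c i * b i)) := by
  have e1 : P'.D a b ∘ₗ Ψ = JJ P P' ∘ₗ P.D (fun i => c i * a i - kA F al i * s i * b i)
      (fun i => s i * a i + c i * b i) := by
    apply LinearMap.ext
    intro v
    rw [LinearMap.comp_apply, LinearMap.comp_apply]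
    apply P'.ext_pmu
    · intro i
      rw [P'.p_D, p_JJ P P' c s hx hn, P.p_D, p_psi P P' c s hcs hn Ψ hA,
        q_psi P P' c s hcs hx hn Ψ hA hN]
      module
    · intro i
      rw [P'.mu_D, mu_JJ P P' c s hx hn, P.mu_D, mu_psi P P' c s hcs hn Ψ hA]
  have e2 : Ψ = JJ P P' ∘ₗ P.D c s := by
    apply LinearMap.ext
    intro v
    rw [LinearMap.comp_apply]
    apply P'.ext_pmu
    · intro i
      rw [p_JJ P P' c s hx hn, P.p_D, p_psi P P' c s hcs hn Ψ hA]
    · intro i
      rw [mu_JJ P P' c s hx hn, P.mu_D, mu_psi P P' c s hcs hn Ψ hA]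
  have e3 := congrArg (fun f : E →ₗ[ℝ] E => LinearMap.det f) e1
  have e4 := congrArg (fun f : E →ₗ[ℝ] E => LinearMap.det f) e2
  simp only [LinearMap.det_comp] at e3 e4
  rw [e4] at e3
  apply mul_left_cancel₀ (det_JJ P P' c s hx hn)
  linear_combination e3

end Pool.Agent.CPC
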