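import Pool.Agent.CPC.Def

/-!
# Trigonometric functions `cF`, `sF`, the numbers `om` (helper50)

All statements are one-variable calculus: split `κ > 0`, `κ < 0`, `κ = 0`.
For `κ ≠ 0`: `cF κ t + om κ * sF κ t = exp (om κ * t)` (Euler, `om κ = I √κ` or `√(-κ)`), and
`om κ ^ 2 = - κ`; hence
`u1 κ (c a - κ s b) (s a + c b) = (c + om s) a + om (c + om s) b = exp (om τ) * u1 κ a b`, the same
with `-om` for `u2`.
`om` is injective and `om κ + om κ' ≠ 0` if `κ ≠ 0`: the values are `0`, positive reals (`κ < 0`),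
`i` times positive reals (`κ > 0`).
`rot_ode`: `d/ds (cF κ (s τ) • f s - sF κ (s τ) • g s) = 0` and
`d/ds (κ * sF κ (s τ) • f s + cF κ (s τ) • g s) = 0` on `(-ε, ε)`, so both are constant there; solve
for `f s`, `g s` with `cF ^ 2 + κ * sF ^ 2 = 1`.
-/

namespace Pool.Agent.CPC

private theorem cF_of_pos {κ : ℝ} (h : 0 < κ) : cF κ = fun t => Real.cos (Real.sqrt κ * t) := by
  funext t
  rw [cF, if_pos h]

private theorem sF_of_pos {κ : ℝ} (h : 0 < κ) :
    sF κ = fun t => Real.sin (Real.sqrt κ * t) / Real.sqrt κ := by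
  funext t
  rw [sF, if_pos h]

private theorem cF_of_neg {κ : ℝ} (h : κ < 0) : cF κ = fun t => Real.cosh (Real.sqrt (-κ) * t) := by
  funext t
  rw [cF, if_neg (not_lt.2 h.le), if_pos h]

private theorem sF_of_neg {κ : ℝ} (h : κ < 0) :
    sF κ = fun t => Real.sinh (Real.sqrt (-κ) * t) / Real.sqrt (-κ) := by
  funext t
  rw [sF, if_neg (not_lt.2 h.le), if_pos h]

theorem cF_zero (κ : ℝ) : cF κ 0 = 1 := by
  simp [cF]

theorem sF_zero (κ : ℝ) : sF κ 0 = 0 := by
  simp [sF]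

theorem cF_zero_left (t : ℝ) : cF 0 t = 1 := by
  simp [cF]

theorem sF_zero_left (t : ℝ) : sF 0 t = t := by
  simp [sF]

theorem hasDerivAt_cF (κ t : ℝ) : HasDerivAt (cF κ) (-(κ * sF κ t)) t := by
  rcases lt_trichotomy κ 0 with h | h | h
  · rw [cF_of_neg h, sF_of_neg h]
    have h1 : HasDerivAt (fun t : ℝ => Real.sqrt (-κ) * t) (Real.sqrt (-κ)) t := by
      simpa using (hasDerivAt_id t).const_mul (Real.sqrt (-κ))
    have h2 := h1.cosh
    have hpos : 0 < Real.sqrt (-κ) := Real.sqrt_pos.2 (by linarith)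
    have hsq : Real.sqrt (-κ) * Real.sqrt (-κ) = -κ := Real.mul_self_sqrt (by linarith)
    have h3 : -(κ * (Real.sinh (Real.sqrt (-κ) * t) / Real.sqrt (-κ)))
        = Real.sinh (Real.sqrt (-κ) * t) * Real.sqrt (-κ) := by
      field_simp
      linear_combination (-Real.sinh (Real.sqrt (-κ) * t)) * hsq
    show HasDerivAt (fun t => Real.cosh (Real.sqrt (-κ) * t))
      (-(κ * (Real.sinh (Real.sqrt (-κ) * t) / Real.sqrt (-κ)))) t
    rw [h3]
    exact h2
  · subst h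
    have h1 : cF 0 = fun _ => (1 : ℝ) := funext cF_zero_left
    rw [h1, zero_mul, neg_zero]
    exact hasDerivAt_const t 1
  · rw [cF_of_pos h, sF_of_pos h]
    have h1 : HasDerivAt (fun t : ℝ => Real.sqrt κ * t) (Real.sqrt κ) t := by
      simpa using (hasDerivAt_id t).const_mul (Real.sqrt κ)
    have h2 := h1.cos
    have hpos : 0 < Real.sqrt κ := Real.sqrt_pos.2 h
    have hsq : Real.sqrt κ * Real.sqrt κ = κ := Real.mul_self_sqrt h.le
    have h3 : -(κ * (Real.sin (Real.sqrt κ * t) / Real.sqrt κ))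
        = -Real.sin (Real.sqrt κ * t) * Real.sqrt κ := by
      field_simp
      linear_combination (Real.sin (Real.sqrt κ * t)) * hsq
    show HasDerivAt (fun t => Real.cos (Real.sqrt κ * t))
      (-(κ * (Real.sin (Real.sqrt κ * t) / Real.sqrt κ))) t
    rw [h3]
    exact h2

theorem hasDerivAt_sF (κ t : ℝ) : HasDerivAt (sF κ) (cF κ t) t := by
  rcases lt_trichotomy κ 0 with h | h | h
  · rw [cF_of_neg h, sF_of_neg h]
    have h1 : HasDerivAt (fun t : ℝ => Real.sqrt (-κ) * t) (Real.sqrt (-κ)) t := by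
      simpa using (hasDerivAt_id t).const_mul (Real.sqrt (-κ))
    have h2 := h1.sinh.div_const (Real.sqrt (-κ))
    have hpos : 0 < Real.sqrt (-κ) := Real.sqrt_pos.2 (by linarith)
    have h3 : Real.cosh (Real.sqrt (-κ) * t) * Real.sqrt (-κ) / Real.sqrt (-κ)
        = Real.cosh (Real.sqrt (-κ) * t) := by
      field_simp
    rw [h3] at h2
    exact h2
  · subst h
    have h1 : sF 0 = fun t => t := funext sF_zero_left
    rw [h1, cF_zero_left]
    exact hasDerivAt_id t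
  · rw [cF_of_pos h, sF_of_pos h]
    have h1 : HasDerivAt (fun t : ℝ => Real.sqrt κ * t) (Real.sqrt κ) t := by
      simpa using (hasDerivAt_id t).const_mul (Real.sqrt κ)
    have h2 := h1.sin.div_const (Real.sqrt κ)
    have hpos : 0 < Real.sqrt κ := Real.sqrt_pos.2 h
    have h3 : Real.cos (Real.sqrt κ * t) * Real.sqrt κ / Real.sqrt κ
        = Real.cos (Real.sqrt κ * t) := by
      field_simp
    rw [h3] at h2
    exact h2

theorem cF_sq_add (κ t : ℝ) : cF κ t ^ 2 + κ * sF κ t ^ 2 = 1 := by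
  rcases lt_trichotomy κ 0 with h | h | h
  · rw [cF_of_neg h, sF_of_neg h]
    show Real.cosh (Real.sqrt (-κ) * t) ^ 2
      + κ * (Real.sinh (Real.sqrt (-κ) * t) / Real.sqrt (-κ)) ^ 2 = 1
    have h1 := Real.cosh_sq (Real.sqrt (-κ) * t)
    have hsq : Real.sqrt (-κ) ^ 2 = -κ := Real.sq_sqrt (by linarith)
    have hne : κ ≠ 0 := h.ne
    rw [div_pow, hsq, h1]
    have h5 : κ * (Real.sinh (Real.sqrt (-κ) * t) ^ 2 / -κ) = -Real.sinh (Real.sqrt (-κ) * t) ^ 2 := by
      field_simp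
    rw [h5]
    ring
  · subst h
    rw [cF_zero_left]
    ring
  · rw [cF_of_pos h, sF_of_pos h]
    show Real.cos (Real.sqrt κ * t) ^ 2
      + κ * (Real.sin (Real.sqrt κ * t) / Real.sqrt κ) ^ 2 = 1
    have h1 := Real.sin_sq_add_cos_sq (Real.sqrt κ * t)
    have hsq : Real.sqrt κ ^ 2 = κ := Real.sq_sqrt h.le
    rw [div_pow, hsq]
    field_simp
    linarith

theorem om_zero : om 0 = 0 := by
  simp [om]

theorem om_sq (κ : ℝ) : om κ ^ 2 = -(κ : ℂ) := by
  unfold om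
  split_ifs with h
  · have hsq : Real.sqrt (-κ) ^ 2 = -κ := Real.sq_sqrt (by linarith)
    have h2 : (((Real.sqrt (-κ) : ℝ) : ℂ)) ^ 2 = ((Real.sqrt (-κ) ^ 2 : ℝ) : ℂ) := by push_cast; ring
    rw [h2, hsq]
    push_cast
    ring
  · have hsq : Real.sqrt κ ^ 2 = κ := Real.sq_sqrt (not_lt.1 h)
    have h2 : (Complex.I * ((Real.sqrt κ : ℝ) : ℂ)) ^ 2 = -((Real.sqrt κ ^ 2 : ℝ) : ℂ) := by
      rw [mul_pow, Complex.I_sq]
      push_cast
      ring
    rw [h2, hsq]

theorem om_ne_zero {κ : ℝ} (h : κ ≠ 0) : om κ ≠ 0 := by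
  intro h0
  have h1 := om_sq κ
  rw [h0] at h1
  apply h
  have h2 : (κ : ℂ) = 0 := by
    have h3 : (0 : ℂ) ^ 2 = 0 := by norm_num
    rw [h3] at h1
    exact neg_eq_zero.1 h1.symm
  exact_mod_cast h2

theorem om_inj {κ κ' : ℝ} (h : om κ = om κ') : κ = κ' := by
  have h1 := om_sq κ
  rw [h, om_sq κ', neg_inj] at h1
  exact_mod_cast h1.symm

theorem om_add_ne {κ : ℝ} (h : κ ≠ 0) (κ' : ℝ) : om κ + om κ' ≠ 0 := by
  intro h0
  have h1 : om κ = -om κ' := eq_neg_of_add_eq_zero_left h0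
  have h2 := om_sq κ
  rw [h1, neg_sq, om_sq κ', neg_inj] at h2
  have h3 : κ' = κ := by exact_mod_cast h2
  rw [h3] at h0
  have h4 : om κ = 0 := by
    have h5 : 2 * om κ = 0 := by rw [two_mul]; exact h0
    rcases mul_eq_zero.1 h5 with h6 | h6
    · norm_num at h6
    · exact h6
  exact om_ne_zero h h4

private theorem exp_om {κ : ℝ} (h : κ ≠ 0) (t : ℝ) :
    (cF κ t : ℂ) + om κ * (sF κ t : ℂ) = Complex.exp (om κ * t) := by
  rcases lt_or_gt_of_ne h with h | h
  · rw [cF_of_neg h, sF_of_neg h]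
    have hom : om κ = ((Real.sqrt (-κ) : ℝ) : ℂ) := by rw [om, if_pos h]
    have hpos : 0 < Real.sqrt (-κ) := Real.sqrt_pos.2 (by linarith)
    rw [hom]
    have h1 : Real.cosh (Real.sqrt (-κ) * t) + Real.sqrt (-κ) *
        (Real.sinh (Real.sqrt (-κ) * t) / Real.sqrt (-κ)) = Real.exp (Real.sqrt (-κ) * t) := by
      rw [mul_div_cancel₀ _ hpos.ne', Real.cosh_add_sinh]
    have h2 := congrArg (fun x : ℝ => (x : ℂ)) h1
    simp only [Complex.ofReal_add, Complex.ofReal_mul] at h2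
    rw [Complex.ofReal_exp, Complex.ofReal_mul] at h2
    exact h2
  · rw [cF_of_pos h, sF_of_pos h]
    have hom : om κ = Complex.I * ((Real.sqrt κ : ℝ) : ℂ) := by rw [om, if_neg (not_lt.2 h.le)]
    have hpos : 0 < Real.sqrt κ := Real.sqrt_pos.2 h
    have hne : ((Real.sqrt κ : ℝ) : ℂ) ≠ 0 := by exact_mod_cast hpos.ne'
    rw [hom]
    have h1 : Complex.I * ((Real.sqrt κ : ℝ) : ℂ) * (t : ℂ)
        = (((Real.sqrt κ * t : ℝ)) : ℂ) * Complex.I := by
      push_cast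
      ring
    rw [h1, Complex.exp_mul_I, ← Complex.ofReal_cos, ← Complex.ofReal_sin]
    have h2 : Complex.I * ((Real.sqrt κ : ℝ) : ℂ) *
        ((Real.sin (Real.sqrt κ * t) / Real.sqrt κ : ℝ) : ℂ)
        = ((Real.sin (Real.sqrt κ * t) : ℝ) : ℂ) * Complex.I := by
      rw [Complex.ofReal_div]
      field_simp
    rw [h2]

private theorem exp_om' {κ : ℝ} (h : κ ≠ 0) (t : ℝ) :
    (cF κ t : ℂ) - om κ * (sF κ t : ℂ) = Complex.exp (-(om κ * t)) := by
  have h1 : cF κ (-t) = cF κ t := by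
    unfold cF
    split_ifs
    · rw [mul_neg, Real.cos_neg]
    · rw [mul_neg, Real.cosh_neg]
    · rfl
  have h2 : sF κ (-t) = -sF κ t := by
    unfold sF
    split_ifs
    · rw [mul_neg, Real.sin_neg, neg_div]
    · rw [mul_neg, Real.sinh_neg, neg_div]
    · rfl
  have h3 := exp_om h (-t)
  rw [h1, h2] at h3
  rw [Complex.ofReal_neg, Complex.ofReal_neg, mul_neg, mul_neg] at h3
  rw [← h3]
  ring

theorem u1_rot {κ : ℝ} (h : κ ≠ 0) (τ a b : ℝ) :
    u1 κ (cF κ τ * a - κ * sF κ τ * b) (sF κ τ * a + cF κ τ * b) =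
      Complex.exp (om κ * τ) * u1 κ a b := by
  rw [u1, u1, if_neg h, if_neg h, ← exp_om h τ]
  push_cast
  linear_combination (-((sF κ τ : ℂ) * b)) * om_sq κ

theorem u2_rot {κ : ℝ} (h : κ ≠ 0) (τ a b : ℝ) :
    u2 κ (cF κ τ * a - κ * sF κ τ * b) (sF κ τ * a + cF κ τ * b) =
      Complex.exp (-(om κ * τ)) * u2 κ a b := by
  rw [u2, u2, if_neg h, if_neg h, ← exp_om' h τ]
  push_cast
  linear_combination (-((sF κ τ : ℂ) * b)) * om_sq κ

theorem u1_rot_zero (τ a b : ℝ) :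
    u1 0 (cF 0 τ * a - 0 * sF 0 τ * b) (sF 0 τ * a + cF 0 τ * b) = (τ : ℂ) * a + b := by
  rw [u1, if_pos rfl, sF_zero_left, cF_zero_left]
  push_cast
  ring

theorem u2_rot_zero (τ a b : ℝ) :
    u2 0 (cF 0 τ * a - 0 * sF 0 τ * b) (sF 0 τ * a + cF 0 τ * b) = (a : ℂ) := by
  rw [u2, if_pos rfl, cF_zero_left]
  push_cast
  ring

private theorem const_of_zero {V : Type*} [NormedAddCommGroup V] [NormedSpace ℝ V] (F : ℝ → V)
    (ε : ℝ) (hF : ∀ s, |s| < ε → HasDerivAt F 0 s) : ∀ s, |s| < ε → F s = F 0 := by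
  intro s hs
  have hε : 0 < ε := lt_of_le_of_lt (abs_nonneg s) hs
  have h1 := Convex.norm_image_sub_le_of_norm_hasDerivWithin_le (f := F) (f' := fun _ => (0 : V))
    (s := Set.Ioo (-ε) ε) (C := 0) (fun x hx => (hF x (abs_lt.2 hx)).hasDerivWithinAt)
    (fun x _ => by simp) (convex_Ioo _ _) (x := 0) (y := s) ⟨by linarith, hε⟩ (abs_lt.1 hs)
  rw [zero_mul] at h1
  exact sub_eq_zero.1 (norm_le_zero_iff.1 h1)

theorem rot_ode {V : Type*} [NormedAddCommGroup V] [NormedSpace ℝ V] (f g : ℝ → V) (κ τ ε : ℝ)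
    (hf : ∀ s, |s| < ε → HasDerivAt f (τ • g s) s)
    (hg : ∀ s, |s| < ε → HasDerivAt g ((-(κ * τ)) • f s) s) :
    ∀ s, |s| < ε →
      f s = cF κ (s * τ) • f 0 + sF κ (s * τ) • g 0 ∧
      g s = (-(κ * sF κ (s * τ))) • f 0 + cF κ (s * τ) • g 0 := by
  have hc : ∀ s, HasDerivAt (fun s => cF κ (s * τ)) (-(κ * sF κ (s * τ)) * τ) s := by
    intro s
    have h1 : HasDerivAt (fun s : ℝ => s * τ) τ s := by
      simpa using (hasDerivAt_id s).mul_const τ
    exact (hasDerivAt_cF κ (s * τ)).comp s h1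
  have hs' : ∀ s, HasDerivAt (fun s => sF κ (s * τ)) (cF κ (s * τ) * τ) s := by
    intro s
    have h1 : HasDerivAt (fun s : ℝ => s * τ) τ s := by
      simpa using (hasDerivAt_id s).mul_const τ
    exact (hasDerivAt_sF κ (s * τ)).comp s h1
  have hF := const_of_zero (fun s => cF κ (s * τ) • f s - sF κ (s * τ) • g s) ε (by
    intro s hs
    have h1 := ((hc s).smul (hf s hs)).sub ((hs' s).smul (hg s hs))
    refine h1.congr_deriv ?_
    module)
  have hG := const_of_zero (fun s => (κ * sF κ (s * τ)) • f s + cF κ (s * τ) • g s) ε (by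
    intro s hs
    have h1 := (((hs' s).const_mul κ).smul (hf s hs)).add ((hc s).smul (hg s hs))
    refine h1.congr_deriv ?_
    module)
  intro s hs
  have h1 := hF s hs
  have h2 := hG s hs
  simp only [zero_mul, cF_zero, sF_zero, one_smul, zero_smul, mul_zero, sub_zero, zero_add] at h1 h2
  have h3 := cF_sq_add κ (s * τ)
  constructor
  · rw [← h1, ← h2]
    have h4 : cF κ (s * τ) • (cF κ (s * τ) • f s - sF κ (s * τ) • g s) +
        sF κ (s * τ) • ((κ * sF κ (s * τ)) • f s + cF κ (s * τ) • g s)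
        = (cF κ (s * τ) ^ 2 + κ * sF κ (s * τ) ^ 2) • f s := by
      module
    rw [h4, h3, one_smul]
  · rw [← h1, ← h2]
    have h4 : (-(κ * sF κ (s * τ))) • (cF κ (s * τ) • f s - sF κ (s * τ) • g s) +
        cF κ (s * τ) • ((κ * sF κ (s * τ)) • f s + cF κ (s * τ) • g s)
        = (cF κ (s * τ) ^ 2 + κ * sF κ (s * τ) ^ 2) • g s := by
      module
    rw [h4, h3, one_smul]

end Pool.Agent.CPC
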